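import Mathlib
import Pool.Agent.Y586.SW.GM

set_option autoImplicit false

/-! The method of moments for complex variables with the moments of a standard complex Gaussian
variable: convergence of the two-dimensional laws. -/

namespace Pool.Agent.K4H8.JG

open Filter Topology MeasureTheory Complex ProbabilityTheory
open Pool.Agent.Y586.SW (Hy X X_meas char_lim univ_lim)

noncomputable section

variable {μ : ℕ → Measure ℝ} {f : ℕ → ℝ → ℂ} {Z : ℝ}

/-- rotations keep the hypotheses -/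
lemma hy_rot (h : Hy μ f Z) (u : ℂ) (hu : ‖u‖ = 1) : Hy μ (fun n x => u * f n x) Z := by
  refine ⟨h.Z0, h.fin, fun n => (h.meas n).const_mul u, fun n k => ?_, fun k l => ?_⟩
  · refine (h.int n k).congr (Eventually.of_forall fun x => ?_)
    simp only [norm_mul, hu, one_mul]
  · have e : ∀ n, ∫ x, (u * f n x) ^ k * (starRingEnd ℂ) (u * f n x) ^ l ∂(μ n) =
        (u ^ k * (starRingEnd ℂ) u ^ l) * ∫ x, f n x ^ k * (starRingEnd ℂ) (f n x) ^ l ∂(μ n) := by
      intro n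
      rw [← integral_const_mul]
      congr 1
      funext x
      rw [map_mul]
      ring
    simp only [e]
    have h1 := (h.lim k l).const_mul (u ^ k * (starRingEnd ℂ) u ^ l)
    by_cases hkl : k = l
    · subst hkl
      simp only [if_pos] at h1 ⊢
      have e2 : u ^ k * (starRingEnd ℂ) u ^ k = 1 := by
        rw [← mul_pow, Complex.mul_conj, Complex.normSq_eq_norm_sq, hu]
        simp
      rw [e2, one_mul] at h1
      simpa only [e2] using h1
    · simp only [if_neg hkl, mul_zero] at h1 ⊢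
      exact h1

/-- the two-dimensional variable -/
def W (f : ℕ → ℝ → ℂ) (n : ℕ) (x : ℝ) : ℂ := ((Real.sqrt 2 : ℝ) : ℂ) * f n x

lemma W_meas (h : Hy μ f Z) (n : ℕ) : Measurable (W f n) := (h.meas n).const_mul _

/-- the two-dimensional characteristic functions -/
lemma char2_lim (h : Hy μ f Z) (ξ : ℂ) :
    Tendsto (fun n => ∫ x, cexp (((inner ℝ (W f n x) ξ : ℝ) : ℂ) * I) ∂(μ n)) atTop
      (𝓝 (Z * cexp (-((‖ξ‖ : ℝ) : ℂ) ^ 2 / 2))) := by
  obtain ⟨u, hu, hξ⟩ : ∃ u : ℂ, ‖u‖ = 1 ∧ ξ = ((‖ξ‖ : ℝ) : ℂ) * (starRingEnd ℂ) u := by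
    by_cases h0 : ξ = 0
    · exact ⟨1, norm_one, by simp [h0]⟩
    · refine ⟨(starRingEnd ℂ) ξ / ((‖ξ‖ : ℝ) : ℂ), ?_, ?_⟩
      · rw [norm_div, RCLike.norm_conj, Complex.norm_real, norm_norm, div_self (norm_ne_zero_iff.2 h0)]
      · rw [map_div₀, Complex.conj_conj, Complex.conj_ofReal]
        have : ((‖ξ‖ : ℝ) : ℂ) ≠ 0 := by exact_mod_cast norm_ne_zero_iff.2 h0
        field_simp
  have h1 := char_lim (hy_rot h u hu) ‖ξ‖
  have e1 : ((-(‖ξ‖ ^ 2) / 2 : ℝ) : ℂ) = -((‖ξ‖ : ℝ) : ℂ) ^ 2 / 2 := by push_cast; ring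
  rw [e1] at h1
  refine h1.congr fun n => ?_
  congr 1
  funext x
  rw [mul_comm I]
  congr 3
  unfold X W
  rw [Complex.inner]
  conv_rhs => rw [hξ]
  rw [map_mul, Complex.conj_ofReal]
  have e2 : ((‖ξ‖ : ℝ) : ℂ) * (starRingEnd ℂ) u * (((Real.sqrt 2 : ℝ) : ℂ) * (starRingEnd ℂ) (f n x)) =
      ((Real.sqrt 2 * ‖ξ‖ : ℝ) : ℂ) * (starRingEnd ℂ) (u * f n x) := by
    rw [map_mul]
    push_cast
    ring
  rw [e2, Complex.re_ofReal_mul, Complex.conj_re]
  ring

/-- the normalised law -/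
def nu2 (μ : ℕ → Measure ℝ) (f : ℕ → ℝ → ℂ) (n : ℕ) : Measure ℂ :=
  if (μ n).real Set.univ = 0 then Measure.dirac 0 else ((μ n) Set.univ)⁻¹ • (μ n).map (W f n)

lemma nu2_prob (h : Hy μ f Z) (n : ℕ) : IsProbabilityMeasure (nu2 μ f n) := by
  have := h.fin n
  unfold nu2
  split_ifs with h0
  · infer_instance
  · refine ⟨?_⟩
    rw [Measure.smul_apply, Measure.map_apply (W_meas h n) MeasurableSet.univ, Set.preimage_univ, smul_eq_mul]
    refine ENNReal.inv_mul_cancel ?_ (measure_ne_top _ _)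
    intro h1
    exact h0 (by rw [Measure.real, h1]; rfl)

lemma nu2_char (h : Hy μ f Z) (n : ℕ) (h0 : (μ n).real Set.univ ≠ 0) (ξ : ℂ) :
    charFun (nu2 μ f n) ξ = ((μ n).real Set.univ : ℂ)⁻¹ *
      ∫ x, cexp (((inner ℝ (W f n x) ξ : ℝ) : ℂ) * I) ∂(μ n) := by
  unfold nu2
  rw [if_neg h0, charFun_apply, integral_smul_measure, integral_map (W_meas h n).aemeasurable]
  · rw [ENNReal.toReal_inv]
    simp only [Measure.real]
    rw [Complex.real_smul]
    push_cast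
    rfl
  · refine (Continuous.measurable ?_).aestronglyMeasurable
    fun_prop

lemma pos_case2 (h : Hy μ f Z) (hZ : 0 < Z) (V : Set ℂ) (hV : MeasurableSet V)
    (hfr : stdGaussian ℂ (frontier V) = 0) :
    Tendsto (fun n => (μ n).real {x | W f n x ∈ V}) atTop (𝓝 (Z * (stdGaussian ℂ).real V)) := by
  have hpos : ∀ᶠ n in atTop, 0 < (μ n).real Set.univ := (univ_lim h).eventually (lt_mem_nhds hZ)
  set P : ℕ → ProbabilityMeasure ℂ := fun n => ⟨nu2 μ f n, nu2_prob h n⟩ with hP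
  set G : ProbabilityMeasure ℂ := ⟨stdGaussian ℂ, inferInstance⟩ with hG
  have hlim : Tendsto P atTop (𝓝 G) := by
    refine ProbabilityMeasure.tendsto_iff_tendsto_charFun.2 fun ξ => ?_
    have hZc : (Z : ℂ) ≠ 0 := by exact_mod_cast hZ.ne'
    have e1 : charFun (G : Measure ℂ) ξ = (Z : ℂ)⁻¹ * (Z * cexp (-((‖ξ‖ : ℝ) : ℂ) ^ 2 / 2)) := by
      show charFun (stdGaussian ℂ) ξ = _
      rw [charFun_stdGaussian, ← mul_assoc, inv_mul_cancel₀ hZc, one_mul]
    rw [e1]
    have h1 : Tendsto (fun n => ((μ n).real Set.univ : ℂ)⁻¹) atTop (𝓝 (Z : ℂ)⁻¹) :=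
      ((Complex.continuous_ofReal.tendsto _).comp (univ_lim h)).inv₀ hZc
    refine (h1.mul (char2_lim h ξ)).congr' ?_
    filter_upwards [hpos] with n hn
    exact (nu2_char h n hn.ne' ξ).symm
  have h2 := ProbabilityMeasure.tendsto_measure_of_null_frontier_of_tendsto' hlim hfr
  have h3 : Tendsto (fun n => (nu2 μ f n).real V) atTop (𝓝 ((stdGaussian ℂ).real V)) :=
    (ENNReal.tendsto_toReal (measure_ne_top _ _)).comp h2
  refine ((univ_lim h).mul h3).congr' ?_
  filter_upwards [hpos] with n hn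
  have := h.fin n
  unfold nu2
  rw [if_neg hn.ne', measureReal_ennreal_smul_apply, ENNReal.toReal_inv]
  have e : ((μ n).map (W f n)).real V = (μ n).real {x | W f n x ∈ V} := by
    rw [Measure.real, Measure.map_apply (W_meas h n) hV]
    rfl
  rw [e]
  have e2 : ((μ n) Set.univ).toReal = (μ n).real Set.univ := rfl
  rw [e2, ← mul_assoc, mul_inv_cancel₀ hn.ne', one_mul]

/-- the two-dimensional method of moments -/
def P_GM2 : Prop := ∀ (μ : ℕ → Measure ℝ) (f : ℕ → ℝ → ℂ) (Z : ℝ), 0 ≤ Z → (∀ n, IsFiniteMeasure (μ n)) →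
  (∀ n, Measurable (f n)) → (∀ n k, Integrable (fun x => ‖f n x‖ ^ k) (μ n)) →
  (∀ k l : ℕ, Tendsto (fun n => ∫ x, f n x ^ k * (starRingEnd ℂ) (f n x) ^ l ∂(μ n)) atTop
    (𝓝 (if k = l then (k.factorial : ℂ) * (Z : ℂ) else 0))) →
  ∀ V : Set ℂ, MeasurableSet V → stdGaussian ℂ (frontier V) = 0 →
    Tendsto (fun n => (μ n).real {x | ((Real.sqrt 2 : ℝ) : ℂ) * f n x ∈ V}) atTop
      (𝓝 (Z * (stdGaussian ℂ).real V))

theorem t_GM2 : P_GM2 := by
  intro μ f Z hZ hfin hmeas hint hlim V hV hfr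
  have h : Hy μ f Z := ⟨hZ, hfin, hmeas, hint, hlim⟩
  rcases hZ.eq_or_lt with h0 | h0
  · rw [← h0, zero_mul]
    have h1 := univ_lim h
    rw [← h0] at h1
    refine squeeze_zero (fun n => measureReal_nonneg) (fun n => ?_) h1
    have := hfin n
    exact measureReal_mono (Set.subset_univ _)
  · exact pos_case2 h h0 V hV hfr

end

end Pool.Agent.K4H8.JG
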