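import Mathlib

set_option autoImplicit false

/-! Shrinking an open set in the plane. -/

namespace Pool.Agent.K4H8.JG

open Filter Topology MeasureTheory Complex

theorem shrink (μ : Measure ℂ) [IsProbabilityMeasure μ] {U : Set ℂ} (hU : IsOpen U) {ε : ℝ} (hε : 0 < ε) :
    ∃ (V : Set ℂ) (r R : ℝ), MeasurableSet V ∧ μ (frontier V) = 0 ∧ 0 < r ∧ (∀ z ∈ V, ‖z‖ ≤ R) ∧
      (∀ z ∈ V, ∀ w : ℂ, ‖w - z‖ < r → w ∈ U) ∧ μ.real U - ε ≤ μ.real V := by
  -- a bounded part
  have h1 : ∃ n : ℕ, μ.real U - ε / 2 ≤ μ.real (U ∩ Metric.ball 0 n) := by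
    set s : ℕ → Set ℂ := fun n => U ∩ Metric.ball 0 n with hs
    have hmono : Monotone s := by
      intro m n hmn
      refine Set.inter_subset_inter_right _ (Metric.ball_subset_ball ?_)
      exact_mod_cast hmn
    have hUn : ⋃ n, s n = U := by
      ext x
      simp only [hs, Set.mem_iUnion, Set.mem_inter_iff, Metric.mem_ball, dist_zero_right]
      constructor
      · rintro ⟨n, h1, -⟩; exact h1
      · intro h
        obtain ⟨n, hn⟩ := exists_nat_gt ‖x‖
        exact ⟨n, h, hn⟩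
    have ht := tendsto_measure_iUnion_atTop (μ := μ) hmono
    rw [hUn] at ht
    have ht2 : Tendsto (fun n => μ.real (s n)) atTop (𝓝 (μ.real U)) :=
      (ENNReal.tendsto_toReal (measure_ne_top _ _)).comp ht
    obtain ⟨n, hn⟩ := (ht2.eventually_const_le (by linarith : μ.real U - ε / 2 < μ.real U)).exists
    exact ⟨n, hn⟩
  obtain ⟨n, hn⟩ := h1
  set W := U ∩ Metric.ball (0:ℂ) n with hW
  have hWo : IsOpen W := hU.inter Metric.isOpen_ball
  obtain ⟨rs, hrs, hr⟩ := exists_null_frontiers_thickening μ Wᶜ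
  have hrs' : Tendsto rs atTop (𝓝[>] 0) :=
    tendsto_nhdsWithin_iff.2 ⟨hrs, Eventually.of_forall fun k => (hr k).1⟩
  have h2 := (tendsto_measure_thickening_of_isClosed (μ := μ) (s := Wᶜ)
    ⟨1, one_pos, measure_ne_top _ _⟩ hWo.isClosed_compl).comp hrs'
  have h3 : Tendsto (fun k => μ.real (Metric.thickening (rs k) Wᶜ)) atTop (𝓝 (μ.real Wᶜ)) :=
    (ENNReal.tendsto_toReal (measure_ne_top _ _)).comp h2
  obtain ⟨k, hk⟩ := (h3.eventually_le_const (by linarith : μ.real Wᶜ < μ.real Wᶜ + ε / 2)).exists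
  refine ⟨(Metric.thickening (rs k) Wᶜ)ᶜ, rs k, n, Metric.isOpen_thickening.measurableSet.compl, ?_, (hr k).1,
    fun z hz => ?_, fun z hz w hw => ?_, ?_⟩
  · rw [frontier_compl]; exact (hr k).2
  · have hzW : z ∈ W := by
      by_contra hc
      exact hz (Metric.self_subset_thickening (hr k).1 _ hc)
    have := hzW.2
    rw [Metric.mem_ball, dist_zero_right] at this
    exact this.le
  · by_contra hc
    refine hz ?_
    rw [Metric.mem_thickening_iff]
    refine ⟨w, fun h => hc h.1, ?_⟩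
    rw [dist_comm, dist_eq_norm]
    exact hw
  · have e1 : μ.real (Metric.thickening (rs k) Wᶜ)ᶜ = 1 - μ.real (Metric.thickening (rs k) Wᶜ) :=
      probReal_compl_eq_one_sub Metric.isOpen_thickening.measurableSet
    have e2 : μ.real Wᶜ = 1 - μ.real W := probReal_compl_eq_one_sub hWo.measurableSet
    rw [e1]
    linarith

end Pool.Agent.K4H8.JG
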