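import Mathlib
import Pool.Agent.Y745.SW.DefsA
import Pool.Agent.Y746.OJ.Stm

set_option autoImplicit false

/-! The kernels: band-limited window functions at the scale of the mean spacing of the zeros. -/

namespace Pool.Agent.K4H8.JG

open Filter Topology MeasureTheory Complex
open Pool.Agent.Y745.SW (VF Wf P_KER)
open Pool.Agent.Y746.OJ (KerOK VH)

noncomputable section

lemma VF_diff {B : ℝ → ℝ} (hB : Continuous B) : Differentiable ℂ (VF B) := by
  intro z
  have hexp : Continuous fun ξ : ℝ => cexp (I * ξ * z) := by fun_prop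
  have h := intervalIntegral.hasDerivAt_integral_of_dominated_loc_of_deriv_le (𝕜 := ℂ) (μ := volume)
    (a := (-1 : ℝ)) (b := 1) (F := fun (z : ℂ) (ξ : ℝ) => (B ξ : ℂ) * cexp (I * ξ * z))
    (F' := fun (z : ℂ) (ξ : ℝ) => (B ξ : ℂ) * (cexp (I * ξ * z) * (I * ξ)))
    (x₀ := z) (s := Metric.ball z 1) (bound := fun ξ => |B ξ| * Real.exp (‖z‖ + 1))
    (Metric.ball_mem_nhds z one_pos) ?_ ?_ ?_ ?_ ?_ ?_
  · exact h.2.differentiableAt
  · refine Eventually.of_forall fun w => ?_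
    exact (Continuous.aestronglyMeasurable (by fun_prop))
  · exact Continuous.intervalIntegrable (by fun_prop) _ _
  · exact (Continuous.aestronglyMeasurable (by fun_prop))
  · refine Eventually.of_forall fun ξ hξ w hw => ?_
    rw [Set.uIoc_of_le (by norm_num)] at hξ
    have hξ1 : |ξ| ≤ 1 := by rw [abs_le]; constructor <;> linarith [hξ.1, hξ.2]
    rw [norm_mul, norm_mul, Complex.norm_real, Real.norm_eq_abs]
    refine mul_le_mul_of_nonneg_left ?_ (abs_nonneg _)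
    have e1 : ‖I * (ξ : ℂ)‖ ≤ 1 := by
      rw [norm_mul, norm_I, one_mul, Complex.norm_real, Real.norm_eq_abs]; exact hξ1
    have e2 : ‖cexp (I * ξ * w)‖ ≤ Real.exp (‖z‖ + 1) := by
      rw [Complex.norm_exp]
      refine Real.exp_le_exp.2 ?_
      have h1 : (I * ξ * w).re ≤ ‖I * ξ * w‖ := Complex.re_le_norm _
      have h2 : ‖I * ξ * w‖ ≤ 1 * ‖w‖ := by
        rw [norm_mul]; exact mul_le_mul_of_nonneg_right e1 (norm_nonneg _)
      have h3 : ‖w‖ ≤ ‖z‖ + 1 := by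
        have h4 : ‖w - z‖ < 1 := by simpa [dist_eq_norm] using hw
        have h5 : ‖w‖ ≤ ‖w - z‖ + ‖z‖ := by
          calc ‖w‖ = ‖(w - z) + z‖ := by rw [sub_add_cancel]
            _ ≤ _ := norm_add_le _ _
        linarith
      linarith
    calc ‖cexp (I * ξ * w)‖ * ‖I * (ξ : ℂ)‖ ≤ Real.exp (‖z‖ + 1) * 1 :=
          mul_le_mul e2 e1 (norm_nonneg _) (Real.exp_pos _).le
      _ = _ := mul_one _
  · exact Continuous.intervalIntegrable (by fun_prop) _ _
  · refine Eventually.of_forall fun ξ _ w _ => ?_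
    have h1 : HasDerivAt (fun w : ℂ => I * ξ * w) (I * ξ) w := by
      simpa using (hasDerivAt_id w).const_mul (I * (ξ : ℂ))
    exact h1.cexp.const_mul _

/-- a bound valid everywhere -/
lemma VF_le {C N : ℝ} {B : ℝ → ℝ} (hC : 1 ≤ C) (hN : 1 ≤ N) (h : Wf 4 C N B) (z : ℂ) :
    ‖VF B z‖ ≤ (1 + C) * (1 + N) ^ 4 * Real.exp |z.im| / (1 + z.re ^ 2) ^ 2 := by
  have he : 1 ≤ Real.exp |z.im| := Real.one_le_exp (abs_nonneg _)
  have hx0 := abs_nonneg z.re
  have hsq : |z.re| ^ 2 = z.re ^ 2 := sq_abs _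
  have hden : 0 < (1 + z.re ^ 2) ^ 2 := by positivity
  have hkey : (1 + z.re ^ 2) ^ 2 ≤ (1 + |z.re|) ^ 4 := by
    have h1 : 1 + z.re ^ 2 ≤ (1 + |z.re|) ^ 2 := by nlinarith
    calc (1 + z.re ^ 2) ^ 2 ≤ ((1 + |z.re|) ^ 2) ^ 2 := by gcongr
      _ = _ := by ring
  rw [le_div_iff₀ hden]
  rcases le_total |z.re| N with h1 | h1
  · have h2 := h.inner z h1
    have h3 : ‖VF B z‖ ≤ (1 + C) * Real.exp |z.im| := by
      have h4 : ‖VF B z‖ ≤ ‖VF B z - 1‖ + 1 := by
        calc ‖VF B z‖ = ‖(VF B z - 1) + 1‖ := by rw [sub_add_cancel]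
          _ ≤ _ := (norm_add_le _ _).trans (by rw [norm_one])
      have h5 : C * Real.exp |z.im| / (1 + (N - |z.re|)) ^ 4 ≤ C * Real.exp |z.im| := by
        apply div_le_self (by positivity)
        have : (1:ℝ) ≤ 1 + (N - |z.re|) := by linarith
        exact one_le_pow₀ this
      nlinarith
    have h6 : (1 + |z.re|) ^ 4 ≤ (1 + N) ^ 4 := by gcongr
    calc ‖VF B z‖ * (1 + z.re ^ 2) ^ 2 ≤ ((1 + C) * Real.exp |z.im|) * (1 + N) ^ 4 :=
          mul_le_mul h3 (hkey.trans h6) hden.le (by positivity)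
      _ = _ := by ring
  · have h2 := h.outer z h1
    have h3 : 0 < 1 + (|z.re| - N) := by linarith
    have h4 : (1 + |z.re|) ^ 4 ≤ (1 + N) ^ 4 * (1 + (|z.re| - N)) ^ 4 := by
      rw [← mul_pow]
      have : 1 + |z.re| ≤ (1 + N) * (1 + (|z.re| - N)) := by nlinarith
      gcongr
    calc ‖VF B z‖ * (1 + z.re ^ 2) ^ 2 ≤ (C * Real.exp |z.im| / (1 + (|z.re| - N)) ^ 4) *
          ((1 + N) ^ 4 * (1 + (|z.re| - N)) ^ 4) :=
          mul_le_mul h2 (hkey.trans h4) hden.le (by positivity)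
      _ = C * (1 + N) ^ 4 * Real.exp |z.im| := by field_simp
      _ ≤ _ := by
          have : C * (1 + N) ^ 4 ≤ (1 + C) * (1 + N) ^ 4 := by
            have : 0 ≤ (1 + N) ^ 4 := by positivity
            nlinarith
          exact mul_le_mul_of_nonneg_right this (Real.exp_pos _).le

/-- the kernel -/
def KV (B : ℝ → ℝ) (a : ℝ) (z : ℂ) : ℂ := (a : ℂ) * VF B (a * z) * cexp (-z ^ 2 / 2)

/-- the data of the kernels -/
structure KD (B : ℝ → ℝ) (K : ℝ) : Prop where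
  cont : Continuous B
  K1 : 1 ≤ K
  real : ∀ x : ℝ, (VF B x).im = 0 ∧ 0 ≤ (VF B x).re
  le : ∀ z : ℂ, ‖VF B z‖ ≤ K * Real.exp |z.im| / (1 + z.re ^ 2) ^ 2
  ge : ∀ x : ℝ, |x| ≤ 4 → 1 / 2 ≤ (VF B x).re

theorem exists_KD (h : P_KER) : ∃ (B : ℝ → ℝ) (K : ℝ), KD B K := by
  obtain ⟨C, hC, h⟩ := h 4
  obtain ⟨B, hB⟩ := h (2 * C + 8) (by linarith)
  refine ⟨B, (1 + C) * (1 + (2 * C + 8)) ^ 4, hB.cont, ?_, fun x => ⟨(hB.real x).1, (hB.real x).2.1⟩,
    fun z => VF_le hC (by linarith) hB z, fun x hx => ?_⟩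
  · have h1 : (1:ℝ) ≤ 1 + C := by linarith
    have h2 : (1:ℝ) ≤ (1 + (2 * C + 8)) ^ 4 := one_le_pow₀ (by linarith)
    nlinarith
  · have h1 := hB.inner (x : ℂ) (by simp; linarith)
    simp only [Complex.ofReal_im, abs_zero, Real.exp_zero, mul_one, Complex.ofReal_re] at h1
    have h2 : C / (1 + (2 * C + 8 - |x|)) ^ 4 ≤ 1 / 2 := by
      rw [div_le_iff₀ (by have : 0 < 1 + (2 * C + 8 - |x|) := by linarith
                          positivity)]
      have h3 : 2 * C ≤ 1 + (2 * C + 8 - |x|) := by linarith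
      have h4 : (1:ℝ) ≤ (1 + (2 * C + 8 - |x|)) ^ 3 := one_le_pow₀ (by linarith)
      have h5 : (1 + (2 * C + 8 - |x|)) ^ 4 = (1 + (2 * C + 8 - |x|)) ^ 3 * (1 + (2 * C + 8 - |x|)) := by ring
      rw [h5]
      nlinarith
    have h3 : |(VF B x - 1).re| ≤ 1 / 2 := (Complex.abs_re_le_norm _).trans (h1.trans h2)
    rw [Complex.sub_re, Complex.one_re, abs_le] at h3
    linarith [h3.1]

section

variable {B : ℝ → ℝ} {K : ℝ} (h : KD B K)

include h

lemma KV_diff (a : ℝ) : Differentiable ℂ (KV B a) := by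
  unfold KV
  have h1 : Differentiable ℂ (fun z : ℂ => VF B (a * z)) :=
    (VF_diff h.cont).comp ((differentiable_const _).mul differentiable_id)
  have h2 : Differentiable ℂ (fun z : ℂ => cexp (-z ^ 2 / 2)) := by fun_prop
  exact ((differentiable_const _).mul h1).mul h2

lemma KV_norm {a : ℝ} (ha : 1 ≤ a) (z : ℂ) : ‖KV B a z‖ ≤
    K * Real.exp (a * |z.im|) * Real.exp (z.im ^ 2 / 2) * (a / (1 + (a * z.re) ^ 2) ^ 2) *
      Real.exp (-z.re ^ 2 / 2) := by
  unfold KV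
  have ha0 : 0 < a := by linarith
  rw [norm_mul, norm_mul, Complex.norm_real, Real.norm_of_nonneg ha0.le, Complex.norm_exp]
  have e1 : (-z ^ 2 / 2).re = z.im ^ 2 / 2 + -z.re ^ 2 / 2 := by
    have : (z ^ 2).re = z.re ^ 2 - z.im ^ 2 := by rw [pow_two, Complex.mul_re]; ring
    have h2 : (-z ^ 2 / 2 : ℂ) = ((-(1/2) : ℝ) : ℂ) * z ^ 2 := by push_cast; ring
    rw [h2, Complex.re_ofReal_mul, this]; ring
  rw [e1, Real.exp_add]
  have h2 := h.le (a * z)
  have e2 : ((a : ℂ) * z).re = a * z.re := by simp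
  have e3 : ((a : ℂ) * z).im = a * z.im := by simp
  rw [e2, e3, abs_mul, abs_of_pos ha0] at h2
  calc a * ‖VF B (a * z)‖ * (Real.exp (z.im ^ 2 / 2) * Real.exp (-z.re ^ 2 / 2)) ≤
      a * (K * Real.exp (a * |z.im|) / (1 + (a * z.re) ^ 2) ^ 2) *
        (Real.exp (z.im ^ 2 / 2) * Real.exp (-z.re ^ 2 / 2)) := by gcongr
    _ = _ := by ring

lemma KV_real (a x : ℝ) : KV B a x = ((a * (VF B ((a * x : ℝ) : ℂ)).re * Real.exp (-x ^ 2 / 2) : ℝ) : ℂ) := by
  unfold KV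
  have e1 : VF B ((a : ℂ) * x) = ((VF B ((a * x : ℝ) : ℂ)).re : ℂ) := by
    have : (a : ℂ) * x = ((a * x : ℝ) : ℂ) := by push_cast; rfl
    rw [this]
    apply Complex.ext
    · simp
    · rw [(h.real _).1]; simp
  rw [e1]
  push_cast
  rfl

lemma KerOK_KV {a : ℝ} (ha : 1 ≤ a) : KerOK (KV B a) (K * a) (K * a * (2 * Real.exp a)) := by
  have hK := h.K1
  have ha0 : 0 < a := by linarith
  refine ⟨KV_diff h a, fun x => ?_, fun x => ?_, fun z hz => ?_⟩
  · rw [KV_real h]; exact Complex.ofReal_im _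
  · have h1 := KV_norm h ha (x : ℂ)
    simp only [Complex.ofReal_im, Complex.ofReal_re, abs_zero, mul_zero, Real.exp_zero, mul_one] at h1
    have e0 : Real.exp ((0:ℝ) ^ 2 / 2) = 1 := by norm_num
    rw [e0, mul_one] at h1
    refine h1.trans ?_
    have h2 : a / (1 + (a * x) ^ 2) ^ 2 ≤ a := by
      apply div_le_self ha0.le
      have : (1:ℝ) ≤ 1 + (a * x) ^ 2 := by nlinarith [sq_nonneg (a * x)]
      exact one_le_pow₀ this
    have h3 : Real.exp (-x ^ 2 / 2) ≤ Real.exp (-x ^ 2 / 4) := by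
      refine Real.exp_le_exp.2 ?_
      nlinarith [sq_nonneg x]
    calc K * (a / (1 + (a * x) ^ 2) ^ 2) * Real.exp (-x ^ 2 / 2) ≤ K * a * Real.exp (-x ^ 2 / 4) := by
          gcongr
      _ = _ := rfl
  · have h1 := KV_norm h ha z
    refine h1.trans ?_
    have h2 : a / (1 + (a * z.re) ^ 2) ^ 2 ≤ a := by
      apply div_le_self ha0.le
      have : (1:ℝ) ≤ 1 + (a * z.re) ^ 2 := by nlinarith [sq_nonneg (a * z.re)]
      exact one_le_pow₀ this
    have h3 : Real.exp (-z.re ^ 2 / 2) ≤ Real.exp (-z.re ^ 2 / 4) := by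
      refine Real.exp_le_exp.2 ?_
      nlinarith [sq_nonneg z.re]
    have h4 : Real.exp (a * |z.im|) ≤ Real.exp a := by
      refine Real.exp_le_exp.2 ?_
      calc a * |z.im| ≤ a * 1 := mul_le_mul_of_nonneg_left hz ha0.le
        _ = a := mul_one a
    have h5 : Real.exp (z.im ^ 2 / 2) ≤ 2 := by
      have h6 : z.im ^ 2 ≤ 1 := by
        have := abs_le.1 hz
        nlinarith [this.1, this.2]
      have h7 : Real.exp (z.im ^ 2 / 2) ≤ Real.exp (1 / 2) := Real.exp_le_exp.2 (by linarith)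
      have h8 : Real.exp (1 / 2) ≤ 2 := by
        have h9 : Real.exp (1 / 2) ^ 2 = Real.exp 1 := by rw [← Real.exp_nat_mul]; norm_num
        have h10 := Real.exp_one_lt_d9
        nlinarith [Real.exp_pos (1 / 2)]
      exact h7.trans h8
    calc K * Real.exp (a * |z.im|) * Real.exp (z.im ^ 2 / 2) * (a / (1 + (a * z.re) ^ 2) ^ 2) *
          Real.exp (-z.re ^ 2 / 2) ≤ K * Real.exp a * 2 * a * Real.exp (-z.re ^ 2 / 4) := by
          gcongr
      _ = _ := by ring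

end

end

end Pool.Agent.K4H8.JG
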