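import Mathlib
import Pool.Agent.K4H8.JG.Ker

set_option autoImplicit false

/-! Integrals of the kernels. -/

namespace Pool.Agent.K4H8.JG

open Filter Topology MeasureTheory Complex
open Pool.Agent.Y745.SW (VF Wf P_KER)
open Pool.Agent.Y746.OJ (KerOK VH)

noncomputable section

/-- the majorant -/
def gg (a x : ℝ) : ℝ := a * (1 + (a * x) ^ 2)⁻¹

lemma gg_nonneg {a : ℝ} (ha : 0 < a) (x : ℝ) : 0 ≤ gg a x := by unfold gg; positivity

lemma gg_int {a : ℝ} (ha : 0 < a) : Integrable (gg a) := by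
  unfold gg
  exact ((integrable_comp_mul_left_iff (fun x : ℝ => (1 + x ^ 2)⁻¹) ha.ne').2
    integrable_inv_one_add_sq).const_mul a

lemma gg_integral {a : ℝ} (ha : 0 < a) : ∫ x, gg a x = Real.pi := by
  unfold gg
  rw [integral_const_mul, Measure.integral_comp_mul_left (fun x : ℝ => (1 + x ^ 2)⁻¹) a,
    integral_univ_inv_one_add_sq, abs_of_pos (by positivity), smul_eq_mul, ← mul_assoc,
    mul_inv_cancel₀ ha.ne', one_mul]

section

variable {B : ℝ → ℝ} {K : ℝ} (h : KD B K)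

include h

lemma KV_hor {a w : ℝ} (ha : 1 ≤ a) (hw0 : 0 ≤ w) (hw : w ≤ 1 / 2) (x : ℝ) :
    ‖KV B a ((x : ℂ) - (w : ℂ) * I)‖ ≤ 2 * K * Real.exp (a * w) * gg a x := by
  have hK := h.K1
  have ha0 : 0 < a := by linarith
  have h1 := KV_norm h ha ((x : ℂ) - (w : ℂ) * I)
  have e1 : ((x : ℂ) - (w : ℂ) * I).re = x := by simp
  have e2 : ((x : ℂ) - (w : ℂ) * I).im = -w := by simp
  rw [e1, e2, abs_neg, abs_of_nonneg hw0] at h1
  refine h1.trans ?_
  have h2 : Real.exp ((-w) ^ 2 / 2) ≤ 2 := by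
    have h7 : Real.exp ((-w) ^ 2 / 2) ≤ Real.exp (1 / 2) := Real.exp_le_exp.2 (by nlinarith)
    have h8 : Real.exp (1 / 2) ≤ 2 := by
      have h9 : Real.exp (1 / 2) ^ 2 = Real.exp 1 := by rw [← Real.exp_nat_mul]; norm_num
      have h10 := Real.exp_one_lt_d9
      nlinarith [Real.exp_pos (1 / 2)]
    exact h7.trans h8
  have h3 : a / (1 + (a * x) ^ 2) ^ 2 ≤ gg a x := by
    unfold gg
    rw [div_eq_mul_inv]
    refine mul_le_mul_of_nonneg_left ?_ ha0.le
    refine inv_anti₀ (by positivity) ?_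
    nlinarith [sq_nonneg (a * x)]
  have h4 : Real.exp (-x ^ 2 / 2) ≤ 1 := by
    rw [Real.exp_le_one_iff]; nlinarith [sq_nonneg x]
  have h5 := gg_nonneg ha0 x
  calc K * Real.exp (a * w) * Real.exp ((-w) ^ 2 / 2) * (a / (1 + (a * x) ^ 2) ^ 2) * Real.exp (-x ^ 2 / 2) ≤
      K * Real.exp (a * w) * 2 * gg a x * 1 := by gcongr
    _ = _ := by ring

lemma KV_re_le {a : ℝ} (ha : 1 ≤ a) (x : ℝ) : ‖KV B a (x : ℂ)‖ ≤ K * gg a x := by
  have hK := h.K1
  have ha0 : 0 < a := by linarith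
  have h1 := KV_norm h ha (x : ℂ)
  simp only [Complex.ofReal_im, Complex.ofReal_re, abs_zero, mul_zero, Real.exp_zero, mul_one] at h1
  have e0 : Real.exp ((0:ℝ) ^ 2 / 2) = 1 := by norm_num
  rw [e0, mul_one] at h1
  refine h1.trans ?_
  have h3 : a / (1 + (a * x) ^ 2) ^ 2 ≤ gg a x := by
    unfold gg
    rw [div_eq_mul_inv]
    refine mul_le_mul_of_nonneg_left ?_ ha0.le
    refine inv_anti₀ (by positivity) ?_
    nlinarith [sq_nonneg (a * x)]
  have h4 : Real.exp (-x ^ 2 / 2) ≤ 1 := by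
    rw [Real.exp_le_one_iff]; nlinarith [sq_nonneg x]
  have h5 := gg_nonneg ha0 x
  calc K * (a / (1 + (a * x) ^ 2) ^ 2) * Real.exp (-x ^ 2 / 2) ≤ K * gg a x * 1 := by gcongr
    _ = _ := mul_one _

lemma KV_re_le' {a : ℝ} (ha : 1 ≤ a) (x : ℝ) : |x| * ‖KV B a (x : ℂ)‖ ≤ K / a * gg a x := by
  have hK := h.K1
  have ha0 : 0 < a := by linarith
  have h1 := KV_norm h ha (x : ℂ)
  simp only [Complex.ofReal_im, Complex.ofReal_re, abs_zero, mul_zero, Real.exp_zero, mul_one] at h1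
  have e0 : Real.exp ((0:ℝ) ^ 2 / 2) = 1 := by norm_num
  rw [e0, mul_one] at h1
  have h4 : Real.exp (-x ^ 2 / 2) ≤ 1 := by
    rw [Real.exp_le_one_iff]; nlinarith [sq_nonneg x]
  have h6 : |x| * (a / (1 + (a * x) ^ 2) ^ 2) ≤ 1 / a * gg a x := by
    unfold gg
    have e3 : 1 / a * (a * (1 + (a * x) ^ 2)⁻¹) = (1 + (a * x) ^ 2) / (1 + (a * x) ^ 2) ^ 2 := by
      field_simp
    rw [e3, mul_div_assoc']
    refine div_le_div_of_nonneg_right ?_ (by positivity)
    have e4 : |x| * a = |a * x| := by rw [abs_mul, abs_of_pos ha0, mul_comm]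
    rw [e4]
    nlinarith [sq_nonneg (|a * x| - 1), sq_abs (a * x), abs_nonneg (a * x)]
  calc |x| * ‖KV B a (x : ℂ)‖ ≤ |x| * (K * (a / (1 + (a * x) ^ 2) ^ 2) * Real.exp (-x ^ 2 / 2)) :=
        mul_le_mul_of_nonneg_left h1 (abs_nonneg _)
    _ ≤ |x| * (K * (a / (1 + (a * x) ^ 2) ^ 2) * 1) := by gcongr
    _ = K * (|x| * (a / (1 + (a * x) ^ 2) ^ 2)) := by ring
    _ ≤ K * (1 / a * gg a x) := mul_le_mul_of_nonneg_left h6 (by linarith)
    _ = _ := by ring

lemma KV_cont (a : ℝ) : Continuous (fun x : ℝ => KV B a (x : ℂ)) :=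
  (KV_diff h a).continuous.comp Complex.continuous_ofReal

lemma KV_int {a : ℝ} (ha : 1 ≤ a) : Integrable (fun x : ℝ => KV B a (x : ℂ)) :=
  ((gg_int (by linarith : 0 < a)).const_mul K).mono' (KV_cont h a).aestronglyMeasurable
    (Eventually.of_forall fun x => KV_re_le h ha x)

lemma KV_L1 {a : ℝ} (ha : 1 ≤ a) : ∫ x : ℝ, ‖KV B a (x : ℂ)‖ ≤ K * Real.pi := by
  have ha0 : 0 < a := by linarith
  calc ∫ x : ℝ, ‖KV B a (x : ℂ)‖ ≤ ∫ x : ℝ, K * gg a x :=
        integral_mono (KV_int h ha).norm ((gg_int ha0).const_mul K) (fun x => KV_re_le h ha x)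
    _ = K * Real.pi := by rw [integral_const_mul, gg_integral ha0]

lemma KV_int1 {a : ℝ} (ha : 1 ≤ a) : Integrable (fun x : ℝ => |x| * ‖KV B a (x : ℂ)‖) :=
  ((gg_int (by linarith : 0 < a)).const_mul (K / a)).mono'
    (continuous_abs.mul (KV_cont h a).norm).aestronglyMeasurable
    (Eventually.of_forall fun x => by
      rw [Real.norm_of_nonneg (by positivity)]
      exact KV_re_le' h ha x)

lemma KV_M1 {a : ℝ} (ha : 1 ≤ a) : ∫ x : ℝ, |x| * ‖KV B a (x : ℂ)‖ ≤ K / a * Real.pi := by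
  have ha0 : 0 < a := by linarith
  calc ∫ x : ℝ, |x| * ‖KV B a (x : ℂ)‖ ≤ ∫ x : ℝ, K / a * gg a x :=
        integral_mono (KV_int1 h ha) ((gg_int ha0).const_mul _) (fun x => KV_re_le' h ha x)
    _ = K / a * Real.pi := by rw [integral_const_mul, gg_integral ha0]

lemma norm_char (ξ v : ℝ) : ‖cexp (-(ξ : ℂ) * (v : ℂ) * I)‖ = 1 := by
  rw [Complex.norm_exp]
  simp

lemma VH_le {a : ℝ} (ha : 1 ≤ a) (ξ : ℝ) : ‖VH (KV B a) ξ‖ ≤ K * Real.pi := by
  unfold VH
  refine (norm_integral_le_integral_norm _).trans (le_trans (le_of_eq ?_) (KV_L1 h ha))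
  congr 1
  funext v
  rw [norm_mul, norm_char h, mul_one]

lemma VH_int {a : ℝ} (ha : 1 ≤ a) (ξ : ℝ) :
    Integrable (fun v : ℝ => KV B a (v : ℂ) * cexp (-(ξ : ℂ) * (v : ℂ) * I)) := by
  refine (KV_int h ha).norm.mono' ?_ (Eventually.of_forall fun v => ?_)
  · exact ((KV_cont h a).mul (by fun_prop)).aestronglyMeasurable
  · rw [norm_mul, norm_char h, mul_one]

lemma VH_diff {a : ℝ} (ha : 1 ≤ a) (ξ : ℝ) : ‖VH (KV B a) ξ - VH (KV B a) 0‖ ≤ |ξ| * (K / a * Real.pi) := by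
  have e : VH (KV B a) ξ - VH (KV B a) 0 =
      ∫ v : ℝ, KV B a (v : ℂ) * (cexp (-(ξ : ℂ) * (v : ℂ) * I) - 1) := by
    have h0 := VH_int h ha 0
    unfold VH
    rw [← integral_sub (VH_int h ha ξ) h0]
    congr 1
    funext v
    simp
    ring
  rw [e]
  have hle : ∀ v : ℝ, ‖KV B a (v : ℂ) * (cexp (-(ξ : ℂ) * (v : ℂ) * I) - 1)‖ ≤
      |ξ| * (|v| * ‖KV B a (v : ℂ)‖) := by
    intro v
    rw [norm_mul]
    have h1 : ‖cexp (-(ξ : ℂ) * (v : ℂ) * I) - 1‖ ≤ |ξ| * |v| := by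
      have h2 := Real.norm_exp_I_mul_ofReal_sub_one_le (x := -(ξ * v))
      have e2 : I * ((-(ξ * v) : ℝ) : ℂ) = -(ξ : ℂ) * (v : ℂ) * I := by push_cast; ring
      rw [e2, Real.norm_eq_abs, abs_neg, abs_mul] at h2
      exact h2
    calc ‖KV B a (v : ℂ)‖ * ‖cexp (-(ξ : ℂ) * (v : ℂ) * I) - 1‖ ≤ ‖KV B a (v : ℂ)‖ * (|ξ| * |v|) :=
          mul_le_mul_of_nonneg_left h1 (norm_nonneg _)
      _ = _ := by ring
  refine (norm_integral_le_of_norm_le ((KV_int1 h ha).const_mul |ξ|) (Eventually.of_forall hle)).trans ?_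
  rw [integral_const_mul]
  exact mul_le_mul_of_nonneg_left (KV_M1 h ha) (abs_nonneg _)

/-- the total mass of the kernel -/
def I0 (B : ℝ → ℝ) (a : ℝ) : ℝ := ∫ x : ℝ, (KV B a (x : ℂ)).re

lemma VH_zero {a : ℝ} (ha : 1 ≤ a) : VH (KV B a) 0 = (I0 B a : ℂ) := by
  unfold VH I0
  have e : ∀ v : ℝ, KV B a (v : ℂ) * cexp (-((0 : ℝ) : ℂ) * (v : ℂ) * I) = ((KV B a (v : ℂ)).re : ℂ) := by
    intro v
    simp only [Complex.ofReal_zero, neg_zero, zero_mul, Complex.exp_zero, mul_one]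
    rw [KV_real h, Complex.ofReal_re]
  simp only [e]
  exact integral_complex_ofReal

lemma I0_ge {a : ℝ} (ha : 4 ≤ a) : 1 ≤ I0 B a := by
  have ha0 : 0 < a := by linarith
  unfold I0
  have hint : Integrable (fun x : ℝ => (KV B a (x : ℂ)).re) := (KV_int h (by linarith)).re
  have hre : ∀ x : ℝ, (KV B a (x : ℂ)).re = a * (VF B ((a * x : ℝ) : ℂ)).re * Real.exp (-x ^ 2 / 2) := by
    intro x
    rw [KV_real h]
    exact Complex.ofReal_re _
  have hnn : ∀ x : ℝ, 0 ≤ (KV B a (x : ℂ)).re := by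
    intro x
    rw [hre]
    have := (h.real (a * x)).2
    positivity
  have h1 : ∫ x in Set.Icc (-(1 / a)) (3 / a), a * (1 / 4) ≤ ∫ x in Set.Icc (-(1 / a)) (3 / a), (KV B a (x : ℂ)).re := by
    refine setIntegral_mono_on (integrable_const _) hint.integrableOn measurableSet_Icc fun x hx => ?_
    rw [hre]
    have hx1 : |a * x| ≤ 3 := by
      rw [abs_le]
      constructor
      · have := mul_le_mul_of_nonneg_left hx.1 ha0.le
        have e : a * (-(1 / a)) = -1 := by field_simp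
        linarith
      · have := mul_le_mul_of_nonneg_left hx.2 ha0.le
        have e : a * (3 / a) = 3 := by field_simp
        linarith
    have h2 := h.ge (a * x) (by linarith)
    have h3 : 1 / 2 ≤ Real.exp (-x ^ 2 / 2) := by
      have h4 : x ^ 2 ≤ 1 := by
        have h5 : |x| ≤ 1 := by
          rw [abs_mul, abs_of_pos ha0] at hx1
          have := abs_nonneg x
          nlinarith
        have := abs_le.1 h5
        nlinarith [this.1, this.2]
      have h6 : Real.exp (-(1 / 2)) ≤ Real.exp (-x ^ 2 / 2) := Real.exp_le_exp.2 (by linarith)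
      have h7 : 1 / 2 ≤ Real.exp (-(1 / 2)) := by
        have := Real.add_one_le_exp (-(1 / 2) : ℝ)
        linarith
      linarith
    have h8 : a * (1 / 2) ≤ a * (VF B ((a * x : ℝ) : ℂ)).re := mul_le_mul_of_nonneg_left h2 ha0.le
    have h9 : a * (1 / 2) * (1 / 2) ≤ a * (VF B ((a * x : ℝ) : ℂ)).re * Real.exp (-x ^ 2 / 2) :=
      mul_le_mul h8 h3 (by norm_num) (by have := (h.real (a * x)).2; positivity)
    linarith
  have h2 : ∫ x in Set.Icc (-(1 / a)) (3 / a), (KV B a (x : ℂ)).re ≤ ∫ x : ℝ, (KV B a (x : ℂ)).re :=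
    setIntegral_le_integral hint (Eventually.of_forall hnn)
  have h3 : ∫ _ in Set.Icc (-(1 / a)) (3 / a), a * (1 / 4) = 1 := by
    rw [setIntegral_const, Real.volume_real_Icc_of_le (by
      have : 0 < 1 / a := by positivity
      have : 0 < 3 / a := by positivity
      linarith), smul_eq_mul]
    field_simp
    ring
  linarith

end

end

end Pool.Agent.K4H8.JG
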