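import Mathlib
import Pool.Agent.K4H8.JG.Ker2
import Pool.Agent.H370R2.Count
import Pool.Agent.H370R2.DirGood

set_option autoImplicit false

/-! Smoothing of the remainder term of the counting function of the zeros. -/

namespace Pool.Agent.K4H8.JG

open Filter Topology MeasureTheory Complex Finset
open H370 (zset mult NN Zf zz mem_Zf good_zeta zz_im NN_eq NN_add NN_mono)

noncomputable section

/-- the main term of the counting function of the zeros -/
def Em (t : ℝ) : ℝ := t / (2 * Real.pi) * Real.log (t / (2 * Real.pi)) - t / (2 * Real.pi)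

/-- the remainder term of the counting function of the zeros -/
def E1 (t : ℝ) : ℝ := (NN riemannZeta 1 t : ℝ) - Em t

/-- the weighted local count of the zeros -/
def W0 (T a t : ℝ) : ℝ := ∑ s ∈ Zf riemannZeta T (2 * T), (mult riemannZeta s : ℝ) *
  (1 + (a * (s.im - t)) ^ 2)⁻¹

lemma W0_nonneg (T a t : ℝ) : 0 ≤ W0 T a t := sum_nonneg fun s _ => by positivity

lemma W0_cont (T a : ℝ) : Continuous (W0 T a) := by
  unfold W0
  refine continuous_finsetSum _ fun s _ => continuous_const.mul (Continuous.inv₀ (by fun_prop) fun x => ?_)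
  positivity

lemma Em_diff {T : ℝ} (hT : 10 ≤ T) {x y : ℝ} (hx1 : T ≤ x) (hx2 : x ≤ 2 * T) (hy1 : T ≤ y) (hy2 : y ≤ 2 * T) :
    |Em y - Em x| ≤ Real.log T * |y - x| := by
  have hpi := Real.pi_gt_three
  have hpi4 := Real.pi_lt_four
  have hd : ∀ z ∈ Set.Icc T (2 * T), HasDerivWithinAt Em (Real.log (z / (2 * Real.pi)) / (2 * Real.pi))
      (Set.Icc T (2 * T)) z := by
    intro z hz
    have hz0 : 0 < z := by linarith [hz.1]
    have h1 : HasDerivAt (fun z : ℝ => z / (2 * Real.pi)) (1 / (2 * Real.pi)) z := by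
      simpa using (hasDerivAt_id z).div_const (2 * Real.pi)
    have h2 := h1.log (by positivity)
    have h3 := (h1.mul h2).sub h1
    have h4 : HasDerivAt Em (1 / (2 * Real.pi) * Real.log (z / (2 * Real.pi)) +
      z / (2 * Real.pi) * (1 / (2 * Real.pi) / (z / (2 * Real.pi))) - 1 / (2 * Real.pi)) z := h3
    refine (h4.congr_deriv ?_).hasDerivWithinAt
    field_simp
    ring
  have hb : ∀ z ∈ Set.Icc T (2 * T), ‖Real.log (z / (2 * Real.pi)) / (2 * Real.pi)‖ ≤ Real.log T := by
    intro z hz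
    have hz0 : 0 < z := by linarith [hz.1]
    have h1 : 1 ≤ z / (2 * Real.pi) := by
      rw [le_div_iff₀ (by positivity)]
      linarith [hz.1]
    have h2 : z / (2 * Real.pi) ≤ T := by
      rw [div_le_iff₀ (by positivity)]
      nlinarith [hz.2]
    have h3 := Real.log_nonneg h1
    have h4 : Real.log (z / (2 * Real.pi)) ≤ Real.log T := Real.log_le_log (by positivity) h2
    rw [Real.norm_of_nonneg (by positivity)]
    exact (div_le_self h3 (by linarith)).trans h4
  have := Convex.norm_image_sub_le_of_norm_hasDerivWithin_le hd hb (convex_Icc _ _) ⟨hx1, hx2⟩ ⟨hy1, hy2⟩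
  simpa using this

lemma NN_local {T a : ℝ} (hT : 10 ≤ T) {x y t : ℝ} (hx : T ≤ x) (hxy : x ≤ y) (hy : y ≤ 2 * T)
    (ht1 : x ≤ t) (ht2 : t ≤ y) :
    (NN riemannZeta x y : ℝ) ≤ (1 + (a * (y - x)) ^ 2) * W0 T a t := by
  rw [NN_eq good_zeta (by linarith)]
  unfold W0
  rw [mul_sum]
  push_cast
  have hsub : Zf riemannZeta x y ⊆ Zf riemannZeta T (2 * T) := by
    intro s hs
    rw [mem_Zf good_zeta (by linarith)] at hs
    rw [mem_Zf good_zeta (by linarith)]
    exact ⟨hs.1, hs.2.1, hx.trans_lt hs.2.2.1, hs.2.2.2.1.trans hy, hs.2.2.2.2⟩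
  refine le_trans (sum_le_sum fun s hs => ?_) (sum_le_sum_of_subset_of_nonneg hsub fun s _ _ => by positivity)
  rw [mem_Zf good_zeta (by linarith)] at hs
  have h1 : |s.im - t| ≤ y - x := by
    rw [abs_le]
    constructor <;> linarith [hs.2.2.1, hs.2.2.2.1]
  have h2 : (a * (s.im - t)) ^ 2 ≤ (a * (y - x)) ^ 2 := by
    rw [mul_pow, mul_pow]
    refine mul_le_mul_of_nonneg_left ?_ (sq_nonneg a)
    rw [← sq_abs (s.im - t)]
    exact pow_le_pow_left₀ (abs_nonneg _) h1 2
  have h3 : 1 ≤ (1 + (a * (y - x)) ^ 2) * (1 + (a * (s.im - t)) ^ 2)⁻¹ := by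
    rw [← div_eq_mul_inv, le_div_iff₀ (by positivity)]
    linarith
  have h4 : (0:ℝ) ≤ (mult riemannZeta s : ℝ) := Nat.cast_nonneg _
  calc (mult riemannZeta s : ℝ) = (mult riemannZeta s : ℝ) * 1 := (mul_one _).symm
    _ ≤ (mult riemannZeta s : ℝ) * ((1 + (a * (y - x)) ^ 2) * (1 + (a * (s.im - t)) ^ 2)⁻¹) :=
        mul_le_mul_of_nonneg_left h3 h4
    _ = _ := by ring

lemma E1_diff {T a : ℝ} (hT : 10 ≤ T) {t y : ℝ} (ht1 : T ≤ t) (ht2 : t ≤ 2 * T) (hy1 : T ≤ y) (hy2 : y ≤ 2 * T) :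
    |E1 y - E1 t| ≤ (1 + (a * (y - t)) ^ 2) * W0 T a t + Real.log T * |y - t| := by
  have h1 := Em_diff hT ht1 ht2 hy1 hy2
  have h2 : |(NN riemannZeta 1 y : ℝ) - (NN riemannZeta 1 t : ℝ)| ≤ (1 + (a * (y - t)) ^ 2) * W0 T a t := by
    rcases le_total t y with h | h
    · have h3 := NN_add good_zeta (by linarith : (1:ℝ) ≤ 1) (by linarith : 1 ≤ t) h
      rw [h3]
      push_cast
      rw [add_sub_cancel_left, abs_of_nonneg (Nat.cast_nonneg _)]
      exact NN_local hT ht1 h hy2 le_rfl h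
    · have h3 := NN_add good_zeta (by linarith : (1:ℝ) ≤ 1) (by linarith : 1 ≤ y) h
      rw [h3]
      push_cast
      rw [sub_add_cancel_left, abs_neg, abs_of_nonneg (Nat.cast_nonneg _)]
      have h4 := NN_local (a := a) hT hy1 h ht2 h le_rfl
      have h5 : (a * (t - y)) ^ 2 = (a * (y - t)) ^ 2 := by ring
      rwa [h5] at h4
  have e : E1 y - E1 t = ((NN riemannZeta 1 y : ℝ) - (NN riemannZeta 1 t : ℝ)) - (Em y - Em t) := by
    unfold E1; ring
  rw [e]
  exact (abs_sub _ _).trans (add_le_add h2 h1)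

lemma W0_int {T a : ℝ} (ha : 0 < a) {t1 t2 : ℝ} (h12 : t1 ≤ t2) (hT : 10 ≤ T) :
    ∫ t in t1..t2, W0 T a t ≤ Real.pi / a * (NN riemannZeta T (2 * T) : ℝ) := by
  have e : ∀ t : ℝ, W0 T a t = ∑ s ∈ Zf riemannZeta T (2 * T), (mult riemannZeta s : ℝ) / a * gg a (s.im - t) := by
    intro t
    unfold W0 gg
    refine sum_congr rfl fun s _ => ?_
    field_simp
  simp only [e]
  have hg : Continuous (gg a) := by
    unfold gg
    refine continuous_const.mul (Continuous.inv₀ (by fun_prop) fun x => ?_)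
    positivity
  rw [intervalIntegral.integral_finsetSum (fun s _ => Continuous.intervalIntegrable (by fun_prop) _ _),
    NN_eq good_zeta (by linarith)]
  push_cast
  rw [mul_sum]
  refine sum_le_sum fun s _ => ?_
  rw [intervalIntegral.integral_const_mul]
  have h1 : ∫ t in t1..t2, gg a (s.im - t) ≤ Real.pi := by
    have hi : Integrable (fun t : ℝ => gg a (s.im - t)) := (gg_int ha).comp_sub_left s.im
    rw [intervalIntegral.integral_of_le h12]
    calc ∫ t in Set.Ioc t1 t2, gg a (s.im - t) ≤ ∫ t : ℝ, gg a (s.im - t) :=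
          setIntegral_le_integral hi (Eventually.of_forall fun t => gg_nonneg ha _)
      _ = Real.pi := by rw [integral_sub_left_eq_self (gg a), gg_integral ha]
  have h2 : (0:ℝ) ≤ (mult riemannZeta s : ℝ) := Nat.cast_nonneg _
  calc (mult riemannZeta s : ℝ) / a * ∫ t in t1..t2, gg a (s.im - t) ≤ (mult riemannZeta s : ℝ) / a * Real.pi :=
        mul_le_mul_of_nonneg_left h1 (by positivity)
    _ = _ := by ring

end

end Pool.Agent.K4H8.JG
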