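import Mathlib
import Pool.Agent.K4H8.JG.Ind2
import Pool.Agent.K4H8.JG.Shr
import Pool.Agent.K4H8.JG.Smo
import Pool.Agent.Y745.SW.Blk7

set_option autoImplicit false

/-! The joint law in dyadic blocks. -/

namespace Pool.Agent.K4H8.JG

open Filter Topology MeasureTheory Complex H370 TH803UC TH803CL ProbabilityTheory
open Pool.Agent.Y745.SW

noncomputable section

/-- the remainder term is close to the sum over the small primes (statement) -/
def P_BE : Prop := ∀ h ε η : ℝ, 0 < h → 0 < ε → 0 < η → ∀ᶠ T : ℝ in atTop, ∃ Bd : Set ℝ, MeasurableSet Bd ∧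
      Bd ⊆ Set.Icc T (2 * T) ∧ volume.real Bd ≤ ε * T ∧
      ∀ t ∈ Set.Icc (T + Real.log T) (2 * T - Real.log T), t ∉ Bd → ∀ u : ℝ, |u| ≤ h / Real.log T →
        |E1 (t + u) - (Px T t).im / Real.pi| ≤ η * Real.sqrt (Real.log (Real.log T))

/-- the normalised pair at height `T` -/
def nrm2 (T y e : ℝ) : ℂ :=
  ⟨nrm T y, Real.sqrt 2 * (Real.pi * e / Real.sqrt (Real.log (Real.log T)))⟩

open Classical in
/-- the joint law in a dyadic block -/
theorem block_law2 (hζ : GoodL riemannZeta) (hBLK : P_BLK) (hIND : P_IND2) (hBV : P_BV) (hDER : P_DER)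
    (hBE : P_BE) {V : Set ℂ} (hVm : MeasurableSet V) (hVf : stdGaussian ℂ (frontier V) = 0)
    {r ε : ℝ} (hr : 0 < r) (hε : 0 < ε) : ∃ δ : ℝ, 0 < δ ∧ δ ≤ 1 / 10 ∧ ∀ᶠ T : ℝ in atTop,
    ∃ U1 U2 : ℝ, T ≤ U1 ∧ U1 ≤ T + 1 ∧ 2 * T - 1 ≤ U2 ∧ U2 ≤ 2 * T ∧
    ((2 - cMTinv) * (stdGaussian ℂ).real V - ε) * (T * (Real.log T / (2 * Real.pi))) ≤
      (((isoS U1 U2 (δ / Real.log T)).filter (fun s => T + 2 ≤ s.im ∧ s.im ≤ 2 * T - 2 ∧
        ∃ z ∈ V, ‖nrm2 T (Real.log ‖deriv riemannZeta s‖) (E1 s.im) - z‖ < r)).card : ℝ) := by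
  obtain ⟨δ, h, εs, τ, B, hδ, hδ1, hh, hεs, hεs2, hτ, hτε, hB, hblk⟩ := hBLK (min (ε / 8) 1) (by positivity)
    (min_le_right _ _)
  refine ⟨δ, hδ, hδ1, ?_⟩
  obtain ⟨c, hc, C0, T0, hC0, hT0, hef⟩ := explicit_formula hζ
  obtain ⟨⟨K0, hK0⟩, hblk⟩ := hblk c C0 hc
  set K1 : ℝ := |K0| + 1 with hK1
  have hK10 : 0 < K1 := by positivity
  set δ' : ℝ := min (ε / 32) (1 / (8 * K1)) with hδ'
  have hδ'0 : 0 < δ' := by positivity
  have hδ'1 : δ' ≤ ε / 32 := min_le_left _ _
  have hδ'2 : δ' * K1 ≤ 1 / 8 := by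
    have : δ' ≤ 1 / (8 * K1) := min_le_right _ _
    calc δ' * K1 ≤ 1 / (8 * K1) * K1 := mul_le_mul_of_nonneg_right this hK10.le
      _ = 1 / 8 := by field_simp
  have hδ'3 : δ' ≤ 1 / 8 := by
    have : 1 ≤ K1 := by rw [hK1]; linarith [abs_nonneg K0]
    nlinarith
  have h4τ : 4 * τ ≤ 1 := by linarith
  have hind := hIND Rf Rf_cont (fun x _ => Rf_nonneg x) B hB c hc εs τ (4 * τ) hεs hεs2 hτ hτε le_rfl h4τ
    ⟨K0, hK0⟩ V hVm hVf δ' hδ'0
  set ε3 : ℝ := min (ε / (16 * Real.pi)) (r / 8) with hε3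
  have hpi := Real.pi_pos
  have hε30 : 0 < ε3 := by positivity
  have hbv := hBV h δ' hh hδ'0
  have hbe := hBE h δ' (r / 20) hh hδ'0 (by positivity)
  have hder := hDER δ ε3 hδ hδ1 hε30
  have hσ : ∀ᶠ T : ℝ in atTop, 16 / r ≤ Real.sqrt (Real.log (Real.log T)) :=
    (Real.tendsto_sqrt_atTop.comp loglog_tendsto).eventually_ge_atTop _
  filter_upwards [hblk, hK0, hind, hbv, hbe, hder, hσ, Real.tendsto_log_atTop.eventually_ge_atTop (h + 10),
    eventually_ge_atTop T0, eventually_ge_atTop 10] with T tblk tK0 tind tbv tbe tder tσ tL tT0 tT1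
  obtain ⟨U1, U2, hU1, hU1', hU2, hU2', heft⟩ := hef T tT0
  refine ⟨U1, U2, hU1, hU1', hU2, hU2', ?_⟩
  have hefd : EFD c C0 T U1 U2 := ⟨hc, hU1, hU1', hU2, hU2', heft⟩
  obtain ⟨tI1, tI2⟩ := tind
  obtain ⟨Bd, hBdm, hBd1, hBd2, hBd3⟩ := tbv
  obtain ⟨Be, hBem, hBe1, hBe2, hBe3⟩ := tbe
  set L := Real.log T with hL
  set σ := Real.sqrt (Real.log L) with hσd
  have hL0 : 0 < L := by linarith
  have hT0 : 0 < T := by linarith
  have hσ0 : 0 < σ := lt_of_lt_of_le (by positivity) tσ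
  set G' : ℝ := (stdGaussian ℂ).real V with hG'
  have hG'0 : 0 ≤ G' := measureReal_nonneg
  have hG'1 : G' ≤ 1 := measureReal_le_one
  set SS := SV V T with hSS
  have tm : MeasurableSet SS := by
    rw [hSS]
    exact measurableSet_Icc.inter ((NP_cont T).measurable hVm)
  have hSSI : SS ⊆ Set.Icc (T + L) (2 * T - L) := fun t ht => ht.1
  have hSSf : volume SS ≠ ⊤ := ne_top_of_le_ne_top (by simp) (measure_mono hSSI)
  set S := SS \ (Bd ∪ Be) with hS
  have hSm : MeasurableSet S := tm.diff (hBdm.union hBem)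
  have hSI : S ⊆ Set.Icc (T + L) (2 * T - L) := fun t ht => hSSI ht.1
  -- the measure of `S`
  have hvol : volume.real SS ≤ volume.real S + (volume.real Bd + volume.real Be) := by
    have h1 : SS ⊆ S ∪ (Bd ∪ Be) := fun t ht => by
      by_cases h : t ∈ Bd ∪ Be
      · exact Or.inr h
      · exact Or.inl ⟨ht, h⟩
    have hSf : volume S ≠ ⊤ := ne_top_of_le_ne_top (by simp) (measure_mono hSI)
    have hBf : volume Bd ≠ ⊤ := ne_top_of_le_ne_top (by simp) (measure_mono hBd1)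
    have hBf' : volume Be ≠ ⊤ := ne_top_of_le_ne_top (by simp) (measure_mono hBe1)
    have hBB : volume (Bd ∪ Be) < ⊤ := measure_union_lt_top (lt_top_iff_ne_top.2 hBf) (lt_top_iff_ne_top.2 hBf')
    refine (measureReal_mono h1 ?_).trans ((measureReal_union_le _ _).trans
      (add_le_add le_rfl (measureReal_union_le _ _)))
    exact (measure_union_lt_top (lt_top_iff_ne_top.2 hSf) hBB).ne
  have hSlow : T * G' - 3 * δ' * T ≤ volume.real S := by
    have := (abs_le.1 tI1).1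
    linarith
  -- the weight
  have hZ0 : 0 ≤ Zq Rf c B εs τ (4 * τ) T := by
    unfold Zq
    refine mul_nonneg (by norm_num) (intervalIntegral.integral_nonneg h4τ fun y hy => ?_)
    exact mul_nonneg (Rf_nonneg y) (Finset.sum_nonneg fun n _ => by positivity)
  have hZK : Zq Rf c B εs τ (4 * τ) T ≤ K1 := by
    have := le_abs_self K0
    rw [hK1]; linarith
  have hDqc : Continuous (fun t : ℝ => Dq Rf c B εs τ (4 * τ) T t) :=
    Dq_cont hB hεs hεs2 hτ hτε le_rfl h4τ Rf_cont hL0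
  have hDq0 : ∀ t, 0 ≤ Dq Rf c B εs τ (4 * τ) T t := fun t =>
    Dq_nonneg hεs hεs2 hτ hτε le_rfl h4τ (fun x _ => Rf_nonneg x) t
  have hDqS : (∫ t in S, Dq Rf c B εs τ (4 * τ) T t) ≤ volume.real S * Zq Rf c B εs τ (4 * τ) T + T := by
    have h1 : (∫ t in S, Dq Rf c B εs τ (4 * τ) T t) ≤ ∫ t in SS, Dq Rf c B εs τ (4 * τ) T t :=
      setIntegral_mono_set ((hDqc.continuousOn.integrableOn_compact isCompact_Icc).mono_set hSSI)
        (Filter.Eventually.of_forall hDq0) (Filter.Eventually.of_forall fun t ht => ht.1)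
    have h2 := (abs_le.1 tI2).2
    have h3 : T * G' * Zq Rf c B εs τ (4 * τ) T ≤ (volume.real S + 3 * δ' * T) * Zq Rf c B εs τ (4 * τ) T :=
      mul_le_mul_of_nonneg_right (by linarith) hZ0
    have h4 : 3 * δ' * T * Zq Rf c B εs τ (4 * τ) T ≤ 3 * T * (1 / 8) := by
      have h5 : δ' * Zq Rf c B εs τ (4 * τ) T ≤ 1 / 8 :=
        (mul_le_mul_of_nonneg_left hZK hδ'0.le).trans hδ'2
      nlinarith
    nlinarith
  have hmain := tblk U1 U2 hefd S hSm hSI hDqS
  have hbad := tder U1 U2 hU1 hU1' hU2 hU2'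
  -- the counting
  set I := isoS U1 U2 (δ / L) with hI
  set near := I.filter (fun s => ∃ t ∈ S, |s.im - t| ≤ h / L) with hnear
  set bad := I.filter (fun s => T + 2 ≤ s.im ∧ s.im ≤ 2 * T - 2 ∧ ε3 * σ < |Real.log ‖deriv riemannZeta s‖ -
    Real.log L - (Px T s.im).re|) with hbadd
  set good := I.filter (fun s => T + 2 ≤ s.im ∧ s.im ≤ 2 * T - 2 ∧
        ∃ z ∈ V, ‖nrm2 T (Real.log ‖deriv riemannZeta s‖) (E1 s.im) - z‖ < r) with hgood
  have hsub : near ⊆ good ∪ bad := by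
    intro s hs
    rw [hnear, Finset.mem_filter] at hs
    obtain ⟨hsI, t, htS, hst⟩ := hs
    obtain ⟨⟨⟨ht1, ht2⟩, ht3⟩, htB⟩ := htS
    have htB1 : t ∉ Bd := fun h => htB (Or.inl h)
    have htB2 : t ∉ Be := fun h => htB (Or.inr h)
    have hhL : h / L ≤ 1 := by rw [div_le_one hL0]; linarith
    have hst' := abs_le.1 (hst.trans hhL)
    have hs1 : T + 2 ≤ s.im := by linarith [hst'.1]
    have hs2 : s.im ≤ 2 * T - 2 := by linarith [hst'.2]
    rw [Finset.mem_union]
    by_cases hbd : ε3 * σ < |Real.log ‖deriv riemannZeta s‖ - Real.log L - (Px T s.im).re|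
    · right
      rw [hbadd, Finset.mem_filter]
      exact ⟨hsI, hs1, hs2, hbd⟩
    · left
      rw [hgood, Finset.mem_filter]
      push Not at hbd
      have h1 := hBd3 t ⟨by linarith, by linarith⟩ htB1 (s.im - t) hst
      rw [add_sub_cancel] at h1
      have h2 := (Complex.abs_re_le_norm _).trans h1
      rw [Complex.sub_re] at h2
      set y := Real.log ‖deriv riemannZeta s‖ with hy
      have h3 : |(y - Real.log L) - (Px T t).re| ≤ ε3 * σ + 1 := by
        have e : (y - Real.log L) - (Px T t).re = (y - Real.log L - (Px T s.im).re) +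
          ((Px T s.im).re - (Px T t).re) := by ring
        rw [e]
        exact (abs_add_le _ _).trans (add_le_add hbd h2)
      have h4 : |(y - Real.log L) / σ - (Px T t).re / σ| ≤ ε3 + 1 / σ := by
        rw [← sub_div, abs_div, abs_of_pos hσ0, div_le_iff₀ hσ0]
        refine h3.trans (le_of_eq ?_)
        field_simp
      have h5 : 1 / σ ≤ r / 16 := by
        rw [div_le_div_iff₀ hσ0 (by norm_num)]
        rw [div_le_iff₀ hr] at tσ
        linarith
      have h6 : ε3 ≤ r / 8 := min_le_right _ _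
      have h7 : Real.sqrt 2 ≤ 1.42 := by
        rw [Real.sqrt_le_left (by norm_num)]; norm_num
      have h8 := Real.sqrt_nonneg 2
      have h9 : |nrm T y - Real.sqrt 2 * ((Px T t).re / σ)| ≤ r / 2 := by
        unfold nrm
        rw [← hL, ← hσd, ← mul_sub, abs_mul, abs_of_nonneg h8]
        calc Real.sqrt 2 * |(y - Real.log L) / σ - (Px T t).re / σ| ≤ 1.42 * (ε3 + 1 / σ) := by gcongr
          _ ≤ r / 2 := by linarith
      have h10 := hBe3 t ⟨ht1, ht2⟩ htB2 (s.im - t) hst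
      rw [add_sub_cancel] at h10
      have h11 : |Real.sqrt 2 * (Real.pi * E1 s.im / σ) - Real.sqrt 2 * ((Px T t).im / σ)| ≤ r / 4 := by
        have e : Real.sqrt 2 * (Real.pi * E1 s.im / σ) - Real.sqrt 2 * ((Px T t).im / σ) =
            Real.sqrt 2 * Real.pi / σ * (E1 s.im - (Px T t).im / Real.pi) := by
          field_simp
        rw [e, abs_mul, abs_of_nonneg (by positivity)]
        calc Real.sqrt 2 * Real.pi / σ * |E1 s.im - (Px T t).im / Real.pi| ≤
            Real.sqrt 2 * Real.pi / σ * (r / 20 * σ) := mul_le_mul_of_nonneg_left h10 (by positivity)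
          _ = Real.sqrt 2 * Real.pi * (r / 20) := by field_simp
          _ ≤ 1.42 * 3.15 * (r / 20) := by
              have := Real.pi_lt_d2
              gcongr
          _ ≤ r / 4 := by linarith
      refine ⟨hsI, hs1, hs2, NP T t, ht3, ?_⟩
      have e2 : NP T t = ⟨Real.sqrt 2 * ((Px T t).re / σ), Real.sqrt 2 * ((Px T t).im / σ)⟩ := by
        unfold NP
        rw [← hL, ← hσd]
        apply Complex.ext
        · rw [Complex.re_ofReal_mul, Complex.div_ofReal_re]
        · rw [Complex.im_ofReal_mul, Complex.div_ofReal_im]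
      rw [e2]
      unfold nrm2
      rw [← hL, ← hσd]
      refine (Complex.norm_le_abs_re_add_abs_im _).trans_lt ?_
      rw [Complex.sub_re, Complex.sub_im]
      show |nrm T y - Real.sqrt 2 * ((Px T t).re / σ)| +
        |Real.sqrt 2 * (Real.pi * E1 s.im / σ) - Real.sqrt 2 * ((Px T t).im / σ)| < r
      linarith
  have hcard : (near.card : ℝ) ≤ good.card + bad.card := by
    exact_mod_cast (Finset.card_le_card hsub).trans (Finset.card_union_le _ _)
  -- conclusion
  have hcM1 : 1 < cMTinv := cMTinv_gt_one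
  have hcM2 := cMTinv_lt
  have hlow : ((2 - cMTinv) * volume.real S - min (ε / 8) 1 * T) * (L / (2 * Real.pi)) ≥
      ((2 - cMTinv) * G' - ε / 2) * (T * (L / (2 * Real.pi))) := by
    have e : ((2 - cMTinv) * G' - ε / 2) * (T * (L / (2 * Real.pi))) =
      (((2 - cMTinv) * G' - ε / 2) * T) * (L / (2 * Real.pi)) := by ring
    rw [e]
    refine mul_le_mul_of_nonneg_right ?_ (by positivity)
    have h1 : min (ε / 8) 1 * T ≤ ε / 8 * T := mul_le_mul_of_nonneg_right (min_le_left _ _) hT0.le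
    have h2 : (2 - cMTinv) * (T * G' - 3 * δ' * T) ≤ (2 - cMTinv) * volume.real S :=
      mul_le_mul_of_nonneg_left hSlow (by linarith)
    have h4 : (2 - cMTinv) * (3 * δ' * T) ≤ 1 * (3 * (ε / 32) * T) := by
      have : 2 - cMTinv ≤ 1 := by linarith
      gcongr
    nlinarith
  have hε3b : ε3 * (T * L) ≤ (ε / 8) * (T * (L / (2 * Real.pi))) := by
    have h1 : ε3 ≤ ε / (16 * Real.pi) := min_le_left _ _
    calc ε3 * (T * L) ≤ ε / (16 * Real.pi) * (T * L) := mul_le_mul_of_nonneg_right h1 (by positivity)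
      _ = _ := by field_simp; ring
  have hpos : 0 ≤ T * (L / (2 * Real.pi)) := by positivity
  have hfin : ((2 - cMTinv) * G' - ε / 2) * (T * (L / (2 * Real.pi))) ≤ good.card + ε3 * (T * L) := by
    refine (le_trans hlow hmain).trans (hcard.trans ?_)
    exact add_le_add_right hbad _
  nlinarith

end

end Pool.Agent.K4H8.JG
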