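import Mathlib
import Pool.Agent.K4H8.JG.Blk
import Pool.Agent.Y745.SW.Blk8

set_option autoImplicit false

/-! The joint law up to height `X`. -/

namespace Pool.Agent.K4H8.JG

open Filter Topology MeasureTheory Complex H370 TH803UC TH803CL ProbabilityTheory
open Pool.Agent.Y745.SW

noncomputable section

/-- changing the height in the normalisation -/
lemma nrm2_ev (c0 : ℝ) {r R : ℝ} (hr : 0 < r) : ∀ᶠ T : ℝ in atTop, ∀ t : ℝ, T < t → t ≤ 2 * T →
    ∀ y e : ℝ, ‖nrm2 T y e‖ ≤ R → ‖nrm2 t y (e + c0) - nrm2 T y e‖ < r := by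
  set M := |R| + 2 with hM
  have hM0 : 0 < M := by positivity
  have hRM : R ≤ M := by rw [hM]; linarith [le_abs_self R]
  filter_upwards [loglog_tendsto.eventually_ge_atTop 1, Real.tendsto_log_atTop.eventually_ge_atTop (4 * M / r + 1),
    (Real.tendsto_sqrt_atTop.comp loglog_tendsto).eventually_ge_atTop (26 * (|c0| + 1) / r),
    eventually_ge_atTop 10] with T h1 h2 h2' h3
  intro t ht1 ht2 y e hz
  set L := Real.log T with hL
  have hMm : 0 < 4 * M / r := by positivity
  have hL0 : 0 < L := by linarith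
  have hT0 : 0 < T := by linarith
  have hlt1 : L ≤ Real.log t := Real.log_le_log hT0 ht1.le
  have hlt2 : Real.log t ≤ L + 1 := by
    have h4 := Real.log_le_log (by linarith) ht2
    rw [Real.log_mul (by norm_num) hT0.ne', ← hL] at h4
    have := Real.log_two_lt_d9
    linarith
  set ℓ := Real.log L with hℓ
  set ℓ' := Real.log (Real.log t) with hℓ'
  have hη0 : 0 ≤ ℓ' - ℓ := by
    have := Real.log_le_log hL0 hlt1
    linarith
  have hη1 : ℓ' - ℓ ≤ 1 / L := by
    have h5 : ℓ' ≤ Real.log (L + 1) := Real.log_le_log (by linarith) hlt2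
    have h6 : Real.log (L + 1) = ℓ + Real.log (1 + 1 / L) := by
      rw [hℓ, ← Real.log_mul hL0.ne' (by positivity)]
      congr 1
      field_simp
    have h7 : Real.log (1 + 1 / L) ≤ 1 / L := by
      have := Real.log_le_sub_one_of_pos (show (0:ℝ) < 1 + 1 / L by positivity)
      linarith
    linarith
  set S := Real.sqrt ℓ with hS
  set S' := Real.sqrt ℓ' with hS'
  have hS1 : 1 ≤ S := by rw [hS, Real.one_le_sqrt]; exact h1
  have hSS : S ≤ S' := Real.sqrt_le_sqrt (by linarith)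
  have hS0 : 0 < S := by linarith
  have hS0' : 0 < S' := by linarith
  have hsq : S ^ 2 = ℓ := Real.sq_sqrt (by linarith)
  have hsq' : S' ^ 2 = ℓ' := Real.sq_sqrt (by linarith)
  have hSe : 26 * (|c0| + 1) / r ≤ S := h2'
  have hs2 : Real.sqrt 2 ≤ 2 := by
    rw [Real.sqrt_le_left (by norm_num)]; norm_num
  have hs20 := Real.sqrt_nonneg 2
  have e1 : |(S' - S) / S'| ≤ ℓ' - ℓ := by
    rw [abs_of_nonneg (div_nonneg (by linarith) hS0'.le), div_le_iff₀ hS0']
    nlinarith
  have hMs : M * (1 / L) < r / 4 := by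
    rw [mul_one_div, div_lt_iff₀ hL0]
    have : 4 * M / r < L := by linarith
    rw [div_lt_iff₀ hr] at this
    linarith
  -- the real part
  have hre : |nrm t y - nrm T y| < r / 2 := by
    set x := nrm T y with hx
    have hx1 : x = Real.sqrt 2 * (y - ℓ) / S := by rw [hx]; unfold nrm; rw [← hL, ← hℓ, ← hS]; ring
    have hx2 : nrm t y = x * (S / S') - Real.sqrt 2 * (ℓ' - ℓ) / S' := by
      rw [hx1]; unfold nrm; rw [← hℓ', ← hS']
      field_simp
      ring
    have hxM : |x| ≤ |R| := by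
      have : |(nrm2 T y e).re| ≤ R := (Complex.abs_re_le_norm _).trans hz
      exact (show |x| ≤ R from this).trans (le_abs_self R)
    have e : nrm t y - x = -(x * ((S' - S) / S')) - Real.sqrt 2 * (ℓ' - ℓ) / S' := by
      rw [hx2]; field_simp; ring
    have e2 : |Real.sqrt 2 * (ℓ' - ℓ) / S'| ≤ 2 * (ℓ' - ℓ) := by
      rw [abs_of_nonneg (by positivity), div_le_iff₀ hS0']
      have : Real.sqrt 2 * (ℓ' - ℓ) ≤ 2 * (ℓ' - ℓ) := mul_le_mul_of_nonneg_right hs2 hη0
      nlinarith
    have h5 : |nrm t y - x| ≤ M * (ℓ' - ℓ) := by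
      rw [e]
      calc |-(x * ((S' - S) / S')) - Real.sqrt 2 * (ℓ' - ℓ) / S'| ≤
          |-(x * ((S' - S) / S'))| + |Real.sqrt 2 * (ℓ' - ℓ) / S'| := abs_sub _ _
        _ ≤ |R| * (ℓ' - ℓ) + 2 * (ℓ' - ℓ) := by
            rw [abs_neg, abs_mul]
            exact add_le_add (mul_le_mul hxM e1 (abs_nonneg _) (by positivity)) e2
        _ = M * (ℓ' - ℓ) := by rw [hM]; ring
    have h6 : M * (ℓ' - ℓ) ≤ M * (1 / L) := mul_le_mul_of_nonneg_left hη1 hM0.le
    linarith
  -- the imaginary part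
  have him : |Real.sqrt 2 * (Real.pi * (e + c0) / S') - Real.sqrt 2 * (Real.pi * e / S)| < r / 2 := by
    set x := Real.sqrt 2 * (Real.pi * e / S) with hx
    have hxM : |x| ≤ |R| := by
      have : |(nrm2 T y e).im| ≤ R := (Complex.abs_im_le_norm _).trans hz
      exact (show |x| ≤ R from this).trans (le_abs_self R)
    have e3 : Real.sqrt 2 * (Real.pi * (e + c0) / S') - x =
        -(x * ((S' - S) / S')) + Real.sqrt 2 * Real.pi * c0 / S' := by
      rw [hx]; field_simp; ring
    have e4 : |Real.sqrt 2 * Real.pi * c0 / S'| ≤ r / 4 := by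
      rw [abs_div, abs_of_pos hS0', div_le_iff₀ hS0', abs_mul, abs_of_nonneg (by positivity)]
      have h7 : 26 * (|c0| + 1) ≤ S * r := by rwa [div_le_iff₀ hr] at hSe
      have h8 : Real.sqrt 2 * Real.pi * |c0| ≤ 2 * 3.15 * |c0| := by
        have := Real.pi_lt_d2
        gcongr
      have h9 : S * r ≤ S' * r := mul_le_mul_of_nonneg_right hSS hr.le
      have h10 := abs_nonneg c0
      linarith
    have e5 : |-(x * ((S' - S) / S'))| ≤ M * (1 / L) := by
      rw [abs_neg, abs_mul]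
      have hRM2 : |R| ≤ M := by rw [hM]; linarith
      exact mul_le_mul (hxM.trans hRM2) (e1.trans hη1) (abs_nonneg _) hM0.le
    rw [e3]
    refine (abs_add_le _ _).trans_lt ?_
    linarith
  refine (Complex.norm_le_abs_re_add_abs_im _).trans_lt ?_
  rw [Complex.sub_re, Complex.sub_im]
  show |nrm t y - nrm T y| + |Real.sqrt 2 * (Real.pi * (e + c0) / S') - Real.sqrt 2 * (Real.pi * e / S)| < r
  linarith

/-- the zeros that are counted -/
def Qs2 (U : Set ℂ) (c0 δ : ℝ) (s : ℂ) : Prop := s.re = 1 / 2 ∧ mult riemannZeta s = 1 ∧ 2 < s.im ∧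
  (∀ s' : ℂ, riemannZeta s' = 0 → 0 < s'.re → s'.re < 1 → s' ≠ s → δ / Real.log s.im ≤ ‖s' - s‖) ∧
  nrm2 s.im (Real.log ‖deriv riemannZeta s‖) (E1 s.im + c0) ∈ U

/-- **the joint law** -/
theorem law2 (hζ : GoodL riemannZeta) (hBLK : P_BLK) (hIND : P_IND2) (hBV : P_BV) (hDER : P_DER)
    (hBE : P_BE) (c0 : ℝ) {U : Set ℂ} (hU : IsOpen U) {ε : ℝ} (hε : 0 < ε) :
    ∃ δ : ℝ, 0 < δ ∧ ∃ X0 : ℝ, ∀ X : ℝ, X0 ≤ X →
    ((2 - cMTinv) * (stdGaussian ℂ).real U - ε) * (NN riemannZeta 0 X : ℝ) ≤ (PQn (Qs2 U c0 δ) 0 X : ℝ) := by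
  classical
  by_cases hpos : (2 - cMTinv) * (stdGaussian ℂ).real U - ε < 0
  · refine ⟨1, one_pos, 0, fun X _ => ?_⟩
    have h1 : ((2 - cMTinv) * (stdGaussian ℂ).real U - ε) * (NN riemannZeta 0 X : ℝ) ≤ 0 :=
      mul_nonpos_of_nonpos_of_nonneg hpos.le (Nat.cast_nonneg _)
    exact h1.trans (Nat.cast_nonneg _)
  push Not at hpos
  obtain ⟨V, r, R, hVm, hVf, hr, hVR, hVU, hG⟩ := shrink (stdGaussian ℂ) hU (show 0 < ε / 4 by positivity)
  obtain ⟨δ, hδ, hδ1, hev⟩ := block_law2 hζ hBLK hIND hBV hDER hBE hVm hVf (show 0 < r / 2 by positivity)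
    (show 0 < ε / 4 by positivity)
  have hnrm := nrm2_ev c0 (r := r / 2) (R := R + r / 2) (by positivity)
  obtain ⟨C1, T1, hC1, hT1, hnn⟩ := nn_asymp hζ
  have hpi := Real.pi_pos
  have hcM1 : 1 < cMTinv := cMTinv_gt_one
  have hcM2 := cMTinv_lt
  set G := (stdGaussian ℂ).real U with hGd
  set G' := (stdGaussian ℂ).real V with hGd'
  have hblock : ∀ᶠ T : ℝ in atTop, ((2 - cMTinv) * G - 3 / 4 * ε) * (NN riemannZeta T (2 * T) : ℝ) ≤
      (PQn (Qs2 U c0 δ) T (2 * T) : ℝ) := by
    filter_upwards [hev, hnrm, eventually_ge_atTop T1, Real.tendsto_log_atTop.eventually_ge_atTop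
      (2 * Real.pi * C1 * (16 / ε + 2) + 1), eventually_ge_atTop 10] with T t1 t2 t3 t4 t5
    obtain ⟨U1, U2, hU1, hU1', hU2, hU2', hcount⟩ := t1
    have hT0 : 0 < T := by linarith
    set L := Real.log T with hL
    have hL0 : 0 < L := by
      have : 0 < 2 * Real.pi * C1 * (16 / ε + 2) := by positivity
      linarith
    have hL1 : 1 ≤ L := by
      have : 0 < 2 * Real.pi * C1 * (16 / ε + 2) := by positivity
      linarith
    set good := (isoS U1 U2 (δ / L)).filter (fun s => T + 2 ≤ s.im ∧ s.im ≤ 2 * T - 2 ∧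
        ∃ z ∈ V, ‖nrm2 T (Real.log ‖deriv riemannZeta s‖) (E1 s.im) - z‖ < r / 2) with hgood
    have hle : (good.card : ℝ) ≤ PQn (Qs2 U c0 δ) T (2 * T) := by
      have : good.card ≤ PQn (Qs2 U c0 δ) T (2 * T) := by
        unfold PQn
        rw [← Set.ncard_coe_finset]
        refine Set.ncard_le_ncard ?_ ((zset_finite hζ T (2 * T) (by linarith)).subset fun s hs => hs.1)
        intro s hs
        rw [Finset.mem_coe, hgood, Finset.mem_filter] at hs
        obtain ⟨hsI, hs1, hs2, z, hzV, hsz⟩ := hs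
        unfold isoS at hsI
        rw [Finset.mem_filter] at hsI
        obtain ⟨hsZ, hre, hmul, hiso⟩ := hsI
        have hsz' := (mem_Zf hζ (by linarith : 1 ≤ U1)).mp hsZ
        have hzR := hVR z hzV
        have hnz : ‖nrm2 T (Real.log ‖deriv riemannZeta s‖) (E1 s.im)‖ ≤ R + r / 2 := by
          have e : nrm2 T (Real.log ‖deriv riemannZeta s‖) (E1 s.im) =
              z + (nrm2 T (Real.log ‖deriv riemannZeta s‖) (E1 s.im) - z) := by ring
          rw [e]
          exact (norm_add_le _ _).trans (add_le_add hzR hsz.le)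
        have hy := t2 s.im (by linarith) (by linarith) _ _ hnz
        have hU' : nrm2 s.im (Real.log ‖deriv riemannZeta s‖) (E1 s.im + c0) ∈ U := by
          refine hVU z hzV _ ?_
          have e : nrm2 s.im (Real.log ‖deriv riemannZeta s‖) (E1 s.im + c0) - z =
              (nrm2 s.im (Real.log ‖deriv riemannZeta s‖) (E1 s.im + c0) -
                nrm2 T (Real.log ‖deriv riemannZeta s‖) (E1 s.im)) +
              (nrm2 T (Real.log ‖deriv riemannZeta s‖) (E1 s.im) - z) := by ring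
          rw [e]
          refine (norm_add_le _ _).trans_lt ?_
          linarith
        refine ⟨⟨hsz'.1, hsz'.2.1, by linarith, by linarith, hsz'.2.2.2.2⟩, hre, hmul, by linarith, ?_, hU'⟩
        intro s' h1 h2 h3 h4
        by_contra hcon
        push Not at hcon
        have hlog : L ≤ Real.log s.im := Real.log_le_log hT0 (by linarith)
        have h5 : δ / Real.log s.im ≤ δ / L := div_le_div_of_nonneg_left hδ.le hL0 hlog
        have h6 : δ / L ≤ 1 := by rw [div_le_one hL0]; linarith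
        have h7 : ‖s' - s‖ < 1 := by linarith
        have h8 := (Complex.abs_im_le_norm _).trans_lt h7
        rw [Complex.sub_im, abs_lt] at h8
        have h9 : s' ∈ Zf riemannZeta U1 U2 :=
          (mem_Zf hζ (by linarith : 1 ≤ U1)).mpr ⟨h2, h3, by linarith [h8.1], by linarith [h8.2], h1⟩
        have h10 := hiso s' h9 h4
        rw [norm_sub_rev] at h10
        linarith
      exact_mod_cast this
    refine le_trans ?_ (hcount.trans hle)
    have hnn' := (abs_le.1 (hnn T t3 T (2 * T) le_rfl (by linarith) (by linarith) le_rfl)).2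
    have hnn'' : (NN riemannZeta T (2 * T) : ℝ) ≤ T * (L / (2 * Real.pi)) + C1 * T := by
      have e : T * L / (2 * Real.pi) = T * (L / (2 * Real.pi)) := by ring
      linarith
    have hg0 : 0 ≤ G := measureReal_nonneg
    have hg1 : G ≤ 1 := measureReal_le_one
    have hk : 0 ≤ (2 - cMTinv) * G - 3 / 4 * ε := by linarith
    have hk1 : (2 - cMTinv) * G - 3 / 4 * ε ≤ 1 := by nlinarith
    have hG' : (2 - cMTinv) * G - 1 / 2 * ε ≤ (2 - cMTinv) * G' - ε / 4 := by
      have h1 : (2 - cMTinv) * (G - ε / 4) ≤ (2 - cMTinv) * G' :=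
        mul_le_mul_of_nonneg_left hG (by linarith)
      nlinarith
    have hCT : C1 * T ≤ ε / 4 * (T * (L / (2 * Real.pi))) := by
      have h1 : 2 * Real.pi * C1 * (16 / ε) ≤ L := by
        have : 0 < 2 * Real.pi * C1 * 2 := by positivity
        nlinarith
      have h2 : C1 ≤ ε / 4 * (L / (2 * Real.pi)) := by
        rw [mul_div_assoc', le_div_iff₀ (by positivity)]
        have h3 : 2 * Real.pi * C1 * (16 / ε) = (C1 * (2 * Real.pi)) * 16 / ε := by ring
        rw [h3, div_le_iff₀ hε] at h1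
        have : 0 < C1 * (2 * Real.pi) := by positivity
        nlinarith
      nlinarith
    have hX0 : 0 ≤ T * (L / (2 * Real.pi)) := by positivity
    calc ((2 - cMTinv) * G - 3 / 4 * ε) * (NN riemannZeta T (2 * T) : ℝ) ≤
        ((2 - cMTinv) * G - 3 / 4 * ε) * (T * (L / (2 * Real.pi)) + C1 * T) :=
          mul_le_mul_of_nonneg_left hnn'' hk
      _ ≤ ((2 - cMTinv) * G - 3 / 4 * ε) * (T * (L / (2 * Real.pi))) + 1 * (C1 * T) := by
          rw [mul_add]
          have : 0 ≤ C1 * T := by positivity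
          gcongr
      _ ≤ ((2 - cMTinv) * G - 3 / 4 * ε) * (T * (L / (2 * Real.pi))) +
          ε / 4 * (T * (L / (2 * Real.pi))) := by linarith
      _ = ((2 - cMTinv) * G - 1 / 2 * ε) * (T * (L / (2 * Real.pi))) := by ring
      _ ≤ _ := mul_le_mul_of_nonneg_right hG' hX0
  obtain ⟨T0, hT0⟩ := Filter.eventually_atTop.1 hblock
  refine ⟨δ, hδ, ?_⟩
  exact dyadic_zero hζ zeta_zeros_finite (PQn (Qs2 U c0 δ)) (fun a b c h1 h2 h3 => PQn_add hζ _ h1 h2 h3)
    (fun a X ha => PQn_mono _ a X ha) ((2 - cMTinv) * G - 3 / 4 * ε) ((2 - cMTinv) * G - ε) T0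
    hpos (by linarith) hT0

end

end Pool.Agent.K4H8.JG
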