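import Mathlib

set_option autoImplicit false

/-! The sum of the reciprocals of the proper prime powers. -/

namespace Pool.Agent.K4H8.JG

open Finset

lemma geo_le {r : ℝ} (h0 : 0 ≤ r) (h1 : r ≤ 1 / 2) (X : ℕ) : ∑ k ∈ Icc 2 X, r ^ k ≤ 2 * r ^ 2 := by
  have h2 : ∑ k ∈ Icc 2 X, r ^ k = r ^ 2 * ∑ j ∈ range (X - 1), r ^ j := by
    rw [mul_sum]
    refine Finset.sum_nbij' (fun k => k - 2) (fun j => j + 2) ?_ ?_ ?_ ?_ ?_
    · intro k hk; rw [mem_Icc] at hk; rw [mem_range]; omega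
    · intro j hj; rw [mem_range] at hj; rw [mem_Icc]; omega
    · intro k hk; rw [mem_Icc] at hk; omega
    · intro j _; simp
    · intro k hk
      rw [mem_Icc] at hk
      rw [← pow_add]
      congr 1
      omega
  have h3 : ∑ j ∈ range (X - 1), r ^ j ≤ (1 - r)⁻¹ := by
    have hs := summable_geometric_of_lt_one h0 (by linarith : r < 1)
    rw [← tsum_geometric_of_lt_one h0 (by linarith : r < 1)]
    exact hs.sum_le_tsum _ (fun i _ => by positivity)
  have h4 : (1 - r)⁻¹ ≤ 2 := by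
    rw [inv_le_comm₀ (by linarith) (by norm_num)]
    norm_num
    linarith
  rw [h2]
  have h5 : 0 ≤ r ^ 2 := by positivity
  nlinarith

open Classical in
theorem ppow_sum (X : ℕ) :
    ∑ n ∈ (Icc 1 X).filter (fun n => IsPrimePow n ∧ ¬ n.Prime), (1 : ℝ) / n ≤ 2 := by
  have h1 : ∑ n ∈ (Icc 1 X).filter (fun n => IsPrimePow n ∧ ¬ n.Prime), (1 : ℝ) / n ≤
      ∑ q ∈ (Icc 2 X) ×ˢ (Icc 2 X), (1 / (q.1 : ℝ)) ^ q.2 := by
    have hsub : (Icc 1 X).filter (fun n => IsPrimePow n ∧ ¬ n.Prime) ⊆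
        ((Icc 2 X) ×ˢ (Icc 2 X)).image (fun q : ℕ × ℕ => q.1 ^ q.2) := by
      intro n hn
      rw [mem_filter, mem_Icc] at hn
      obtain ⟨⟨h1, h2⟩, h3, h4⟩ := hn
      rw [isPrimePow_nat_iff] at h3
      obtain ⟨p, k, hp, hk, rfl⟩ := h3
      rw [mem_image]
      have hk2 : 2 ≤ k := by
        by_contra hc
        have : k = 1 := by omega
        subst this
        rw [pow_one] at h4
        exact h4 hp
      have hp2 := hp.two_le
      refine ⟨(p, k), ?_, rfl⟩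
      rw [mem_product, mem_Icc, mem_Icc]
      refine ⟨⟨hp2, ?_⟩, ⟨hk2, ?_⟩⟩
      · exact le_trans (Nat.le_self_pow (by omega) p) h2
      · exact le_trans (Nat.lt_pow_self hp.one_lt).le h2
    calc ∑ n ∈ (Icc 1 X).filter (fun n => IsPrimePow n ∧ ¬ n.Prime), (1 : ℝ) / n ≤
        ∑ n ∈ ((Icc 2 X) ×ˢ (Icc 2 X)).image (fun q : ℕ × ℕ => q.1 ^ q.2), (1 : ℝ) / n :=
          sum_le_sum_of_subset_of_nonneg hsub fun n _ _ => by positivity
      _ ≤ ∑ q ∈ (Icc 2 X) ×ˢ (Icc 2 X), (1 : ℝ) / ((q.1 ^ q.2 : ℕ) : ℝ) := by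
          refine Finset.sum_image_le_of_nonneg (s := (Icc 2 X) ×ˢ (Icc 2 X))
            (g := fun q : ℕ × ℕ => q.1 ^ q.2) (f := fun n : ℕ => (1 : ℝ) / (n : ℝ)) ?_
          intro n _
          positivity
      _ = _ := by
          refine sum_congr rfl fun q _ => ?_
          push_cast
          rw [one_div_pow]
  refine h1.trans ?_
  rw [sum_product]
  have h2 : ∀ m ∈ Icc 2 X, ∑ k ∈ Icc 2 X, (1 / (m : ℝ)) ^ k ≤ 2 * ((m : ℝ) ^ 2)⁻¹ := by
    intro m hm
    rw [mem_Icc] at hm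
    have hm2 : (2 : ℝ) ≤ m := by exact_mod_cast hm.1
    have h3 := geo_le (r := 1 / (m : ℝ)) (by positivity) (by
      rw [div_le_div_iff₀ (by linarith) (by norm_num)]; linarith) X
    refine h3.trans (le_of_eq ?_)
    rw [one_div_pow, one_div]
  refine (sum_le_sum h2).trans ?_
  rw [← mul_sum]
  have h3 : ∑ m ∈ Icc 2 X, ((m : ℝ) ^ 2)⁻¹ ≤ 1 := by
    rcases Nat.eq_zero_or_pos X with h | h
    · subst h; simp
    · have h4 := sum_Ioc_inv_sq_le_sub (α := ℝ) (k := 1) (n := X) one_ne_zero h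
      have e : Icc 2 X = Ioc 1 X := by ext x; simp [mem_Icc, mem_Ioc]; omega
      rw [e]
      refine h4.trans ?_
      have : (0 : ℝ) ≤ (X : ℝ)⁻¹ := by positivity
      simp only [Nat.cast_one, inv_one]
      linarith
  linarith

end Pool.Agent.K4H8.JG
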