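import Pool.Agent.Y923.OJ.VH
import Pool.Agent.Y949.OJ.CT
import Pool.Agent.Y153.OJ.LI

set_option autoImplicit false
set_option maxHeartbeats 400000

/-! The formula for `S0` with kernels whose transform is bounded, but which may be large themselves. -/

namespace Pool.Agent.K4H8.JG

open Finset Filter Topology MeasureTheory
open H370 (zset mult NN Zf zz)
open Pool.Agent.Y746.OM Pool.Agent.Y746.OJ Pool.Agent.Y923.OJ

noncomputable section

/-- the part of the primes -/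
lemma prime_part' {V : ℂ → ℂ} {M A0 : ℝ} (h0 : 0 ≤ A0) (hM : 0 ≤ M)
    (hA : ∀ ξ : ℝ, ‖VH V ξ‖ ≤ A0)
    (hvh : ∀ n : ℕ, 1 ≤ n → ‖VH V (Real.log n)‖ ≤ 4 * M / n) (t : ℝ) :
    |(∫ σ in (1 / 2 : ℝ)..(3 / 2), (AA V t σ).im) -
      ∑' n : ℕ, ArithmeticFunction.vonMangoldt n / (Real.sqrt n * Real.log n) * (cc V t n).im| ≤
      KK * A0 := by
  have hs : HasSum (fun n => ∫ σ in (1 / 2 : ℝ)..(3 / 2), ff V t n σ)
      (∫ σ in (1 / 2 : ℝ)..(3 / 2), (AA V t σ).im) := by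
    apply intervalIntegral.hasSum_integral_of_dominated_convergence (fun n _ => bb M n)
    · intro n
      exact (ff_cont V t n).aestronglyMeasurable
    · intro n
      refine Eventually.of_forall fun σ hσ => ?_
      rw [Set.uIoc_of_le (by norm_num)] at hσ
      exact ff_le hM t hvh n hσ.1.le
    · exact Eventually.of_forall fun σ _ => bb_sum M
    · exact intervalIntegrable_const
    · refine Eventually.of_forall fun σ hσ => ?_
      rw [Set.uIoc_of_le (by norm_num)] at hσ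
      exact AA_im hM t hvh hσ.1.le
  have hS : Summable (fun n : ℕ => (n : ℝ) ^ (-(3 / 2) : ℝ)) :=
    Real.summable_nat_rpow.2 (by norm_num)
  have hr : ∀ n : ℕ, ‖ArithmeticFunction.vonMangoldt n / Real.log n * (n : ℝ) ^ (-(3 / 2) : ℝ) *
      (cc V t n).im‖ ≤ 4 * A0 * (n : ℝ) ^ (-(3 / 2) : ℝ) := by
    intro n
    rcases lt_or_ge n 2 with h | h
    · have h0' : ArithmeticFunction.vonMangoldt n = 0 := by
        interval_cases n
        · simp
        · exact ArithmeticFunction.vonMangoldt_apply_one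
      rw [h0']
      simp
      positivity
    · have hl : 0 < Real.log n := Real.log_pos (by exact_mod_cast (by omega : 1 < n))
      have h1 : ArithmeticFunction.vonMangoldt n / Real.log n ≤ 1 := by
        rw [div_le_one hl]
        exact ArithmeticFunction.vonMangoldt_le_log
      have h2 : 0 ≤ ArithmeticFunction.vonMangoldt n / Real.log n :=
        div_nonneg ArithmeticFunction.vonMangoldt_nonneg hl.le
      have h3 : |(cc V t n).im| ≤ 4 * A0 := by
        refine (Complex.abs_im_le_norm _).trans ?_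
        rw [cc_norm V t (by omega)]
        linarith [hA (Real.log n)]
      rw [norm_mul, norm_mul, Real.norm_of_nonneg h2, Real.norm_of_nonneg (by positivity :
        (0 : ℝ) ≤ (n : ℝ) ^ (-(3 / 2) : ℝ)), Real.norm_eq_abs]
      calc ArithmeticFunction.vonMangoldt n / Real.log n * (n : ℝ) ^ (-(3 / 2) : ℝ) *
            |(cc V t n).im| ≤ 1 * (n : ℝ) ^ (-(3 / 2) : ℝ) * (4 * A0) :=
            mul_le_mul (mul_le_mul_of_nonneg_right h1 (by positivity)) h3 (abs_nonneg _)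
              (by positivity)
        _ = 4 * A0 * (n : ℝ) ^ (-(3 / 2) : ℝ) := by ring
  have hrs : Summable (fun n : ℕ => ArithmeticFunction.vonMangoldt n / Real.log n *
      (n : ℝ) ^ (-(3 / 2) : ℝ) * (cc V t n).im) :=
    Summable.of_norm_bounded (hS.mul_left (4 * A0)) hr
  have hts : Summable (fun n : ℕ => ArithmeticFunction.vonMangoldt n /
      (Real.sqrt n * Real.log n) * (cc V t n).im) := by
    have h1 := hs.summable.add hrs
    refine h1.congr fun n => ?_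
    rw [ff_int]
    ring
  have h2 : (∫ σ in (1 / 2 : ℝ)..(3 / 2), (AA V t σ).im) =
      (∑' n : ℕ, ArithmeticFunction.vonMangoldt n / (Real.sqrt n * Real.log n) * (cc V t n).im) -
      ∑' n : ℕ, ArithmeticFunction.vonMangoldt n / Real.log n * (n : ℝ) ^ (-(3 / 2) : ℝ) *
        (cc V t n).im := by
    rw [← hs.tsum_eq, ← hts.tsum_sub hrs]
    exact tsum_congr fun n => ff_int V t n
  rw [h2]
  have h3 : ∀ a b : ℝ, a - b - a = -b := by intro a b; ring
  rw [h3, abs_neg, ← Real.norm_eq_abs]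
  refine (norm_tsum_le_tsum_norm hrs.norm).trans ?_
  refine (hrs.norm.tsum_le_tsum hr (hS.mul_left (4 * A0))).trans (le_of_eq ?_)
  rw [tsum_mul_left]
  unfold KK
  ring

/-- the sum over the primes -/
def PS (V : ℂ → ℂ) (t : ℝ) : ℝ :=
  ∑' n : ℕ, ArithmeticFunction.vonMangoldt n / (Real.sqrt n * Real.log n) * (cc V t n).im

/-- the sum over the zeros to the right of the line -/
def ZS (V : ℂ → ℂ) (U1 U2 t : ℝ) : ℝ := ∑ s ∈ ZR U1 U2 (1 / 2), (mult riemannZeta s : ℝ) *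
          ∫ w in (0 : ℝ)..(s.re - 1 / 2), hw V t s w

theorem sfp : ∃ C T0 : ℝ, 0 < C ∧ 10 ≤ T0 ∧ ∀ T : ℝ, T0 ≤ T →
  ∃ U1 U2 : ℝ, T ≤ U1 ∧ U1 ≤ T + 1 ∧ 2 * T - 1 ≤ U2 ∧ U2 ≤ 2 * T ∧
    ∀ (V : ℂ → ℂ) (M0 M A0 : ℝ), 0 ≤ M0 → 0 ≤ M → KerOK V M0 M → (∀ ξ : ℝ, ‖VH V ξ‖ ≤ A0) →
      ∀ t : ℝ, T + Real.log T ≤ t → t ≤ 2 * T - Real.log T →
      |(∫ y in U1..U2, S0 y * (V ((y - t : ℝ) : ℂ)).re) - (1 / Real.pi) * PS V t -
        2 * ZS V U1 U2 t| ≤ C * (A0 + M / T) := by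
  obtain ⟨C1, T1, hC1, hT1, hct⟩ := Pool.Agent.Y949.OJ.t_CT
  have hLI := Pool.Agent.Y153.OJ.t_LI
  have hVH := t_VH
  have hKK : 0 ≤ KK := by
    unfold KK
    have : 0 ≤ ∑' n : ℕ, (n : ℝ) ^ (-(3 / 2) : ℝ) := tsum_nonneg fun n => by positivity
    linarith
  refine ⟨C1 + KK, T1, by linarith, hT1, fun T hT => ?_⟩
  obtain ⟨U1, U2, hU1, hU1', hU2, hU2', hV'⟩ := hct T hT
  refine ⟨U1, U2, hU1, hU1', hU2, hU2', fun V M0 M A0 h0 hM hV hA t ht1 ht2 => ?_⟩
  have hA0 : 0 ≤ A0 := (norm_nonneg _).trans (hA 0)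
  have hvh := hVH V M0 M h0 hM hV
  have h1 : 1 ≤ U1 := by linarith
  have h12 : U1 ≤ U2 := by linarith
  have hm := main_est hLI hV h0 hM hvh t h1 h12 (K := C1 * M / T)
    (fun σ hσ1 hσ2 hσ3 => hV' V M0 M h0 hM hV t ht1 ht2 σ hσ1 hσ2 hσ3)
  have hp := prime_part' hA0 hM hA hvh t
  rw [intervalIntegral.integral_of_le (by norm_num)] at hp
  rw [BB_val hV.1] at hm
  rw [fub hLI hV h0 t h1 h12]
  unfold PS ZS
  set P := ∑' n : ℕ, ArithmeticFunction.vonMangoldt n / (Real.sqrt n * Real.log n) * (cc V t n).im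
  set b := ∑ s ∈ ZR U1 U2 (1 / 2), (mult riemannZeta s : ℝ) *
          ∫ w in (0 : ℝ)..(s.re - 1 / 2), hw V t s w
  set a := ∫ σ in Set.Ioc (1 / 2 : ℝ) (3 / 2), (AA V t σ).im
  set j := ∫ σ in Set.Ioc (1 / 2 : ℝ) (3 / 2), JJ V t U1 U2 σ
  have hπ : 0 < Real.pi := Real.pi_pos
  have hπ1 : 1 / Real.pi ≤ 1 := by
    rw [div_le_one hπ]
    linarith [Real.pi_gt_three]
  have e3 : -(1 / Real.pi) * j - 1 / Real.pi * P - 2 * b =
      (1 / Real.pi) * (-(j + a + 2 * Real.pi * b) + (a - P)) := by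
    field_simp
    ring
  rw [e3, abs_mul, abs_of_pos (by positivity : 0 < 1 / Real.pi)]
  have hT0 : 0 < T := by linarith
  have h3 : |-(j + a + 2 * Real.pi * b) + (a - P)| ≤ C1 * M / T + KK * A0 := by
    refine (abs_add_le _ _).trans ?_
    rw [abs_neg]
    exact add_le_add hm hp
  calc 1 / Real.pi * |-(j + a + 2 * Real.pi * b) + (a - P)| ≤
        1 * |-(j + a + 2 * Real.pi * b) + (a - P)| :=
        mul_le_mul_of_nonneg_right hπ1 (abs_nonneg _)
    _ ≤ C1 * M / T + KK * A0 := by rw [one_mul]; exact h3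
    _ ≤ (C1 + KK) * (A0 + M / T) := by
        have h4 : 0 ≤ M / T := by positivity
        have h5 : C1 * M / T = C1 * (M / T) := by ring
        rw [h5]
        nlinarith [mul_nonneg hC1.le hA0, mul_nonneg hKK h4]

end

end Pool.Agent.K4H8.JG
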