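import Mathlib
import Pool.Agent.K4H8.JG.Ker2
import Pool.Agent.K4H8.JG.PPow
import Pool.Agent.K4H8.JG.SFp
import Pool.Agent.H370R2.NT

set_option autoImplicit false

/-! The sum over the primes, in mean. -/

namespace Pool.Agent.K4H8.JG

open Filter Topology MeasureTheory Complex Finset
open Pool.Agent.Y745.SW (VF Wf P_KER P_MVB Py Px)
open Pool.Agent.Y746.OJ (KerOK VH)
open Pool.Agent.Y923.OJ (cc cc_norm)

noncomputable section

/-- the coefficients of the difference -/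
def dd (B : ℝ → ℝ) (a : ℝ) (n : ℕ) : ℂ :=
  ((ArithmeticFunction.vonMangoldt n / (Real.sqrt n * Real.log n) : ℝ) : ℂ) * VH (KV B a) (Real.log n) -
    (I0 B a : ℂ) * ((if n.Prime then (Real.sqrt n)⁻¹ else 0 : ℝ) : ℂ)

/-- the difference -/
def DDp (B : ℝ → ℝ) (a : ℝ) (X : ℕ) (t : ℝ) : ℂ := ∑ n ∈ Icc 1 X, dd B a n * (n : ℂ) ^ (-(t : ℂ) * I)

open Classical in
lemma dd_le {B : ℝ → ℝ} {K : ℝ} (h : KD B K) {a : ℝ} (ha : 4 ≤ a) (n : ℕ) (hn : 1 ≤ n) :
    ‖dd B a n‖ ^ 2 ≤ 2 * (K * Real.pi / a) ^ 2 * (ArithmeticFunction.vonMangoldt n ^ 2 / n) +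
      2 * (K * Real.pi) ^ 2 * (if IsPrimePow n ∧ ¬ n.Prime then (1 : ℝ) / n else 0) := by
  have ha1 : 1 ≤ a := by linarith
  have ha0 : 0 < a := by linarith
  have hK := h.K1
  have hpi := Real.pi_pos
  have hn0 : (0 : ℝ) < n := by exact_mod_cast hn
  set Λ := ArithmeticFunction.vonMangoldt n with hΛ
  have hΛ0 : 0 ≤ Λ := ArithmeticFunction.vonMangoldt_nonneg
  set c : ℝ := Λ / (Real.sqrt n * Real.log n) with hc
  set p : ℝ := if n.Prime then (Real.sqrt n)⁻¹ else 0 with hp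
  set J : ℝ := I0 B a with hJ
  have hJn : |J| ≤ K * Real.pi := by
    have h1 := VH_le h ha1 0
    rw [VH_zero h ha1, Complex.norm_real, Real.norm_eq_abs] at h1
    exact h1
  have e1 : dd B a n = (c : ℂ) * (VH (KV B a) (Real.log n) - (J : ℂ)) + (J : ℂ) * ((c - p : ℝ) : ℂ) := by
    unfold dd
    rw [← hc, ← hp, ← hJ]
    push_cast
    ring
  have h2 : ‖(c : ℂ) * (VH (KV B a) (Real.log n) - (J : ℂ))‖ ≤ K * Real.pi / a * (Λ / Real.sqrt n) := by
    rw [norm_mul, Complex.norm_real, Real.norm_eq_abs, hJ, ← VH_zero h ha1]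
    have h3 := VH_diff h ha1 (Real.log n)
    have hl0 : 0 ≤ Real.log n := Real.log_nonneg (by exact_mod_cast hn)
    rw [abs_of_nonneg hl0] at h3
    have hc0 : 0 ≤ c := by rw [hc]; positivity
    rw [abs_of_nonneg hc0]
    calc c * ‖VH (KV B a) (Real.log n) - VH (KV B a) 0‖ ≤ c * (Real.log n * (K / a * Real.pi)) :=
          mul_le_mul_of_nonneg_left h3 hc0
      _ ≤ K * Real.pi / a * (Λ / Real.sqrt n) := by
          rw [hc]
          rcases hl0.eq_or_lt with h4 | h4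
          · rw [← h4]; simp; positivity
          · have hs : 0 < Real.sqrt n := Real.sqrt_pos.2 hn0
            apply le_of_eq
            field_simp
  have h5 : ‖(J : ℂ) * ((c - p : ℝ) : ℂ)‖ ^ 2 ≤ (K * Real.pi) ^ 2 *
      (if IsPrimePow n ∧ ¬ n.Prime then (1 : ℝ) / n else 0) := by
    rw [norm_mul, Complex.norm_real, Complex.norm_real, Real.norm_eq_abs, Real.norm_eq_abs, mul_pow]
    have h6 : |J| ^ 2 ≤ (K * Real.pi) ^ 2 := pow_le_pow_left₀ (abs_nonneg _) hJn 2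
    have hs : 0 < Real.sqrt n := Real.sqrt_pos.2 hn0
    have h7 : |c - p| ^ 2 ≤ (if IsPrimePow n ∧ ¬ n.Prime then (1 : ℝ) / n else 0) := by
      by_cases hpr : n.Prime
      · have h8 : c - p = 0 := by
          rw [hc, hp, if_pos hpr, hΛ, ArithmeticFunction.vonMangoldt_apply_prime hpr]
          have hl : 0 < Real.log n := Real.log_pos (by exact_mod_cast hpr.one_lt)
          field_simp
          ring
        rw [h8, if_neg (by tauto)]
        simp
      · have hp0 : p = 0 := by rw [hp, if_neg hpr]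
        rw [hp0, sub_zero]
        by_cases hpp : IsPrimePow n
        · rw [if_pos ⟨hpp, hpr⟩]
          have hn2 : 1 < n := hpp.one_lt
          have hl : 0 < Real.log n := Real.log_pos (by exact_mod_cast hn2)
          have h9 : |c| ≤ (Real.sqrt n)⁻¹ := by
            rw [abs_of_nonneg (by rw [hc]; positivity), hc, div_le_iff₀ (by positivity)]
            have h10 : Λ ≤ Real.log n := ArithmeticFunction.vonMangoldt_le_log
            calc Λ ≤ Real.log n := h10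
              _ = _ := by field_simp
          calc |c| ^ 2 ≤ ((Real.sqrt n)⁻¹) ^ 2 := pow_le_pow_left₀ (abs_nonneg _) h9 2
            _ = 1 / n := by rw [inv_pow, Real.sq_sqrt hn0.le, one_div]
        · rw [if_neg (by tauto)]
          have h8 : Λ = 0 := by rw [hΛ]; exact ArithmeticFunction.vonMangoldt_eq_zero_iff.2 hpp
          rw [hc, h8]
          simp
    exact mul_le_mul h6 h7 (by positivity) (by positivity)
  have h11 : ‖(c : ℂ) * (VH (KV B a) (Real.log n) - (J : ℂ))‖ ^ 2 ≤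
      (K * Real.pi / a) ^ 2 * (Λ ^ 2 / n) := by
    calc _ ≤ (K * Real.pi / a * (Λ / Real.sqrt n)) ^ 2 := pow_le_pow_left₀ (norm_nonneg _) h2 2
      _ = _ := by rw [mul_pow, div_pow Λ, Real.sq_sqrt hn0.le]
  rw [e1]
  set A := (c : ℂ) * (VH (KV B a) (Real.log n) - (J : ℂ))
  set D := (J : ℂ) * ((c - p : ℝ) : ℂ)
  have h12 : ‖A + D‖ ^ 2 ≤ 2 * ‖A‖ ^ 2 + 2 * ‖D‖ ^ 2 := by
    have h13 := norm_add_le A D
    have h14 : ‖A + D‖ ^ 2 ≤ (‖A‖ + ‖D‖) ^ 2 := pow_le_pow_left₀ (norm_nonneg _) h13 2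
    nlinarith [sq_nonneg (‖A‖ - ‖D‖)]
  linarith

/-- the sum of the squares of the coefficients -/
lemma dd_sum {B : ℝ → ℝ} {K : ℝ} (h : KD B K) {a : ℝ} (ha : 4 ≤ a) {X : ℕ} (hX : 1 ≤ X)
    (hXa : Real.log X ≤ 8 * a) : ∑ n ∈ Icc 1 X, ‖dd B a n‖ ^ 2 ≤ 110 * (K * Real.pi) ^ 2 := by
  classical
  have ha0 : 0 < a := by linarith
  have hl0 : 0 ≤ Real.log X := Real.log_nonneg (by exact_mod_cast hX)
  calc ∑ n ∈ Icc 1 X, ‖dd B a n‖ ^ 2 ≤ ∑ n ∈ Icc 1 X,
        (2 * (K * Real.pi / a) ^ 2 * (ArithmeticFunction.vonMangoldt n ^ 2 / n) +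
        2 * (K * Real.pi) ^ 2 * (if IsPrimePow n ∧ ¬ n.Prime then (1 : ℝ) / n else 0)) :=
        sum_le_sum fun n hn => dd_le h ha n (mem_Icc.1 hn).1
    _ = 2 * (K * Real.pi / a) ^ 2 * (∑ n ∈ Icc 1 X, ArithmeticFunction.vonMangoldt n ^ 2 / n) +
        2 * (K * Real.pi) ^ 2 * ∑ n ∈ (Icc 1 X).filter (fun n => IsPrimePow n ∧ ¬ n.Prime), (1 : ℝ) / n := by
        rw [sum_add_distrib, ← mul_sum, ← mul_sum, sum_filter]
    _ ≤ 2 * (K * Real.pi / a) ^ 2 * ((Real.log X) ^ 2 / 2 + 8 * (Real.log X + 1)) +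
        2 * (K * Real.pi) ^ 2 * 2 := by
        refine add_le_add (mul_le_mul_of_nonneg_left (H370.lam_sq_sum_nat X hX) (by positivity))
          (mul_le_mul_of_nonneg_left (ppow_sum X) (by positivity))
    _ ≤ 2 * (K * Real.pi / a) ^ 2 * (50 * a ^ 2) + 2 * (K * Real.pi) ^ 2 * 2 := by
        refine add_le_add (mul_le_mul_of_nonneg_left ?_ (by positivity)) le_rfl
        nlinarith
    _ = 104 * (K * Real.pi) ^ 2 := by field_simp; ring
    _ ≤ _ := by nlinarith [sq_nonneg (K * Real.pi)]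

lemma npw_cont (n : ℕ) (hn : 1 ≤ n) : Continuous fun t : ℝ => (n : ℂ) ^ (-(t : ℂ) * I) := by
  refine Continuous.const_cpow (by fun_prop) (Or.inl ?_)
  have : n ≠ 0 := by omega
  exact_mod_cast this

lemma DDp_cont (B : ℝ → ℝ) (a : ℝ) (X : ℕ) : Continuous (DDp B a X) := by
  unfold DDp
  refine continuous_finsetSum _ fun n hn => ?_
  exact continuous_const.mul (npw_cont n (mem_Icc.1 hn).1)

/-- the mean square of the difference -/
lemma DDp_ms (hMVB : P_MVB) {B : ℝ → ℝ} {K : ℝ} (h : KD B K) {a : ℝ} (ha : 4 ≤ a) {X : ℕ} (hX : 1 ≤ X)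
    (hXa : Real.log X ≤ 8 * a) {T : ℝ} (hT : 0 < T) (hXT : 8 * X * (1 + Real.log X) ≤ T) :
    ∫ t in T..(2 * T), ‖DDp B a X t‖ ^ 2 ≤ 220 * (K * Real.pi) ^ 2 * T := by
  have h1 := hMVB X T (2 * T) (by linarith) (dd B a) (dd B a)
  set S := ∑ n ∈ Icc 1 X, ‖dd B a n‖ ^ 2 with hS
  have hS0 : 0 ≤ S := sum_nonneg fun n _ => by positivity
  have hS1 : S ≤ 110 * (K * Real.pi) ^ 2 := dd_sum h ha hX hXa
  have e1 : (∫ t in T..(2 * T), (∑ n ∈ Finset.Icc 1 X, dd B a n * (n : ℂ) ^ (-(t : ℂ) * I)) *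
      (starRingEnd ℂ) (∑ n ∈ Finset.Icc 1 X, dd B a n * (n : ℂ) ^ (-(t : ℂ) * I))) =
      ((∫ t in T..(2 * T), ‖DDp B a X t‖ ^ 2 : ℝ) : ℂ) := by
    rw [← intervalIntegral.integral_ofReal]
    refine intervalIntegral.integral_congr fun t _ => ?_
    rw [Complex.mul_conj, Complex.normSq_eq_norm_sq]
    rfl
  have e2 : ∑ n ∈ Finset.Icc 1 X, dd B a n * (starRingEnd ℂ) (dd B a n) = (S : ℂ) := by
    rw [hS]
    push_cast
    refine sum_congr rfl fun n _ => ?_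
    rw [Complex.mul_conj, Complex.normSq_eq_norm_sq]
    push_cast
    rfl
  rw [e1, e2, Real.mul_self_sqrt hS0] at h1
  have e3 : ((∫ t in T..(2 * T), ‖DDp B a X t‖ ^ 2 : ℝ) : ℂ) - ((2 * T - T : ℝ) : ℂ) * (S : ℂ) =
      (((∫ t in T..(2 * T), ‖DDp B a X t‖ ^ 2) - (2 * T - T) * S : ℝ) : ℂ) := by push_cast; ring
  rw [e3, Complex.norm_real, Real.norm_eq_abs] at h1
  have h2 := (abs_le.1 h1).2
  have h3 : 8 * X * (1 + Real.log X) * S ≤ T * S := mul_le_mul_of_nonneg_right hXT hS0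
  have h4 : T * S ≤ T * (110 * (K * Real.pi) ^ 2) := mul_le_mul_of_nonneg_left hS1 hT.le
  nlinarith

end

end Pool.Agent.K4H8.JG
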