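import Mathlib
import Pool.Agent.K4H8.JG.Prm

set_option autoImplicit false

/-! The sum over the primes, in mean, part 2. -/

namespace Pool.Agent.K4H8.JG

open Filter Topology MeasureTheory Complex Finset
open Pool.Agent.Y745.SW (VF Wf P_KER P_MVB Py Px)
open Pool.Agent.Y746.OJ (KerOK VH)
open Pool.Agent.Y923.OJ (cc cc_norm)

noncomputable section

/-- the coefficients -/
def c0 (n : ℕ) : ℝ := ArithmeticFunction.vonMangoldt n / (Real.sqrt n * Real.log n)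

lemma c0_zero : c0 0 = 0 := by simp [c0]

lemma c0_nonneg (n : ℕ) : 0 ≤ c0 n := by
  unfold c0
  rcases Nat.eq_zero_or_pos n with h | h
  · subst h; simp
  · have : 0 ≤ Real.log n := Real.log_nonneg (by exact_mod_cast h)
    have := ArithmeticFunction.vonMangoldt_nonneg (n := n)
    positivity

lemma c0_le (n : ℕ) (hn : 1 ≤ n) : c0 n ≤ (n : ℝ) ^ (-(1 / 2) : ℝ) := by
  have hn0 : (0 : ℝ) < n := by exact_mod_cast hn
  unfold c0
  have h2 : (n : ℝ) ^ (-(1 / 2) : ℝ) = (Real.sqrt n)⁻¹ := by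
    rw [Real.rpow_neg hn0.le, Real.sqrt_eq_rpow]
  rw [h2]
  have hs : 0 < Real.sqrt n := Real.sqrt_pos.2 hn0
  rcases (show n = 1 ∨ 2 ≤ n by omega) with h | h
  · subst h; simp
  · have hl : 0 < Real.log n := Real.log_pos (by exact_mod_cast (by omega : 1 < n))
    rw [div_le_iff₀ (by positivity)]
    have h10 : ArithmeticFunction.vonMangoldt n ≤ Real.log n := ArithmeticFunction.vonMangoldt_le_log
    calc ArithmeticFunction.vonMangoldt n ≤ Real.log n := h10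
      _ = _ := by field_simp

/-- a constant -/
def Z54 : ℝ := ∑' n : ℕ, (n : ℝ) ^ (-(5 / 4) : ℝ)

lemma Z54_nonneg : 0 ≤ Z54 := tsum_nonneg fun n => by positivity

lemma s54 : Summable (fun n : ℕ => (n : ℝ) ^ (-(5 / 4) : ℝ)) := Real.summable_nat_rpow.2 (by norm_num)

lemma term_bd {B : ℝ → ℝ} {K : ℝ} (h : KD B K) {a : ℝ} (ha : 1 ≤ a) (t : ℝ) (n : ℕ) :
    |c0 n * (cc (KV B a) t n).im| ≤ 8 * K * a * Real.exp a * (n : ℝ) ^ (-(3 / 2) : ℝ) := by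
  have hK := h.K1
  have ha0 : 0 < a := by linarith
  rcases Nat.eq_zero_or_pos n with h0 | h0
  · subst h0
    rw [c0_zero]
    simp
  · have hn0 : (0 : ℝ) < n := by exact_mod_cast h0
    have h1 := Pool.Agent.Y923.OJ.t_VH (KV B a) (K * a) (K * a * (2 * Real.exp a)) (by positivity) (by positivity)
      (KerOK_KV h ha) n h0
    rw [abs_mul, abs_of_nonneg (c0_nonneg n)]
    have h2 : |(cc (KV B a) t n).im| ≤ 4 * (K * a * (2 * Real.exp a)) / n := by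
      refine (Complex.abs_im_le_norm _).trans ?_
      rw [cc_norm _ _ h0]
      exact h1
    have h3 := c0_le n h0
    calc c0 n * |(cc (KV B a) t n).im| ≤ (n : ℝ) ^ (-(1 / 2) : ℝ) * (4 * (K * a * (2 * Real.exp a)) / n) :=
          mul_le_mul h3 h2 (abs_nonneg _) (by positivity)
      _ = 8 * K * a * Real.exp a * ((n : ℝ) ^ (-(1 / 2) : ℝ) * (n : ℝ)⁻¹) := by
          rw [div_eq_mul_inv]; ring
      _ = 8 * K * a * Real.exp a * (n : ℝ) ^ (-(3 / 2) : ℝ) := by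
          congr 1
          rw [← Real.rpow_neg_one, ← Real.rpow_add hn0]
          norm_num

lemma term_summable {B : ℝ → ℝ} {K : ℝ} (h : KD B K) {a : ℝ} (ha : 1 ≤ a) (t : ℝ) :
    Summable (fun n : ℕ => c0 n * (cc (KV B a) t n).im) := by
  refine Summable.of_norm_bounded ((Real.summable_nat_rpow.2 (by norm_num)).mul_left _)
    (fun n => ?_) (g := fun n : ℕ => 8 * K * a * Real.exp a * (n : ℝ) ^ (-(3 / 2) : ℝ))
  rw [Real.norm_eq_abs]
  exact term_bd h ha t n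

lemma PS_tail {B : ℝ → ℝ} {K : ℝ} (h : KD B K) {a : ℝ} (ha : 1 ≤ a) (t : ℝ) {X : ℕ}
    (hX : Real.exp (8 * a) ≤ (X : ℝ) + 1) :
    |PS (KV B a) t - ∑ n ∈ Icc 1 X, c0 n * (cc (KV B a) t n).im| ≤ 8 * K * Z54 := by
  have hK := h.K1
  have ha0 : 0 < a := by linarith
  have hs := term_summable h ha t
  have e1 : PS (KV B a) t = ∑' n : ℕ, c0 n * (cc (KV B a) t n).im := rfl
  have e2 : ∑ n ∈ range (X + 1), c0 n * (cc (KV B a) t n).im = ∑ n ∈ Icc 1 X, c0 n * (cc (KV B a) t n).im := by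
    rw [Finset.range_eq_Ico, Finset.sum_eq_sum_Ico_succ_bot (by omega), c0_zero, zero_mul, zero_add]
    rfl
  rw [e1, ← hs.sum_add_tsum_nat_add (X + 1), e2, add_sub_cancel_left, ← Real.norm_eq_abs]
  have hs5 : Summable (fun n : ℕ => ((n + (X + 1) : ℕ) : ℝ) ^ (-(5 / 4) : ℝ)) :=
    (summable_nat_add_iff (f := fun n : ℕ => (n : ℝ) ^ (-(5 / 4) : ℝ)) (X + 1)).2 s54
  have hb : ∀ n : ℕ, ‖c0 (n + (X + 1)) * (cc (KV B a) t (n + (X + 1))).im‖ ≤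
      8 * K * ((n + (X + 1) : ℕ) : ℝ) ^ (-(5 / 4) : ℝ) := by
    intro n
    rw [Real.norm_eq_abs]
    refine (term_bd h ha t _).trans ?_
    have hm0 : (0 : ℝ) < ((n + (X + 1) : ℕ) : ℝ) := by exact_mod_cast (by omega : 0 < n + (X + 1))
    have hm1 : Real.exp (8 * a) ≤ ((n + (X + 1) : ℕ) : ℝ) := by
      push_cast
      have : (0:ℝ) ≤ n := Nat.cast_nonneg n
      linarith
    have e3 : ((n + (X + 1) : ℕ) : ℝ) ^ (-(3 / 2) : ℝ) = ((n + (X + 1) : ℕ) : ℝ) ^ (-(1 / 4) : ℝ) *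
        ((n + (X + 1) : ℕ) : ℝ) ^ (-(5 / 4) : ℝ) := by
      rw [← Real.rpow_add hm0]; norm_num
    have h4 : ((n + (X + 1) : ℕ) : ℝ) ^ (-(1 / 4) : ℝ) ≤ Real.exp (-(2 * a)) := by
      have h5 : ((n + (X + 1) : ℕ) : ℝ) ^ (-(1 / 4) : ℝ) ≤ Real.exp (8 * a) ^ (-(1 / 4) : ℝ) :=
        Real.rpow_le_rpow_of_nonpos (Real.exp_pos _) hm1 (by norm_num)
      refine h5.trans (le_of_eq ?_)
      rw [← Real.exp_mul]
      congr 1
      ring
    have h6 : a * Real.exp a * Real.exp (-(2 * a)) ≤ 1 := by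
      rw [mul_assoc, ← Real.exp_add]
      have h7 : a + -(2 * a) = -a := by ring
      rw [h7, Real.exp_neg, ← div_eq_mul_inv, div_le_one (Real.exp_pos _)]
      linarith [Real.add_one_le_exp a]
    rw [e3]
    have h8 : 0 ≤ ((n + (X + 1) : ℕ) : ℝ) ^ (-(5 / 4) : ℝ) := by positivity
    calc 8 * K * a * Real.exp a * (((n + (X + 1) : ℕ) : ℝ) ^ (-(1 / 4) : ℝ) *
          ((n + (X + 1) : ℕ) : ℝ) ^ (-(5 / 4) : ℝ)) ≤
        8 * K * a * Real.exp a * (Real.exp (-(2 * a)) * ((n + (X + 1) : ℕ) : ℝ) ^ (-(5 / 4) : ℝ)) := by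
          gcongr
      _ = 8 * K * (a * Real.exp a * Real.exp (-(2 * a))) * ((n + (X + 1) : ℕ) : ℝ) ^ (-(5 / 4) : ℝ) := by ring
      _ ≤ 8 * K * 1 * ((n + (X + 1) : ℕ) : ℝ) ^ (-(5 / 4) : ℝ) := by gcongr
      _ = _ := by rw [mul_one]
  refine (tsum_of_norm_bounded (hs5.mul_left (8 * K)).hasSum hb).trans ?_
  rw [tsum_mul_left]
  refine mul_le_mul_of_nonneg_left ?_ (by positivity)
  have h9 := s54.sum_add_tsum_nat_add (X + 1)
  have h10 : 0 ≤ ∑ i ∈ range (X + 1), (i : ℝ) ^ (-(5 / 4) : ℝ) := sum_nonneg fun i _ => by positivity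
  unfold Z54
  linarith

lemma DDp_eq (B : ℝ → ℝ) (a y t : ℝ) : DDp B a ⌊y⌋₊ t =
    (∑ n ∈ Icc 1 ⌊y⌋₊, (c0 n : ℂ) * cc (KV B a) t n) - (I0 B a : ℂ) * Py y t := by
  unfold DDp Py
  rw [sum_filter, mul_sum, ← sum_sub_distrib]
  refine sum_congr rfl fun n hn => ?_
  have hn1 := (mem_Icc.1 hn).1
  have hn0 : (n : ℂ) ≠ 0 := by exact_mod_cast (by omega : n ≠ 0)
  have e1 : (n : ℂ) ^ (-((t : ℂ) * I)) = (n : ℂ) ^ (-(t : ℂ) * I) := by congr 1; ring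
  unfold dd cc c0
  rw [e1]
  by_cases hp : n.Prime
  · rw [if_pos hp, if_pos hp]
    have e2 : (n : ℂ) ^ (-(1 / 2 + (t : ℂ) * I)) = (((Real.sqrt n)⁻¹ : ℝ) : ℂ) * (n : ℂ) ^ (-(t : ℂ) * I) := by
      have e3 : -(1 / 2 + (t : ℂ) * I) = -(1 / 2 : ℂ) + -(t : ℂ) * I := by ring
      rw [e3, Complex.cpow_add _ _ hn0]
      congr 1
      rw [Real.sqrt_eq_rpow, ← Real.rpow_neg (Nat.cast_nonneg n), Complex.ofReal_cpow (Nat.cast_nonneg n)]
      push_cast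
      rfl
    rw [e2]
    ring
  · rw [if_neg hp, if_neg hp]
    push_cast
    ring

lemma PS_py {B : ℝ → ℝ} {K : ℝ} (h : KD B K) {a : ℝ} (ha : 1 ≤ a) (t : ℝ) {y : ℝ}
    (hy : Real.exp (8 * a) ≤ y) :
    |PS (KV B a) t - I0 B a * (Py y t).im| ≤ 8 * K * Z54 + 1 + ‖DDp B a ⌊y⌋₊ t‖ ^ 2 := by
  have h1 := PS_tail h ha t (X := ⌊y⌋₊) (hy.trans (Nat.lt_floor_add_one y).le)
  have h2 : (DDp B a ⌊y⌋₊ t).im = (∑ n ∈ Icc 1 ⌊y⌋₊, c0 n * (cc (KV B a) t n).im) - I0 B a * (Py y t).im := by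
    rw [DDp_eq, Complex.sub_im, Complex.im_sum, Complex.im_ofReal_mul]
    congr 1
    refine sum_congr rfl fun n _ => ?_
    rw [Complex.im_ofReal_mul]
  have h3 : |(DDp B a ⌊y⌋₊ t).im| ≤ 1 + ‖DDp B a ⌊y⌋₊ t‖ ^ 2 := by
    refine (Complex.abs_im_le_norm _).trans ?_
    nlinarith [sq_nonneg (‖DDp B a ⌊y⌋₊ t‖ - 1), norm_nonneg (DDp B a ⌊y⌋₊ t)]
  have e : PS (KV B a) t - I0 B a * (Py y t).im =
      (PS (KV B a) t - ∑ n ∈ Icc 1 ⌊y⌋₊, c0 n * (cc (KV B a) t n).im) + (DDp B a ⌊y⌋₊ t).im := by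
    rw [h2]; ring
  rw [e]
  refine (abs_add_le _ _).trans ?_
  linarith

end

end Pool.Agent.K4H8.JG
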