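import Mathlib
import Pool.Agent.K4H8.JG.Smo

set_option autoImplicit false

/-! Smoothing of the remainder term of the counting function of the zeros, part 2. -/

namespace Pool.Agent.K4H8.JG

open Filter Topology MeasureTheory Complex Finset
open H370 (zset mult NN Zf zz mem_Zf good_zeta zz_im NN_eq NN_add NN_mono zcount)

noncomputable section

lemma NN_crude : ∃ C : ℝ, 0 < C ∧ ∀ t : ℝ, 10 ≤ t → (NN riemannZeta 1 t : ℝ) ≤ C * t ^ 2 := by
  obtain ⟨C, hC, hz⟩ := zcount good_zeta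
  set N4 : ℝ := (NN riemannZeta 1 4 : ℝ) with hN4
  have hN40 : 0 ≤ N4 := Nat.cast_nonneg _
  have hind : ∀ n : ℕ, (NN riemannZeta 1 ((n : ℝ) + 4) : ℝ) ≤ N4 + C * (n * (n + 4)) := by
    intro n
    induction n with
    | zero => simp [hN4]
    | succ n ih =>
      have hn : (0:ℝ) ≤ n := Nat.cast_nonneg n
      have h1 := NN_add good_zeta (le_refl (1:ℝ)) (by linarith : (1:ℝ) ≤ (n:ℝ) + 4)
        (by linarith : (n:ℝ) + 4 ≤ (n:ℝ) + 5)
      have h2 := hz ((n:ℝ) + 5) (by linarith)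
      have h3 : NN riemannZeta ((n:ℝ) + 4) ((n:ℝ) + 5) ≤ NN riemannZeta ((n:ℝ) + 5 - 1) ((n:ℝ) + 5 + 1) :=
        NN_mono good_zeta (by linarith) (by linarith) (by linarith)
      have h3' : (NN riemannZeta ((n:ℝ) + 4) ((n:ℝ) + 5) : ℝ) ≤ NN riemannZeta ((n:ℝ) + 5 - 1) ((n:ℝ) + 5 + 1) := by
        exact_mod_cast h3
      have h4 : Real.log ((n:ℝ) + 5) ≤ (n:ℝ) + 5 := Real.log_le_self (by linarith)
      have h5 : C * Real.log ((n:ℝ) + 5) ≤ C * ((n:ℝ) + 5) := mul_le_mul_of_nonneg_left h4 hC.le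
      have e : ((n + 1 : ℕ) : ℝ) + 4 = (n:ℝ) + 5 := by push_cast; ring
      rw [e, h1]
      push_cast
      nlinarith
  refine ⟨N4 + 3 * C, by positivity, fun t ht => ?_⟩
  have h1 := hind ⌈t⌉₊
  have h2 := Nat.le_ceil t
  have h3 : (⌈t⌉₊ : ℝ) < t + 1 := Nat.ceil_lt_add_one (by linarith)
  have h4 : NN riemannZeta 1 t ≤ NN riemannZeta 1 ((⌈t⌉₊ : ℝ) + 4) :=
    NN_mono good_zeta le_rfl le_rfl (by linarith)
  have h4' : (NN riemannZeta 1 t : ℝ) ≤ NN riemannZeta 1 ((⌈t⌉₊ : ℝ) + 4) := by exact_mod_cast h4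
  have h5 : (⌈t⌉₊ : ℝ) * (⌈t⌉₊ + 4) ≤ (t + 1) * (t + 1 + 4) := by
    have : (0:ℝ) ≤ (⌈t⌉₊ : ℝ) := Nat.cast_nonneg _
    gcongr
  have h6 : C * ((⌈t⌉₊ : ℝ) * (⌈t⌉₊ + 4)) ≤ C * (3 * t ^ 2) := mul_le_mul_of_nonneg_left (by nlinarith) hC.le
  have h7 : N4 ≤ N4 * t ^ 2 := by
    have : 1 ≤ t ^ 2 := by nlinarith
    nlinarith
  nlinarith

lemma Em_crude {t : ℝ} (ht : 10 ≤ t) : |Em t| ≤ t ^ 2 := by
  have hpi := Real.pi_gt_three
  have hpi4 := Real.pi_lt_four
  have h0 : 1 ≤ t / (2 * Real.pi) := by rw [le_div_iff₀ (by positivity)]; linarith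
  have h0' : t / (2 * Real.pi) ≤ t := div_le_self (by linarith) (by linarith)
  have h1 := Real.log_nonneg h0
  have h2 : Real.log (t / (2 * Real.pi)) ≤ t / (2 * Real.pi) - 1 := Real.log_le_sub_one_of_pos (by linarith)
  have e : Em t = t / (2 * Real.pi) * (Real.log (t / (2 * Real.pi)) - 1) := by unfold Em; ring
  rw [e, abs_mul, abs_of_pos (by linarith : 0 < t / (2 * Real.pi))]
  have h3 : |Real.log (t / (2 * Real.pi)) - 1| ≤ t := by
    rw [abs_le]; constructor <;> linarith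
  calc t / (2 * Real.pi) * |Real.log (t / (2 * Real.pi)) - 1| ≤ t * t :=
        mul_le_mul h0' h3 (abs_nonneg _) (by linarith)
    _ = t ^ 2 := by ring

lemma E1_crude : ∃ C : ℝ, 0 < C ∧ ∀ t : ℝ, 10 ≤ t → |E1 t| ≤ C * t ^ 2 := by
  obtain ⟨C, hC, h⟩ := NN_crude
  refine ⟨C + 1, by positivity, fun t ht => ?_⟩
  have h1 := h t ht
  have h2 := Em_crude ht
  have h3 : (0:ℝ) ≤ (NN riemannZeta 1 t : ℝ) := Nat.cast_nonneg _
  unfold E1
  refine (abs_sub _ _).trans ?_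
  rw [abs_of_nonneg h3]
  linarith

lemma NN_monotone : Monotone (fun t : ℝ => (NN riemannZeta 1 t : ℝ)) := by
  intro x y hxy
  have := NN_mono good_zeta (le_refl (1:ℝ)) (le_refl (1:ℝ)) hxy
  show (NN riemannZeta 1 x : ℝ) ≤ NN riemannZeta 1 y
  exact_mod_cast this

lemma Em_cont : Continuous Em := by
  unfold Em
  have h : Continuous (fun t : ℝ => t / (2 * Real.pi)) := by fun_prop
  exact (Real.continuous_mul_log.comp h).sub h

lemma E1_meas : Measurable E1 := NN_monotone.measurable.sub Em_cont.measurable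

lemma E1_int (a b : ℝ) : IntervalIntegrable E1 volume a b :=
  (NN_monotone.intervalIntegrable).sub (Em_cont.intervalIntegrable _ _)

section

variable {B : ℝ → ℝ} {K : ℝ} (h : KD B K)

include h

lemma KV_gauss {a : ℝ} (ha : 1 ≤ a) (x : ℝ) : ‖KV B a (x : ℂ)‖ ≤ K * gg a x * Real.exp (-x ^ 2 / 2) := by
  have hK := h.K1
  have ha0 : 0 < a := by linarith
  have h1 := KV_norm h ha (x : ℂ)
  simp only [Complex.ofReal_im, Complex.ofReal_re, abs_zero, mul_zero, Real.exp_zero, mul_one] at h1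
  have e0 : Real.exp ((0:ℝ) ^ 2 / 2) = 1 := by norm_num
  rw [e0, mul_one] at h1
  refine h1.trans ?_
  have h3 : a / (1 + (a * x) ^ 2) ^ 2 ≤ gg a x := by
    unfold gg
    rw [div_eq_mul_inv]
    refine mul_le_mul_of_nonneg_left ?_ ha0.le
    refine inv_anti₀ (by positivity) ?_
    nlinarith [sq_nonneg (a * x)]
  gcongr

lemma KV_re_le2 {a : ℝ} (ha : 1 ≤ a) (x : ℝ) : (1 + (a * x) ^ 2) * ‖KV B a (x : ℂ)‖ ≤ K * gg a x := by
  have hK := h.K1
  have ha0 : 0 < a := by linarith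
  have h1 := KV_norm h ha (x : ℂ)
  simp only [Complex.ofReal_im, Complex.ofReal_re, abs_zero, mul_zero, Real.exp_zero, mul_one] at h1
  have e0 : Real.exp ((0:ℝ) ^ 2 / 2) = 1 := by norm_num
  rw [e0, mul_one] at h1
  have h4 : Real.exp (-x ^ 2 / 2) ≤ 1 := by
    rw [Real.exp_le_one_iff]; nlinarith [sq_nonneg x]
  have h6 : (1 + (a * x) ^ 2) * (a / (1 + (a * x) ^ 2) ^ 2) = gg a x := by
    unfold gg
    field_simp
  calc (1 + (a * x) ^ 2) * ‖KV B a (x : ℂ)‖ ≤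
      (1 + (a * x) ^ 2) * (K * (a / (1 + (a * x) ^ 2) ^ 2) * Real.exp (-x ^ 2 / 2)) :=
        mul_le_mul_of_nonneg_left h1 (by positivity)
    _ ≤ (1 + (a * x) ^ 2) * (K * (a / (1 + (a * x) ^ 2) ^ 2) * 1) := by gcongr
    _ = K * ((1 + (a * x) ^ 2) * (a / (1 + (a * x) ^ 2) ^ 2)) := by ring
    _ = _ := by rw [h6]

lemma KV_int2 {a : ℝ} (ha : 1 ≤ a) : Integrable (fun x : ℝ => (1 + (a * x) ^ 2) * ‖KV B a (x : ℂ)‖) :=
  ((gg_int (by linarith : 0 < a)).const_mul K).mono'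
    (Continuous.mul (by fun_prop) (KV_cont h a).norm).aestronglyMeasurable
    (Eventually.of_forall fun x => by
      rw [Real.norm_of_nonneg (by positivity)]
      exact KV_re_le2 h ha x)

lemma KV_M2 {a : ℝ} (ha : 1 ≤ a) : ∫ x : ℝ, (1 + (a * x) ^ 2) * ‖KV B a (x : ℂ)‖ ≤ K * Real.pi := by
  have ha0 : 0 < a := by linarith
  calc ∫ x : ℝ, (1 + (a * x) ^ 2) * ‖KV B a (x : ℂ)‖ ≤ ∫ x : ℝ, K * gg a x :=
        integral_mono (KV_int2 h ha) ((gg_int ha0).const_mul _) (fun x => KV_re_le2 h ha x)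
    _ = K * Real.pi := by rw [integral_const_mul, gg_integral ha0]

lemma KV_tail {a : ℝ} (ha : 1 ≤ a) {t m U1 U2 : ℝ} (hm : 0 ≤ m) (h1 : U1 ≤ t - m) (h2 : t + m ≤ U2) :
    ∫ y in (Set.Ioc U1 U2)ᶜ, ‖KV B a ((y - t : ℝ) : ℂ)‖ ≤ Real.exp (-m ^ 2 / 2) * (K * Real.pi) := by
  have hK := h.K1
  have ha0 : 0 < a := by linarith
  have hi : Integrable (fun y : ℝ => ‖KV B a ((y - t : ℝ) : ℂ)‖) := (KV_int h ha).norm.comp_sub_right t
  have hg : Integrable (fun y : ℝ => Real.exp (-m ^ 2 / 2) * (K * gg a (y - t))) :=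
    (((gg_int ha0).comp_sub_right t).const_mul K).const_mul _
  calc ∫ y in (Set.Ioc U1 U2)ᶜ, ‖KV B a ((y - t : ℝ) : ℂ)‖ ≤
      ∫ y in (Set.Ioc U1 U2)ᶜ, Real.exp (-m ^ 2 / 2) * (K * gg a (y - t)) := by
        refine setIntegral_mono_on hi.integrableOn hg.integrableOn measurableSet_Ioc.compl fun y hy => ?_
        refine (KV_gauss h ha (y - t)).trans ?_
        have h3 : m ^ 2 ≤ (y - t) ^ 2 := by
          simp only [Set.mem_compl_iff, Set.mem_Ioc, not_and_or, not_lt, not_le] at hy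
          rcases hy with hy | hy
          · nlinarith
          · nlinarith
        have h4 : Real.exp (-(y - t) ^ 2 / 2) ≤ Real.exp (-m ^ 2 / 2) := Real.exp_le_exp.2 (by linarith)
        have h5 := gg_nonneg ha0 (y - t)
        rw [mul_comm (Real.exp (-m ^ 2 / 2))]
        gcongr
    _ ≤ ∫ y : ℝ, Real.exp (-m ^ 2 / 2) * (K * gg a (y - t)) := by
        refine setIntegral_le_integral hg (Eventually.of_forall fun y => ?_)
        have h5 := gg_nonneg ha0 (y - t)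
        show 0 ≤ Real.exp (-m ^ 2 / 2) * (K * gg a (y - t))
        positivity
    _ = _ := by
        rw [integral_const_mul, integral_const_mul, integral_sub_right_eq_self (gg a), gg_integral ha0]

lemma smooth_aux {a : ℝ} (ha : 1 ≤ a) {T t U1 U2 m : ℝ} (hT : 10 ≤ T) (hU1 : T ≤ U1) (hU2 : U2 ≤ 2 * T)
    (hm : 0 ≤ m) (h1 : U1 ≤ t - m) (h2 : t + m ≤ U2) :
    |I0 B a * E1 t - ∫ y in U1..U2, E1 y * (KV B a ((y - t : ℝ) : ℂ)).re| ≤
      K * Real.pi * (|E1 t| * Real.exp (-m ^ 2 / 2) + W0 T a t + Real.log T / a) := by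
  have hK := h.K1
  have ha0 : 0 < a := by linarith
  have hU12 : U1 ≤ U2 := by linarith
  have hi : Integrable (fun y : ℝ => (KV B a ((y - t : ℝ) : ℂ)).re) := (KV_int h ha).re.comp_sub_right t
  have hin : Integrable (fun y : ℝ => ‖KV B a ((y - t : ℝ) : ℂ)‖) := (KV_int h ha).norm.comp_sub_right t
  have hc : Continuous (fun y : ℝ => (KV B a ((y - t : ℝ) : ℂ)).re) :=
    Complex.continuous_re.comp ((KV_cont h a).comp (continuous_id.sub continuous_const))
  have hE : IntegrableOn (fun y => E1 y * (KV B a ((y - t : ℝ) : ℂ)).re) (Set.Ioc U1 U2) := by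
    have := (E1_int U1 U2).mul_continuousOn hc.continuousOn
    rwa [intervalIntegrable_iff_integrableOn_Ioc_of_le hU12] at this
  have e0 : I0 B a = ∫ y : ℝ, (KV B a ((y - t : ℝ) : ℂ)).re := by
    unfold I0
    rw [← integral_sub_right_eq_self (fun x : ℝ => (KV B a (x : ℂ)).re) t]
  have e1 : I0 B a = (∫ y in Set.Ioc U1 U2, (KV B a ((y - t : ℝ) : ℂ)).re) +
      ∫ y in (Set.Ioc U1 U2)ᶜ, (KV B a ((y - t : ℝ) : ℂ)).re := by
    rw [e0, integral_add_compl measurableSet_Ioc hi]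
  have e2 : I0 B a * E1 t - ∫ y in U1..U2, E1 y * (KV B a ((y - t : ℝ) : ℂ)).re =
      E1 t * (∫ y in (Set.Ioc U1 U2)ᶜ, (KV B a ((y - t : ℝ) : ℂ)).re) -
        ∫ y in Set.Ioc U1 U2, (E1 y - E1 t) * (KV B a ((y - t : ℝ) : ℂ)).re := by
    rw [e1, intervalIntegral.integral_of_le hU12]
    have e3 : ∫ y in Set.Ioc U1 U2, (E1 y - E1 t) * (KV B a ((y - t : ℝ) : ℂ)).re =
        (∫ y in Set.Ioc U1 U2, E1 y * (KV B a ((y - t : ℝ) : ℂ)).re) -
        E1 t * ∫ y in Set.Ioc U1 U2, (KV B a ((y - t : ℝ) : ℂ)).re := by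
      rw [← integral_const_mul, ← integral_sub hE (hi.integrableOn.const_mul _)]
      congr 1
      funext y
      ring
    rw [e3]
    ring
  have hA : |∫ y in (Set.Ioc U1 U2)ᶜ, (KV B a ((y - t : ℝ) : ℂ)).re| ≤ Real.exp (-m ^ 2 / 2) * (K * Real.pi) := by
    refine le_trans ?_ (KV_tail h ha hm h1 h2)
    rw [← Real.norm_eq_abs]
    exact norm_integral_le_of_norm_le hin.integrableOn
      (Eventually.of_forall fun y => Complex.abs_re_le_norm _)
  have hB : |∫ y in Set.Ioc U1 U2, (E1 y - E1 t) * (KV B a ((y - t : ℝ) : ℂ)).re| ≤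
      W0 T a t * (K * Real.pi) + Real.log T * (K / a * Real.pi) := by
    have hlog : 0 ≤ Real.log T := Real.log_nonneg (by linarith)
    have hW := W0_nonneg T a t
    have i1 : Integrable (fun y : ℝ => W0 T a t * ((1 + (a * (y - t)) ^ 2) * ‖KV B a ((y - t : ℝ) : ℂ)‖)) :=
      ((KV_int2 h ha).comp_sub_right t).const_mul _
    have i2 : Integrable (fun y : ℝ => Real.log T * (|y - t| * ‖KV B a ((y - t : ℝ) : ℂ)‖)) :=
      ((KV_int1 h ha).comp_sub_right t).const_mul _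
    have h3 : |∫ y in Set.Ioc U1 U2, (E1 y - E1 t) * (KV B a ((y - t : ℝ) : ℂ)).re| ≤
        ∫ y in Set.Ioc U1 U2, (W0 T a t * ((1 + (a * (y - t)) ^ 2) * ‖KV B a ((y - t : ℝ) : ℂ)‖) +
          Real.log T * (|y - t| * ‖KV B a ((y - t : ℝ) : ℂ)‖)) := by
      rw [← Real.norm_eq_abs]
      refine norm_integral_le_of_norm_le (i1.add i2).integrableOn ?_
      refine (ae_restrict_iff' measurableSet_Ioc).2 (Eventually.of_forall fun y hy => ?_)
      rw [norm_mul, Real.norm_eq_abs, Real.norm_eq_abs]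
      have h4 := E1_diff (a := a) hT (by linarith : T ≤ t) (by linarith) (by linarith [hy.1] : T ≤ y)
        (by linarith [hy.2])
      have h5 := Complex.abs_re_le_norm (KV B a ((y - t : ℝ) : ℂ))
      calc |E1 y - E1 t| * |(KV B a ((y - t : ℝ) : ℂ)).re| ≤
          ((1 + (a * (y - t)) ^ 2) * W0 T a t + Real.log T * |y - t|) * ‖KV B a ((y - t : ℝ) : ℂ)‖ :=
            mul_le_mul h4 h5 (abs_nonneg _) (by positivity)
        _ = _ := by ring
    refine h3.trans ?_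
    refine (setIntegral_le_integral (i1.add i2) (Eventually.of_forall fun y => ?_)).trans ?_
    · show 0 ≤ W0 T a t * ((1 + (a * (y - t)) ^ 2) * ‖KV B a ((y - t : ℝ) : ℂ)‖) +
          Real.log T * (|y - t| * ‖KV B a ((y - t : ℝ) : ℂ)‖)
      positivity
    · show (∫ y : ℝ, W0 T a t * ((1 + (a * (y - t)) ^ 2) * ‖KV B a ((y - t : ℝ) : ℂ)‖) +
          Real.log T * (|y - t| * ‖KV B a ((y - t : ℝ) : ℂ)‖)) ≤ _
      rw [integral_add i1 i2, integral_const_mul, integral_const_mul,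
        integral_sub_right_eq_self (fun x : ℝ => (1 + (a * x) ^ 2) * ‖KV B a (x : ℂ)‖),
        integral_sub_right_eq_self (fun x : ℝ => |x| * ‖KV B a (x : ℂ)‖)]
      have h6 := KV_M2 h ha
      have h7 := KV_M1 h ha
      gcongr
  rw [e2]
  refine (abs_sub _ _).trans ?_
  rw [abs_mul]
  have h8 := mul_le_mul_of_nonneg_left hA (abs_nonneg (E1 t))
  refine (add_le_add h8 hB).trans (le_of_eq ?_)
  field_simp
  ring

end

end

end Pool.Agent.K4H8.JG
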