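import Mathlib
import Pool.Agent.K4H8.JG.Ker2
import Pool.Agent.K4H8.JG.SFp

set_option autoImplicit false

/-! The sum over the zeros to the right of the line, in mean. -/

namespace Pool.Agent.K4H8.JG

open Filter Topology MeasureTheory Complex Finset
open H370 (zset mult NN Zf zz mem_Zf good_zeta zz_im)
open Pool.Agent.Y745.SW (VF Wf P_KER)
open Pool.Agent.Y746.OJ (KerOK VH ZR)
open Pool.Agent.Y923.OJ (hw hw_cont Zf_re_lt)

noncomputable section

/-- the majorant of the sum over the zeros -/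
def MZ (K a U1 U2 t : ℝ) : ℝ := ∑ s ∈ ZR U1 U2 (1 / 2), (mult riemannZeta s : ℝ) *
  ((s.re - 1 / 2) * (2 * K * Real.exp (a * (s.re - 1 / 2)) * gg a (s.im - t)))

lemma gg_cont (a : ℝ) : Continuous (gg a) := by
  unfold gg
  refine continuous_const.mul (Continuous.inv₀ (by fun_prop) fun x => ?_)
  positivity

lemma MZ_cont (K a U1 U2 : ℝ) : Continuous (MZ K a U1 U2) := by
  unfold MZ
  have h := gg_cont a
  fun_prop

lemma mem_ZR {U1 U2 : ℝ} {s : ℂ} (hs : s ∈ ZR U1 U2 (1 / 2)) :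
    s ∈ Zf riemannZeta U1 U2 ∧ 1 / 2 < s.re ∧ s.re < 1 := by
  unfold ZR at hs
  rw [mem_filter] at hs
  exact ⟨hs.1, hs.2, Zf_re_lt hs.1⟩

lemma ZS_le {B : ℝ → ℝ} {K : ℝ} (h : KD B K) {a : ℝ} (ha : 1 ≤ a) (U1 U2 t : ℝ) :
    |ZS (KV B a) U1 U2 t| ≤ MZ K a U1 U2 t := by
  have hK := h.K1
  have ha0 : 0 < a := by linarith
  unfold ZS MZ
  refine (abs_sum_le_sum_abs _ _).trans (sum_le_sum fun s hs => ?_)
  obtain ⟨-, hs1, hs2⟩ := mem_ZR hs
  rw [abs_mul, abs_of_nonneg (Nat.cast_nonneg (mult riemannZeta s) : (0:ℝ) ≤ _)]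
  refine mul_le_mul_of_nonneg_left ?_ (Nat.cast_nonneg _)
  set b := s.re - 1 / 2 with hb
  have hb0 : 0 < b := by linarith
  have hb1 : b ≤ 1 / 2 := by linarith
  have h1 : ‖∫ w in (0 : ℝ)..b, hw (KV B a) t s w‖ ≤
      2 * K * Real.exp (a * b) * gg a (s.im - t) * |b - 0| := by
    refine intervalIntegral.norm_integral_le_of_norm_le_const fun w hw' => ?_
    rw [Set.uIoc_of_le hb0.le] at hw'
    unfold hw
    rw [Real.norm_eq_abs]
    refine (Complex.abs_im_le_norm _).trans ?_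
    refine (KV_hor h ha hw'.1.le (hw'.2.trans hb1) (s.im - t)).trans ?_
    have h2 : Real.exp (a * w) ≤ Real.exp (a * b) := Real.exp_le_exp.2 (mul_le_mul_of_nonneg_left hw'.2 ha0.le)
    have h3 := gg_nonneg ha0 (s.im - t)
    gcongr
  rw [sub_zero, abs_of_pos hb0, Real.norm_eq_abs] at h1
  refine h1.trans (le_of_eq ?_)
  ring

lemma gg_shift_int {a : ℝ} (ha : 0 < a) (c t1 t2 : ℝ) (h12 : t1 ≤ t2) :
    ∫ t in t1..t2, gg a (c - t) ≤ Real.pi := by
  have hi : Integrable (fun t : ℝ => gg a (c - t)) := (gg_int ha).comp_sub_left c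
  rw [intervalIntegral.integral_of_le h12]
  calc ∫ t in Set.Ioc t1 t2, gg a (c - t) ≤ ∫ t : ℝ, gg a (c - t) :=
        setIntegral_le_integral hi (Eventually.of_forall fun t => gg_nonneg ha _)
    _ = Real.pi := by rw [integral_sub_left_eq_self (gg a), gg_integral ha]

/-- the exponential moment of the distances of the zeros from the line (statement) -/
def P_DENS : Prop := ∃ κ C T0 : ℝ, 0 < κ ∧ 0 < C ∧ 10 ≤ T0 ∧ ∀ T : ℝ, T0 ≤ T →
    ∑ s ∈ Zf riemannZeta T (2 * T), (mult riemannZeta s : ℝ) *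
      Real.exp (κ * (|(zz s).im| * Real.log T)) ≤ C * (T * Real.log T)

theorem MZ_L1 (hdens : P_DENS) (K : ℝ) (hK : 1 ≤ K) : ∃ κ C T0 : ℝ, 0 < κ ∧ 0 < C ∧ 10 ≤ T0 ∧ ∀ T : ℝ, T0 ≤ T →
    ∀ τ : ℝ, 0 < τ → τ ≤ κ → ∀ U1 U2 : ℝ, T ≤ U1 → U2 ≤ 2 * T → ∀ t1 t2 : ℝ, t1 ≤ t2 →
      ∫ t in t1..t2, MZ K (τ * Real.log T) U1 U2 t ≤ C * T := by
  obtain ⟨κ, C, T0, hκ, hC, hT0, hd⟩ := hdens
  have hpi := Real.pi_pos
  refine ⟨κ / 2, 4 * Real.pi * K / κ * C, T0, by positivity, by positivity, hT0, fun T hT τ hτ hτκ U1 U2 hU1 hU2 t1 t2 h12 => ?_⟩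
  have hT10 : 10 ≤ T := hT0.trans hT
  have hL : 0 < Real.log T := Real.log_pos (by linarith)
  set L := Real.log T with hLd
  have ha0 : 0 < τ * L := by positivity
  have hdT := hd T hT
  rw [← hLd] at hdT
  have hsub : Zf riemannZeta U1 U2 ⊆ Zf riemannZeta T (2 * T) := by
    intro s hs
    rw [mem_Zf good_zeta (by linarith)] at hs
    rw [mem_Zf good_zeta (by linarith)]
    exact ⟨hs.1, hs.2.1, hU1.trans_lt hs.2.2.1, hs.2.2.2.1.trans hU2, hs.2.2.2.2⟩
  unfold MZ
  have hg := gg_cont (τ * L)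
  rw [intervalIntegral.integral_finsetSum (fun s _ => Continuous.intervalIntegrable (by fun_prop) _ _)]
  have h1 : ∀ s ∈ ZR U1 U2 (1 / 2), ∫ t in t1..t2, (mult riemannZeta s : ℝ) *
      ((s.re - 1 / 2) * (2 * K * Real.exp (τ * L * (s.re - 1 / 2)) * gg (τ * L) (s.im - t))) ≤
      4 * Real.pi * K / κ / L * ((mult riemannZeta s : ℝ) * Real.exp (κ * (|(zz s).im| * L))) := by
    intro s hs
    obtain ⟨-, hs1, hs2⟩ := mem_ZR hs
    set b := s.re - 1 / 2 with hb
    have hb0 : 0 < b := by linarith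
    have hzz : |(zz s).im| = b := by rw [zz_im, abs_neg, abs_of_pos hb0]
    rw [hzz]
    have e1 : ∀ t : ℝ, (mult riemannZeta s : ℝ) * (b * (2 * K * Real.exp (τ * L * b) * gg (τ * L) (s.im - t))) =
        ((mult riemannZeta s : ℝ) * (b * (2 * K * Real.exp (τ * L * b)))) * gg (τ * L) (s.im - t) := by
      intro t; ring
    simp only [e1]
    rw [intervalIntegral.integral_const_mul]
    have h2 := gg_shift_int ha0 s.im t1 t2 h12
    have h3 : b * Real.exp (τ * L * b) ≤ 2 / κ / L * Real.exp (κ * (b * L)) := by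
      have h4 : κ * (b * L) / 2 ≤ Real.exp (κ * (b * L) / 2) := by
        linarith [Real.add_one_le_exp (κ * (b * L) / 2)]
      have h5 : Real.exp (τ * L * b) ≤ Real.exp (κ * (b * L) / 2) := by
        refine Real.exp_le_exp.2 ?_
        have : τ * (L * b) ≤ κ / 2 * (L * b) := mul_le_mul_of_nonneg_right hτκ (by positivity)
        linarith
      have h6 : b ≤ 2 / κ / L * Real.exp (κ * (b * L) / 2) := by
        have h7 : b = 2 / κ / L * (κ * (b * L) / 2) := by field_simp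
        calc b = 2 / κ / L * (κ * (b * L) / 2) := h7
          _ ≤ _ := mul_le_mul_of_nonneg_left h4 (by positivity)
      calc b * Real.exp (τ * L * b) ≤ (2 / κ / L * Real.exp (κ * (b * L) / 2)) * Real.exp (κ * (b * L) / 2) :=
            mul_le_mul h6 h5 (Real.exp_pos _).le (by positivity)
        _ = 2 / κ / L * Real.exp (κ * (b * L)) := by
            rw [mul_assoc, ← Real.exp_add]
            congr 2
            ring
    have h8 : (0:ℝ) ≤ (mult riemannZeta s : ℝ) := Nat.cast_nonneg _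
    calc (mult riemannZeta s : ℝ) * (b * (2 * K * Real.exp (τ * L * b))) * ∫ t in t1..t2, gg (τ * L) (s.im - t) ≤
        (mult riemannZeta s : ℝ) * (b * (2 * K * Real.exp (τ * L * b))) * Real.pi :=
          mul_le_mul_of_nonneg_left h2 (by positivity)
      _ = 2 * K * Real.pi * (mult riemannZeta s : ℝ) * (b * Real.exp (τ * L * b)) := by ring
      _ ≤ 2 * K * Real.pi * (mult riemannZeta s : ℝ) * (2 / κ / L * Real.exp (κ * (b * L))) :=
          mul_le_mul_of_nonneg_left h3 (by positivity)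
      _ = _ := by ring
  refine (sum_le_sum h1).trans ?_
  rw [← mul_sum]
  have h9 : ∑ s ∈ ZR U1 U2 (1 / 2), (mult riemannZeta s : ℝ) * Real.exp (κ * (|(zz s).im| * L)) ≤ C * (T * L) := by
    refine le_trans (sum_le_sum_of_subset_of_nonneg ?_ fun s _ _ => by positivity) hdT
    intro s hs
    exact hsub (mem_ZR hs).1
  calc 4 * Real.pi * K / κ / L * ∑ s ∈ ZR U1 U2 (1 / 2), (mult riemannZeta s : ℝ) *
        Real.exp (κ * (|(zz s).im| * L)) ≤ 4 * Real.pi * K / κ / L * (C * (T * L)) :=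
        mul_le_mul_of_nonneg_left h9 (by positivity)
    _ = _ := by field_simp

end

end Pool.Agent.K4H8.JG
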