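import Mathlib
import Pool.Agent.K4H8.JG.Smo2
import Pool.Agent.K4H8.JG.Prm2
import Pool.Agent.K4H8.JG.Zer
import Pool.Agent.Y746.OJ.Stm3

set_option autoImplicit false

/-! The remainder term of the counting function of the zeros and the sum over the primes. -/

namespace Pool.Agent.K4H8.JG

open Filter Topology MeasureTheory Complex Finset
open H370 (zset mult NN Zf zz mem_Zf good_zeta zz_im NN_eq NN_add NN_mono zcount nn_asymp)
open Pool.Agent.Y745.SW (VF Wf P_KER P_MVB Py Px)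
open Pool.Agent.Y746.OJ (KerOK VH S_LI S_RV S0 pt)
open Pool.Agent.Y923.OJ (GG GG_im GG_int)

noncomputable section

lemma S0_int {V : ℂ → ℂ} {M0 M : ℝ} (hV : KerOK V M0 M) (h0 : 0 ≤ M0) (t : ℝ)
    {U1 U2 : ℝ} (h1 : 1 ≤ U1) :
    IntegrableOn (fun y => S0 y * (V ((y - t : ℝ) : ℂ)).re) (Set.Ioc U1 U2) := by
  have hLI := Pool.Agent.Y153.OJ.t_LI
  have h2 : ∀ y : ℝ, S0 y * (V ((y - t : ℝ) : ℂ)).re =
      -(1 / Real.pi) * ∫ σ in Set.Ioc (1 / 2 : ℝ) (3 / 2), (GG V t (σ, y)).im := by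
    intro y
    unfold S0
    rw [intervalIntegral.integral_of_le (by norm_num), mul_assoc, ← integral_mul_const]
    congr 1
    refine integral_congr_ae (Eventually.of_forall fun σ => ?_)
    exact (GG_im hV t (σ, y)).symm
  have h3 := (Complex.imCLM.integrable_comp (GG_int hLI hV h0 t h1 (U2 := U2))).integral_prod_right
  unfold IntegrableOn
  simp only [h2]
  exact h3.const_mul _

lemma pt_re (σ y : ℝ) : (pt σ y).re = σ := by unfold pt; simp
lemma pt_im (σ y : ℝ) : (pt σ y).im = y := by unfold pt; simp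

lemma ae_generic {U1 U2 : ℝ} (h1 : 1 ≤ U1) : ∀ᵐ y ∂(volume.restrict (Set.Ioc U1 U2)),
    y ∈ Set.Ioc U1 U2 ∧ ∀ σ : ℝ, 1 / 2 ≤ σ → σ ≤ 3 / 2 → riemannZeta (pt σ y) ≠ 0 := by
  classical
  have hfin : ((Zf riemannZeta U1 U2).image Complex.im : Set ℝ).Countable :=
    (Finset.finite_toSet _).countable
  have h2 : ∀ᵐ y ∂(volume : Measure ℝ), y ∉ ((Zf riemannZeta U1 U2).image Complex.im : Set ℝ) :=
    hfin.ae_notMem volume
  refine (ae_restrict_iff' measurableSet_Ioc).2 (h2.mono fun y hy hyI => ⟨hyI, fun σ hσ1 hσ2 h0 => hy ?_⟩)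
  have hσ : σ < 1 := by
    by_contra hc
    push Not at hc
    exact riemannZeta_ne_zero_of_one_le_re (by rw [pt_re]; exact hc) h0
  have hm : pt σ y ∈ Zf riemannZeta U1 U2 := by
    rw [mem_Zf good_zeta h1]
    refine ⟨?_, ?_, ?_, ?_, h0⟩
    · rw [pt_re]; linarith
    · rw [pt_re]; exact hσ
    · rw [pt_im]; exact hyI.1
    · rw [pt_im]; exact hyI.2
  rw [Finset.mem_coe, Finset.mem_image]
  exact ⟨_, hm, pt_im σ y⟩

lemma E1_S0 (hRV : S_RV) : ∃ C : ℝ, 0 < C ∧ ∀ (B : ℝ → ℝ) (K : ℝ), KD B K → ∀ a : ℝ, 1 ≤ a →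
    ∀ t U1 U2 : ℝ, 10 ≤ U1 → U1 ≤ U2 →
    |(∫ y in U1..U2, E1 y * (KV B a ((y - t : ℝ) : ℂ)).re) -
      ∫ y in U1..U2, S0 y * (KV B a ((y - t : ℝ) : ℂ)).re| ≤ C * (K * Real.pi) := by
  obtain ⟨C, hC, hrv⟩ := hRV
  refine ⟨C, hC, fun B K h a ha t U1 U2 hU1 hU12 => ?_⟩
  have hK := h.K1
  have ha0 : 0 < a := by linarith
  have hin : Integrable (fun y : ℝ => ‖KV B a ((y - t : ℝ) : ℂ)‖) := (KV_int h ha).norm.comp_sub_right t
  have hc : Continuous (fun y : ℝ => (KV B a ((y - t : ℝ) : ℂ)).re) :=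
    Complex.continuous_re.comp ((KV_cont h a).comp (continuous_id.sub continuous_const))
  have hE : IntegrableOn (fun y => E1 y * (KV B a ((y - t : ℝ) : ℂ)).re) (Set.Ioc U1 U2) := by
    have := (E1_int U1 U2).mul_continuousOn hc.continuousOn
    rwa [intervalIntegrable_iff_integrableOn_Ioc_of_le hU12] at this
  have hS : IntegrableOn (fun y => S0 y * (KV B a ((y - t : ℝ) : ℂ)).re) (Set.Ioc U1 U2) :=
    S0_int (KerOK_KV h ha) (by positivity) t (by linarith)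
  rw [intervalIntegral.integral_of_le hU12, intervalIntegral.integral_of_le hU12, ← integral_sub hE hS]
  have h3 : |∫ y in Set.Ioc U1 U2, (E1 y * (KV B a ((y - t : ℝ) : ℂ)).re -
      S0 y * (KV B a ((y - t : ℝ) : ℂ)).re)| ≤ ∫ y in Set.Ioc U1 U2, C * ‖KV B a ((y - t : ℝ) : ℂ)‖ := by
    rw [← Real.norm_eq_abs]
    refine norm_integral_le_of_norm_le (hin.const_mul C).integrableOn ?_
    filter_upwards [ae_generic (U2 := U2) (by linarith : (1:ℝ) ≤ U1)] with y hy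
    have h4 := hrv y (by linarith [hy.1.1]) hy.2
    have e : E1 y * (KV B a ((y - t : ℝ) : ℂ)).re - S0 y * (KV B a ((y - t : ℝ) : ℂ)).re =
        (E1 y - S0 y) * (KV B a ((y - t : ℝ) : ℂ)).re := by ring
    rw [e, norm_mul, Real.norm_eq_abs, Real.norm_eq_abs]
    exact mul_le_mul h4 (Complex.abs_re_le_norm _) (abs_nonneg _) hC.le
  refine h3.trans ?_
  calc ∫ y in Set.Ioc U1 U2, C * ‖KV B a ((y - t : ℝ) : ℂ)‖ ≤ ∫ y : ℝ, C * ‖KV B a ((y - t : ℝ) : ℂ)‖ :=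
        setIntegral_le_integral (hin.const_mul C) (Eventually.of_forall fun y => by
          show 0 ≤ C * ‖KV B a ((y - t : ℝ) : ℂ)‖
          positivity)
    _ ≤ _ := by
        rw [integral_const_mul, integral_sub_right_eq_self (fun x : ℝ => ‖KV B a (x : ℂ)‖)]
        exact mul_le_mul_of_nonneg_left (KV_L1 h ha) hC.le

/-- the majorant of the difference -/
def WW (B : ℝ → ℝ) (K C3 T a y U1 U2 t : ℝ) : ℝ :=
  K * Real.pi * W0 T a t + 2 * MZ K a U1 U2 t + ‖DDp B a ⌊y⌋₊ t‖ ^ 2 + C3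

lemma MZ_nonneg {K a U1 U2 t : ℝ} (hK : 0 ≤ K) (ha : 0 < a) : 0 ≤ MZ K a U1 U2 t := by
  unfold MZ
  refine sum_nonneg fun s hs => ?_
  obtain ⟨-, h1, -⟩ := mem_ZR hs
  have h2 := gg_nonneg ha (s.im - t)
  have h3 : 0 ≤ s.re - 1 / 2 := by linarith
  positivity

lemma WW_cont (B : ℝ → ℝ) (K C3 T a y U1 U2 : ℝ) : Continuous (WW B K C3 T a y U1 U2) := by
  unfold WW
  have h1 := W0_cont T a
  have h2 := MZ_cont K a U1 U2
  have h3 := DDp_cont B a ⌊y⌋₊
  fun_prop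

theorem ptw (hRV : S_RV) {B : ℝ → ℝ} {K : ℝ} (h : KD B K) {τ : ℝ} (hτ : 0 < τ) (hτ1 : τ ≤ 1 / 32) :
    ∃ C3 T0 : ℝ, 1 ≤ C3 ∧ 10 ≤ T0 ∧ ∀ T : ℝ, T0 ≤ T →
      ∃ U1 U2 : ℝ, T ≤ U1 ∧ U1 ≤ T + 1 ∧ 2 * T - 1 ≤ U2 ∧ U2 ≤ 2 * T ∧
        ∀ t : ℝ, T + Real.log T ≤ t → t ≤ 2 * T - Real.log T →
        |E1 t - (Py (T ^ (8 * τ)) t).im / Real.pi| ≤
          WW B K C3 T (τ * Real.log T) (T ^ (8 * τ)) U1 U2 t := by
  obtain ⟨C2, T2, hC2, hT2, hsfp⟩ := sfp
  obtain ⟨C1, hC1, hES⟩ := E1_S0 hRV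
  obtain ⟨C4, hC4, hcr⟩ := E1_crude
  have hK := h.K1
  have hpi := Real.pi_gt_three
  have hZ := Z54_nonneg
  set C3 : ℝ := K * Real.pi * (1 + 1 / τ) + C1 * (K * Real.pi) + C2 * (K * Real.pi + 2 * K) +
    (8 * K * Z54 + 1) with hC3
  have hev1 : ∀ᶠ T : ℝ in atTop, 4 ≤ τ * Real.log T :=
    (Real.tendsto_log_atTop.const_mul_atTop hτ).eventually_ge_atTop 4
  have hev2 : ∀ᶠ T : ℝ in atTop, 4 * C4 * T ^ 2 * Real.exp (-(Real.log T - 1) ^ 2 / 2) ≤ 1 := by
    filter_upwards [Real.tendsto_log_atTop.eventually_ge_atTop (8 + Real.log (4 * C4)),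
      Real.tendsto_log_atTop.eventually_ge_atTop 10, eventually_ge_atTop 1] with T h1 h2 h3
    have hT0 : 0 < T := by linarith
    have e1 : 4 * C4 * T ^ 2 = Real.exp (Real.log (4 * C4) + 2 * Real.log T) := by
      rw [Real.exp_add, Real.exp_log (by positivity)]
      congr 1
      rw [two_mul, Real.exp_add, Real.exp_log hT0, sq]
    rw [e1, ← Real.exp_add, Real.exp_le_one_iff]
    nlinarith
  obtain ⟨T3, hT3⟩ := eventually_atTop.1 (hev1.and hev2)
  have hC31 : 1 ≤ C3 := by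
    have h1 : 0 ≤ K * Real.pi * (1 + 1 / τ) := by positivity
    have h2 : 0 ≤ C1 * (K * Real.pi) := by positivity
    have h3 : 0 ≤ C2 * (K * Real.pi + 2 * K) := by positivity
    have h4 : 0 ≤ 8 * K * Z54 := by positivity
    rw [hC3]; linarith
  refine ⟨C3, max T2 T3, hC31, hT2.trans (le_max_left _ _), fun T hT => ?_⟩
  obtain ⟨ha4, hsm⟩ := hT3 T ((le_max_right _ _).trans hT)
  have hTT2 : T2 ≤ T := (le_max_left _ _).trans hT
  have hT10 : 10 ≤ T := hT2.trans hTT2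
  have hT0 : 0 < T := by linarith
  obtain ⟨U1, U2, hU1, hU1', hU2, hU2', hs⟩ := hsfp T hTT2
  refine ⟨U1, U2, hU1, hU1', hU2, hU2', fun t ht1 ht2 => ?_⟩
  set L := Real.log T with hL
  have hL1 : 1 ≤ L := by
    by_contra hc
    push Not at hc
    have : τ * L ≤ 1 / 32 * 1 := by
      rcases le_total 0 L with h0 | h0
      · exact mul_le_mul hτ1 hc.le h0 (by norm_num)
      · nlinarith
    linarith
  set a := τ * L with ha
  have ha1 : 1 ≤ a := by linarith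
  have ha0 : 0 < a := by linarith
  have hI0 := I0_ge h ha4
  have hker := KerOK_KV h ha1
  have h1 := hs (KV B a) (K * a) (K * a * (2 * Real.exp a)) (K * Real.pi) (by positivity) (by positivity) hker
    (VH_le h ha1) t ht1 ht2
  have h2 := hES B K h a ha1 t U1 U2 (by linarith) (by linarith)
  have h3 := smooth_aux h ha1 (m := L - 1) hT10 hU1 hU2' (by linarith) (by linarith) (by linarith) (t := t)
  have h4 := ZS_le h ha1 U1 U2 t
  have hy : Real.exp (8 * a) = T ^ (8 * τ) := by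
    rw [Real.rpow_def_of_pos hT0, ha, ← hL]
    congr 1
    ring
  have h5 := PS_py h ha1 t (y := T ^ (8 * τ)) hy.le
  -- the small terms
  have h6 : |E1 t| * Real.exp (-(L - 1) ^ 2 / 2) ≤ 1 := by
    refine le_trans ?_ hsm
    have h7 := hcr t (by linarith)
    have h8 : t ^ 2 ≤ (2 * T) ^ 2 := pow_le_pow_left₀ (by linarith) (by linarith) 2
    refine mul_le_mul_of_nonneg_right ?_ (Real.exp_pos _).le
    nlinarith
  have h9 : K * a * (2 * Real.exp a) / T ≤ 2 * K := by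
    rw [div_le_iff₀ hT0]
    have h10 : a ≤ Real.exp a := by linarith [Real.add_one_le_exp a]
    have h11 : Real.exp a * Real.exp a ≤ T := by
      rw [← Real.exp_add]
      have h12 : a + a ≤ L := by
        rw [ha]
        nlinarith
      calc Real.exp (a + a) ≤ Real.exp L := Real.exp_le_exp.2 h12
        _ = T := by rw [hL, Real.exp_log hT0]
    have h13 : a * Real.exp a ≤ T := (mul_le_mul_of_nonneg_right h10 (Real.exp_pos a).le).trans h11
    nlinarith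
  have h14 : L / a = 1 / τ := by
    rw [ha]
    field_simp
  set PYi := (Py (T ^ (8 * τ)) t).im with hPYi
  set IE := ∫ y in U1..U2, E1 y * (KV B a ((y - t : ℝ) : ℂ)).re with hIE
  set IS := ∫ y in U1..U2, S0 y * (KV B a ((y - t : ℝ) : ℂ)).re with hIS
  have hpi0 : 0 < Real.pi := by linarith
  have e1 : I0 B a * (E1 t - PYi / Real.pi) = (I0 B a * E1 t - IE) + (IE - IS) +
      (IS - 1 / Real.pi * PS (KV B a) t - 2 * ZS (KV B a) U1 U2 t) + 2 * ZS (KV B a) U1 U2 t +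
      (1 / Real.pi) * (PS (KV B a) t - I0 B a * PYi) := by
    field_simp
    ring
  have h15 : |E1 t - PYi / Real.pi| ≤ |I0 B a * (E1 t - PYi / Real.pi)| := by
    rw [abs_mul, abs_of_pos (by linarith : 0 < I0 B a)]
    nlinarith [abs_nonneg (E1 t - PYi / Real.pi)]
  refine h15.trans ?_
  rw [e1]
  have h16 : |(1 / Real.pi) * (PS (KV B a) t - I0 B a * PYi)| ≤ 8 * K * Z54 + 1 +
      ‖DDp B a ⌊T ^ (8 * τ)⌋₊ t‖ ^ 2 := by
    rw [abs_mul, abs_of_pos (by positivity : 0 < 1 / Real.pi)]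
    have h17 : 1 / Real.pi ≤ 1 := by rw [div_le_one hpi0]; linarith
    calc 1 / Real.pi * |PS (KV B a) t - I0 B a * PYi| ≤ 1 * |PS (KV B a) t - I0 B a * PYi| :=
          mul_le_mul_of_nonneg_right h17 (abs_nonneg _)
      _ ≤ _ := by rw [one_mul]; exact h5
  have h18 : |2 * ZS (KV B a) U1 U2 t| ≤ 2 * MZ K a U1 U2 t := by
    rw [abs_mul, abs_of_pos (by norm_num : (0:ℝ) < 2)]
    linarith
  have h19 : C2 * (K * Real.pi + K * a * (2 * Real.exp a) / T) ≤ C2 * (K * Real.pi + 2 * K) := by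
    gcongr
  have h20 : K * Real.pi * (|E1 t| * Real.exp (-(L - 1) ^ 2 / 2) + W0 T a t + L / a) ≤
      K * Real.pi * (1 + 1 / τ) + K * Real.pi * W0 T a t := by
    rw [h14]
    have : K * Real.pi * (|E1 t| * Real.exp (-(L - 1) ^ 2 / 2)) ≤ K * Real.pi * 1 :=
      mul_le_mul_of_nonneg_left h6 (by positivity)
    nlinarith
  refine (abs_add_le _ _).trans ?_
  refine (add_le_add ((abs_add_le _ _).trans (add_le_add ((abs_add_le _ _).trans (add_le_add
    (abs_add_le _ _) le_rfl)) le_rfl)) le_rfl).trans ?_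
  unfold WW
  rw [hC3]
  linarith

end

end Pool.Agent.K4H8.JG
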