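import Mathlib
import Pool.Agent.K4H8.JG.Smo3

set_option autoImplicit false

/-! The remainder term of the counting function of the zeros and the sum over the primes, in mean. -/

namespace Pool.Agent.K4H8.JG

open Filter Topology MeasureTheory Complex Finset
open H370 (zset mult NN Zf zz mem_Zf good_zeta zz_im NN_eq NN_add NN_mono zcount nn_asymp)
open Pool.Agent.Y745.SW (VF Wf P_KER P_MVB P_DX Py Px)
open Pool.Agent.Y746.OJ (KerOK VH S_LI S_RV S0 pt)

noncomputable section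

lemma ll_tendsto : Tendsto (fun T : ℝ => Real.log (Real.log T)) atTop atTop :=
  Real.tendsto_log_atTop.comp Real.tendsto_log_atTop

lemma NN_TT : ∃ C T0 : ℝ, 0 < C ∧ 10 ≤ T0 ∧ ∀ T : ℝ, T0 ≤ T →
    (NN riemannZeta T (2 * T) : ℝ) ≤ C * (T * Real.log T) := by
  obtain ⟨C, T0, hC, hT0, h⟩ := nn_asymp good_zeta
  refine ⟨C + 1, T0, by positivity, hT0, fun T hT => ?_⟩
  have h1 := (abs_le.1 (h T hT T (2 * T) le_rfl (by linarith) (by linarith) le_rfl)).2
  have hT10 : 10 ≤ T := hT0.trans hT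
  have hpi := Real.pi_gt_three
  have hL : 1 ≤ Real.log T := by
    rw [Real.le_log_iff_exp_le (by linarith)]
    linarith [Real.exp_one_lt_d9]
  have h2 : T * Real.log T / (2 * Real.pi) ≤ T * Real.log T := div_le_self (by positivity) (by linarith)
  nlinarith [mul_nonneg hC.le (mul_nonneg (by linarith : 0 ≤ T) (by linarith : 0 ≤ Real.log T - 1))]

theorem apx (hKER : P_KER) (hMVB : P_MVB) (hRV : S_RV) (hdens : P_DENS) : ∃ δ C T0 : ℝ, 0 < δ ∧ δ ≤ 1 / 4 ∧
    0 < C ∧ 10 ≤ T0 ∧ ∀ T : ℝ, T0 ≤ T → ∃ W : ℝ → ℝ, Continuous W ∧ (∀ t, 0 ≤ W t) ∧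
      ∫ t in (T + Real.log T)..(2 * T - Real.log T), W t ≤ C * T ∧
      (∀ t, T + Real.log T ≤ t → t ≤ 2 * T - Real.log T → |E1 t - (Py (T ^ δ) t).im / Real.pi| ≤ W t) ∧
      ∀ t u : ℝ, T + Real.log T ≤ t → t ≤ 2 * T - Real.log T → |u| ≤ 1 →
        |E1 (t + u) - E1 t| ≤ (1 + (u * Real.log T) ^ 2) * W t := by
  obtain ⟨B, K, h⟩ := exists_KD hKER
  have hK := h.K1
  obtain ⟨κ, C5, T5, hκ, hC5, hT5, hMZ⟩ := MZ_L1 hdens K hK
  set τ : ℝ := min κ (1 / 32) with hτd
  have hτ : 0 < τ := lt_min hκ (by norm_num)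
  have hτκ : τ ≤ κ := min_le_left _ _
  have hτ1 : τ ≤ 1 / 32 := min_le_right _ _
  obtain ⟨C3, T3, hC3, hT3, hptw⟩ := ptw hRV h hτ hτ1
  obtain ⟨C4, T4, hC4, hT4, hNN⟩ := NN_TT
  have hpi := Real.pi_gt_three
  have hpi0 : 0 < Real.pi := by linarith
  have hev1 : ∀ᶠ T : ℝ in atTop, 4 ≤ τ * Real.log T :=
    (Real.tendsto_log_atTop.const_mul_atTop hτ).eventually_ge_atTop 4
  obtain ⟨T6, hT6⟩ := eventually_atTop.1 (hev1.and (eventually_ge_atTop (256:ℝ)))
  refine ⟨8 * τ, K * Real.pi * (Real.pi * C4 / τ) + 2 * C5 + 220 * (K * Real.pi) ^ 2 + C3,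
    max (max T3 T4) (max T5 T6), by positivity, by linarith, by positivity,
    hT3.trans ((le_max_left _ _).trans (le_max_left _ _)), fun T hT => ?_⟩
  have hTT3 : T3 ≤ T := ((le_max_left _ _).trans (le_max_left _ _)).trans hT
  have hTT4 : T4 ≤ T := ((le_max_right _ _).trans (le_max_left _ _)).trans hT
  have hTT5 : T5 ≤ T := ((le_max_left _ _).trans (le_max_right _ _)).trans hT
  obtain ⟨ha4, hT256⟩ := hT6 T (((le_max_right _ _).trans (le_max_right _ _)).trans hT)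
  obtain ⟨U1, U2, hU1, hU1', hU2, hU2', hpt⟩ := hptw T hTT3
  have hT0 : 0 < T := by linarith
  set L := Real.log T with hL
  have hL0 : 0 < L := Real.log_pos (by linarith)
  have hL1 : 1 ≤ L := by
    rw [hL, Real.le_log_iff_exp_le hT0]
    linarith [Real.exp_one_lt_d9]
  have hLT : 2 * L ≤ T := by
    have h1 : Real.log T ≤ T ^ (1 / 2 : ℝ) / (1 / 2) := Real.log_le_rpow_div hT0.le (by norm_num)
    have h2 : T ^ (1 / 2 : ℝ) * T ^ (1 / 2 : ℝ) = T := by
      rw [← Real.rpow_add hT0]; norm_num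
    have h3 : (16:ℝ) ≤ T ^ (1 / 2 : ℝ) := by
      have h4 : (256:ℝ) ^ (1 / 2 : ℝ) = 16 := by
        rw [← Real.sqrt_eq_rpow, show (256:ℝ) = 16 ^ 2 by norm_num, Real.sqrt_sq (by norm_num)]
      rw [← h4]
      exact Real.rpow_le_rpow (by norm_num) hT256 (by norm_num)
    rw [← hL] at h1
    nlinarith
  set a := τ * L with ha
  have ha1 : 1 ≤ a := by linarith
  have ha0 : 0 < a := by linarith
  have haL : a ≤ L := by
    rw [ha]
    nlinarith
  refine ⟨WW B K C3 T a (T ^ (8 * τ)) U1 U2, WW_cont _ _ _ _ _ _ _ _, fun t => ?_, ?_, hpt, ?_⟩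
  · have h1 := W0_nonneg T a t
    have h2 := MZ_nonneg (K := K) (U1 := U1) (U2 := U2) (t := t) (by linarith) ha0
    unfold WW
    positivity
  · have h12 : T + L ≤ 2 * T - L := by linarith
    have c1 : Continuous (W0 T a) := W0_cont T a
    have c2 : Continuous (MZ K a U1 U2) := MZ_cont K a U1 U2
    have c3 : Continuous (DDp B a ⌊T ^ (8 * τ)⌋₊) := DDp_cont B a _
    have e1 : ∫ t in (T + L)..(2 * T - L), WW B K C3 T a (T ^ (8 * τ)) U1 U2 t =
        K * Real.pi * (∫ t in (T + L)..(2 * T - L), W0 T a t) +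
        2 * (∫ t in (T + L)..(2 * T - L), MZ K a U1 U2 t) +
        (∫ t in (T + L)..(2 * T - L), ‖DDp B a ⌊T ^ (8 * τ)⌋₊ t‖ ^ 2) + C3 * (T - 2 * L) := by
      unfold WW
      rw [intervalIntegral.integral_add (Continuous.intervalIntegrable (by fun_prop) _ _)
        (Continuous.intervalIntegrable (by fun_prop) _ _),
        intervalIntegral.integral_add (Continuous.intervalIntegrable (by fun_prop) _ _)
        (Continuous.intervalIntegrable (by fun_prop) _ _),
        intervalIntegral.integral_add (Continuous.intervalIntegrable (by fun_prop) _ _)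
        (Continuous.intervalIntegrable (by fun_prop) _ _),
        intervalIntegral.integral_const_mul, intervalIntegral.integral_const_mul,
        intervalIntegral.integral_const]
      simp only [smul_eq_mul]
      ring
    rw [e1]
    have h1 : ∫ t in (T + L)..(2 * T - L), W0 T a t ≤ Real.pi * C4 / τ * T := by
      refine (W0_int ha0 h12 (by linarith)).trans ?_
      have h2 := hNN T hTT4
      calc Real.pi / a * (NN riemannZeta T (2 * T) : ℝ) ≤ Real.pi / a * (C4 * (T * L)) :=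
            mul_le_mul_of_nonneg_left h2 (by positivity)
        _ = _ := by rw [ha]; field_simp
    have h2 : ∫ t in (T + L)..(2 * T - L), MZ K a U1 U2 t ≤ C5 * T :=
      hMZ T hTT5 τ hτ hτκ U1 U2 hU1 hU2' _ _ h12
    have h3 : ∫ t in (T + L)..(2 * T - L), ‖DDp B a ⌊T ^ (8 * τ)⌋₊ t‖ ^ 2 ≤ 220 * (K * Real.pi) ^ 2 * T := by
      have c4 : Continuous (fun t => ‖DDp B a ⌊T ^ (8 * τ)⌋₊ t‖ ^ 2) := by fun_prop
      have h4 : ∫ t in (T + L)..(2 * T - L), ‖DDp B a ⌊T ^ (8 * τ)⌋₊ t‖ ^ 2 ≤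
          ∫ t in T..(2 * T), ‖DDp B a ⌊T ^ (8 * τ)⌋₊ t‖ ^ 2 :=
        intervalIntegral.integral_mono_interval (by linarith) h12 (by linarith)
          (Eventually.of_forall fun t => by show 0 ≤ ‖DDp B a ⌊T ^ (8 * τ)⌋₊ t‖ ^ 2; positivity)
          (c4.intervalIntegrable _ _)
      refine h4.trans ?_
      have hy1 : 1 ≤ T ^ (8 * τ) := Real.one_le_rpow (by linarith) (by positivity)
      have hX1 : 1 ≤ ⌊T ^ (8 * τ)⌋₊ := Nat.le_floor (by exact_mod_cast hy1)
      have hXle : ((⌊T ^ (8 * τ)⌋₊ : ℕ) : ℝ) ≤ T ^ (8 * τ) := Nat.floor_le (by linarith)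
      have hX0 : (0:ℝ) < ((⌊T ^ (8 * τ)⌋₊ : ℕ) : ℝ) := by exact_mod_cast hX1
      have hlX : Real.log ((⌊T ^ (8 * τ)⌋₊ : ℕ) : ℝ) ≤ 8 * a := by
        refine (Real.log_le_log hX0 hXle).trans (le_of_eq ?_)
        rw [Real.log_rpow hT0, ha, ← hL]; ring
      refine DDp_ms hMVB h ha4 hX1 hlX hT0 ?_
      have hq : T ^ (8 * τ) ≤ T ^ (1 / 4 : ℝ) := Real.rpow_le_rpow_of_exponent_le (by linarith) (by linarith)
      set q := T ^ (1 / 4 : ℝ) with hqd
      have hq4 : q ^ 4 = T := by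
        rw [hqd, ← Real.rpow_natCast, ← Real.rpow_mul hT0.le]; norm_num
      have hq1 : 4 ≤ q := by
        have h5 : (256:ℝ) ^ (1 / 4 : ℝ) = 4 := by
          rw [show (256:ℝ) = 4 ^ (4:ℝ) by norm_num, ← Real.rpow_mul (by norm_num)]; norm_num
        rw [← h5]
        exact Real.rpow_le_rpow (by norm_num) hT256 (by norm_num)
      have hlq : Real.log ((⌊T ^ (8 * τ)⌋₊ : ℕ) : ℝ) ≤ q - 1 := by
        have h6 : Real.log ((⌊T ^ (8 * τ)⌋₊ : ℕ) : ℝ) ≤ ((⌊T ^ (8 * τ)⌋₊ : ℕ) : ℝ) - 1 :=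
          Real.log_le_sub_one_of_pos hX0
        linarith
      have hXq : ((⌊T ^ (8 * τ)⌋₊ : ℕ) : ℝ) ≤ q := hXle.trans hq
      calc 8 * ((⌊T ^ (8 * τ)⌋₊ : ℕ) : ℝ) * (1 + Real.log ((⌊T ^ (8 * τ)⌋₊ : ℕ) : ℝ)) ≤ 8 * q * q := by
            have h7 : 0 ≤ Real.log ((⌊T ^ (8 * τ)⌋₊ : ℕ) : ℝ) := Real.log_nonneg (by exact_mod_cast hX1)
            refine mul_le_mul (by linarith) (by linarith) (by linarith) (by linarith)
        _ ≤ q ^ 4 := by nlinarith [sq_nonneg q, mul_nonneg (by linarith : 0 ≤ q - 4) (by linarith : 0 ≤ q)]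
        _ = T := hq4
    have h5 : C3 * (T - 2 * L) ≤ C3 * T := mul_le_mul_of_nonneg_left (by linarith) (by linarith)
    have h6 : K * Real.pi * (∫ t in (T + L)..(2 * T - L), W0 T a t) ≤ K * Real.pi * (Real.pi * C4 / τ * T) :=
      mul_le_mul_of_nonneg_left h1 (by positivity)
    nlinarith
  · intro t u ht1 ht2 hu
    have hu' := abs_le.1 hu
    have h1 := E1_diff (T := T) (a := a) (by linarith) (t := t) (y := t + u) (by linarith) (by linarith)
      (by linarith [hu'.1]) (by linarith [hu'.2])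
    rw [add_sub_cancel_left] at h1
    refine h1.trans ?_
    have h2 := W0_nonneg T a t
    have h3 := MZ_nonneg (K := K) (U1 := U1) (U2 := U2) (t := t) (by linarith) ha0
    have h4 : W0 T a t + 1 ≤ WW B K C3 T a (T ^ (8 * τ)) U1 U2 t := by
      unfold WW
      have hKp : 1 ≤ K * Real.pi := by nlinarith
      have h5 : W0 T a t ≤ K * Real.pi * W0 T a t := by nlinarith
      have h6 : 0 ≤ ‖DDp B a ⌊T ^ (8 * τ)⌋₊ t‖ ^ 2 := by positivity
      linarith
    have h7 : (a * u) ^ 2 ≤ (u * L) ^ 2 := by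
      have h71 : a ^ 2 ≤ L ^ 2 := pow_le_pow_left₀ ha0.le haL 2
      calc (a * u) ^ 2 = u ^ 2 * a ^ 2 := by ring
        _ ≤ u ^ 2 * L ^ 2 := mul_le_mul_of_nonneg_left h71 (sq_nonneg u)
        _ = (u * L) ^ 2 := by ring
    have h8 : L * |u| ≤ 1 + (u * L) ^ 2 := by
      have e : (u * L) ^ 2 = (L * |u|) ^ 2 := by rw [mul_pow, mul_pow, sq_abs]; ring
      rw [e]
      nlinarith [sq_nonneg (L * |u| - 1), abs_nonneg u]
    calc (1 + (a * u) ^ 2) * W0 T a t + L * |u| ≤ (1 + (u * L) ^ 2) * W0 T a t + (1 + (u * L) ^ 2) := by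
          gcongr
      _ = (1 + (u * L) ^ 2) * (W0 T a t + 1) := by ring
      _ ≤ _ := by gcongr

lemma markov {f : ℝ → ℝ} (hf : Continuous f) (hf0 : ∀ t, 0 ≤ f t) {a b c I : ℝ} (hab : a ≤ b) (hc : 0 < c)
    (hI : ∫ t in a..b, f t ≤ I) : volume.real ({t | c < f t} ∩ Set.Icc a b) ≤ I / c := by
  rw [intervalIntegral.integral_of_le hab, ← integral_Icc_eq_integral_Ioc] at hI
  have h1 := mul_meas_ge_le_integral_of_nonneg (μ := volume.restrict (Set.Icc a b)) (f := f)
    (Eventually.of_forall hf0) (hf.continuousOn.integrableOn_compact isCompact_Icc) c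
  have hm : MeasurableSet {t | c ≤ f t} := measurableSet_le measurable_const hf.measurable
  rw [measureReal_restrict_apply hm] at h1
  rw [le_div_iff₀ hc, mul_comm]
  refine le_trans ?_ (h1.trans hI)
  refine mul_le_mul_of_nonneg_left ?_ hc.le
  refine measureReal_mono (Set.inter_subset_inter_left _ fun t (ht : c < f t) => (show c ≤ f t from ht.le)) ?_
  exact ne_top_of_le_ne_top (by simp) (measure_mono (Set.inter_subset_right : _ ∩ Set.Icc a b ⊆ Set.Icc a b))

lemma Py_cont (y : ℝ) : Continuous (Py y) := by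
  unfold Py
  refine continuous_finsetSum _ fun p hp => ?_
  have h1 : (p : ℂ) ≠ 0 := by
    have := (mem_Icc.1 (mem_filter.1 hp).1).1
    exact_mod_cast (by omega : p ≠ 0)
  exact Continuous.const_cpow (by fun_prop) (Or.inl h1)

theorem badE (hKER : P_KER) (hMVB : P_MVB) (hDX : P_DX) (hRV : S_RV) (hdens : P_DENS) {h ε η : ℝ}
    (hh : 0 < h) (hε : 0 < ε) (hη : 0 < η) : ∀ᶠ T : ℝ in atTop, ∃ Bd : Set ℝ, MeasurableSet Bd ∧
      Bd ⊆ Set.Icc T (2 * T) ∧ volume.real Bd ≤ ε * T ∧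
      ∀ t ∈ Set.Icc (T + Real.log T) (2 * T - Real.log T), t ∉ Bd → ∀ u : ℝ, |u| ≤ h / Real.log T →
        |E1 (t + u) - (Px T t).im / Real.pi| ≤ η * Real.sqrt (Real.log (Real.log T)) := by
  obtain ⟨δ, C, T0, hδ, hδ1, hC, hT0, hapx⟩ := apx hKER hMVB hRV hdens
  have hdx := hDX δ (ε * η ^ 2 / 18) hδ hδ1 (by positivity)
  have hσ : Tendsto (fun T : ℝ => Real.sqrt (Real.log (Real.log T))) atTop atTop :=
    Real.tendsto_sqrt_atTop.comp ll_tendsto
  filter_upwards [hdx, hσ.eventually_ge_atTop (6 * C * (1 + h ^ 2) / (ε * η)), hσ.eventually_ge_atTop 1,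
    Real.tendsto_log_atTop.eventually_ge_atTop (h + 1), eventually_ge_atTop T0,
    eventually_ge_atTop (256:ℝ)] with T t1 t2 t3 t4 t5 t6
  obtain ⟨W, hWc, hW0, hWI, hW1, hW2⟩ := hapx T t5
  have hTp : 0 < T := by linarith
  set L := Real.log T with hL
  set σ := Real.sqrt (Real.log L) with hσd
  have hL0 : 0 < L := by linarith
  have hσ0 : 0 < σ := by linarith
  have hσ2 : σ ^ 2 = Real.log L := by
    rw [hσd, Real.sq_sqrt]
    by_contra hc
    push Not at hc
    have : σ = 0 := Real.sqrt_eq_zero_of_nonpos hc.le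
    linarith
  have hLT : T + L ≤ 2 * T - L := by
    have h1 : Real.log T ≤ T ^ (1 / 2 : ℝ) / (1 / 2) := Real.log_le_rpow_div hTp.le (by norm_num)
    have h2 : T ^ (1 / 2 : ℝ) * T ^ (1 / 2 : ℝ) = T := by
      rw [← Real.rpow_add hTp]; norm_num
    have h3 : (16:ℝ) ≤ T ^ (1 / 2 : ℝ) := by
      have h4 : (256:ℝ) ^ (1 / 2 : ℝ) = 16 := by
        rw [← Real.sqrt_eq_rpow, show (256:ℝ) = 16 ^ 2 by norm_num, Real.sqrt_sq (by norm_num)]
      rw [← h4]
      exact Real.rpow_le_rpow (by norm_num) t6 (by norm_num)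
    rw [← hL] at h1
    nlinarith
  set c1 : ℝ := η * σ / (3 * (1 + h ^ 2)) with hc1
  have hc10 : 0 < c1 := by positivity
  set g : ℝ → ℝ := fun t => ‖Py (T ^ δ) t - Px T t‖ ^ 2 with hg
  have hgc : Continuous g := by
    have e : Continuous (fun t => Px T t) := Py_cont _
    have e' := Py_cont (T ^ δ)
    rw [hg]
    fun_prop
  set B1 : Set ℝ := {t | c1 < W t} ∩ Set.Icc (T + L) (2 * T - L) with hB1
  set B2 : Set ℝ := {t | (η * σ / 3) ^ 2 < g t} ∩ Set.Icc T (2 * T) with hB2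
  have hyδ : ∫ t in T..(2 * T), g t ≤ ε * η ^ 2 / 18 * (T * Real.log L) := by
    have h1 : 0 < T ^ δ := by positivity
    exact t1 (T ^ δ) (by linarith) (by linarith)
  have hm1 : volume.real B1 ≤ C * T / c1 := markov hWc hW0 hLT hc10 hWI
  have hm2 : volume.real B2 ≤ ε * η ^ 2 / 18 * (T * Real.log L) / (η * σ / 3) ^ 2 :=
    markov hgc (fun t => by rw [hg]; positivity) (by linarith) (by positivity) hyδ
  have hv1 : volume.real B1 ≤ ε / 2 * T := by
    refine hm1.trans ?_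
    rw [div_le_iff₀ hc10]
    have h1 : 6 * C * (1 + h ^ 2) / (ε * η) * (ε * η) ≤ σ * (ε * η) := mul_le_mul_of_nonneg_right t2 (by positivity)
    rw [div_mul_cancel₀ _ (by positivity)] at h1
    have h2 : C ≤ ε / 2 * c1 := by
      rw [hc1, mul_div_assoc', le_div_iff₀ (by positivity)]
      nlinarith
    calc C * T ≤ (ε / 2 * c1) * T := mul_le_mul_of_nonneg_right h2 hTp.le
      _ = _ := by ring
  have hv2 : volume.real B2 ≤ ε / 2 * T := by
    refine hm2.trans (le_of_eq ?_)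
    rw [← hσ2]
    field_simp
    norm_num
  have hB2m : MeasurableSet B2 := (measurableSet_lt measurable_const hgc.measurable).inter measurableSet_Icc
  have hB1m : MeasurableSet B1 := (measurableSet_lt measurable_const hWc.measurable).inter measurableSet_Icc
  refine ⟨B1 ∪ B2, hB1m.union hB2m, ?_, ?_, ?_⟩
  · rintro t (ht | ht)
    · exact ⟨by linarith [ht.2.1], by linarith [ht.2.2]⟩
    · exact ht.2
  · refine (measureReal_union_le _ _).trans ?_
    linarith
  · intro t ht htB u hu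
    have hu1 : |u| ≤ 1 := hu.trans (by rw [div_le_one hL0]; linarith)
    have hWt : W t ≤ c1 := by
      by_contra hc
      push Not at hc
      exact htB (Or.inl ⟨hc, ht⟩)
    have hgt : ‖Py (T ^ δ) t - Px T t‖ ≤ η * σ / 3 := by
      by_contra hc
      push Not at hc
      refine htB (Or.inr ⟨?_, by linarith [ht.1], by linarith [ht.2]⟩)
      show (η * σ / 3) ^ 2 < ‖Py (T ^ δ) t - Px T t‖ ^ 2
      exact pow_lt_pow_left₀ hc (by positivity) (by norm_num)
    have h1 := hW1 t ht.1 ht.2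
    have h2 := hW2 t u ht.1 ht.2 hu1
    have h3 : (u * L) ^ 2 ≤ h ^ 2 := by
      rw [← sq_abs (u * L), abs_mul, abs_of_pos hL0]
      refine pow_le_pow_left₀ (by positivity) ?_ 2
      rwa [le_div_iff₀ hL0] at hu
    have h4 : (1 + (u * L) ^ 2) * W t ≤ (1 + h ^ 2) * c1 := by
      have := hW0 t
      gcongr
    have h5 : (1 + h ^ 2) * c1 = η * σ / 3 := by rw [hc1]; field_simp
    have h6 : c1 ≤ η * σ / 3 := by
      rw [hc1]
      refine div_le_div_of_nonneg_left (by positivity) (by norm_num) ?_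
      nlinarith [sq_nonneg h]
    have h7 : |(Py (T ^ δ) t).im / Real.pi - (Px T t).im / Real.pi| ≤ η * σ / 3 := by
      rw [← sub_div, abs_div, abs_of_pos Real.pi_pos]
      have h8 : |(Py (T ^ δ) t).im - (Px T t).im| ≤ η * σ / 3 := by
        rw [← Complex.sub_im]
        exact (Complex.abs_im_le_norm _).trans hgt
      exact (div_le_self (abs_nonneg _) (by linarith [Real.pi_gt_three])).trans h8
    have e : E1 (t + u) - (Px T t).im / Real.pi = (E1 (t + u) - E1 t) + (E1 t - (Py (T ^ δ) t).im / Real.pi) +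
        ((Py (T ^ δ) t).im / Real.pi - (Px T t).im / Real.pi) := by ring
    rw [e]
    refine (abs_add_le _ _).trans ?_
    refine (add_le_add (abs_add_le _ _) le_rfl).trans ?_
    linarith

end

end Pool.Agent.K4H8.JG
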