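import Mathlib
import Pool.Agent.K4H8.JG.Law
import Pool.Agent.K4H8.JG.Smo4
import Pool.Agent.Y745.SW.Final
import Pool.Agent.Y746.OJ.RV
import Pool.Agent.Y815.OJ.AP
import Pool.Agent.Y37.OJ.GA
import Pool.Agent.TH803.UC.Dyad

set_option autoImplicit false

/-! Assembly. -/

namespace Pool.Agent.K4H8.JG

open MeasureTheory Complex H370 ProbabilityTheory
open Pool.Agent.Y745.SW

theorem a_IND2 : P_IND2 := t_IND2 a_FM a_TI

theorem a_RV : Pool.Agent.Y746.OJ.S_RV := Pool.Agent.Y746.OJ.t_RV Pool.Agent.Y815.OJ.t_AP Pool.Agent.Y37.OJ.t_GA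

theorem a_DENS : P_DENS := TH803UC.dens_zeta

theorem a_BE : P_BE := fun _ _ _ hh hε hη => badE Pool.Agent.Y248.SW.t_KER Pool.Agent.Y840.SW.t_MVB
  Pool.Agent.Y895.SW.t_DX a_RV a_DENS hh hε hη

/-- **the joint law, lower half** -/
theorem final2 (c0 : ℝ) {U : Set ℂ} (hU : IsOpen U) {ε : ℝ} (hε : 0 < ε) :
    ∃ δ : ℝ, 0 < δ ∧ ∃ X0 : ℝ, ∀ X : ℝ, X0 ≤ X →
    ((2 - cMTinv) * (stdGaussian ℂ).real U - ε) * (NN riemannZeta 0 X : ℝ) ≤ (PQn (Qs2 U c0 δ) 0 X : ℝ) :=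
  law2 good_zeta a_BLK a_IND2 Pool.Agent.Y895.SW.t_BV a_DER a_BE c0 hU hε

end Pool.Agent.K4H8.JG
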